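import Mathlib

set_option autoImplicit false
set_option linter.unusedSectionVars false
set_option linter.unusedSimpArgs false

namespace Pool.Agent.MP_ef8d06_pr

open Finset

variable {α : Type*} [DecidableEq α]

/-- Expectation of `f S` where `S` is a random subset of `E` containing every element
independently with probability `p`. -/
noncomputable def EE (p : ℝ) (E : Finset α) (f : Finset α → ℝ) : ℝ :=
  ∑ S ∈ E.powerset, p ^ S.card * (1 - p) ^ (E.card - S.card) * f S

lemma EE_empty (p : ℝ) (f : Finset α → ℝ) : EE p (∅ : Finset α) f = f ∅ := by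
  simp [EE]

lemma EE_insert (p : ℝ) {a : α} {E : Finset α} (ha : a ∉ E) (f : Finset α → ℝ) :
    EE p (insert a E) f = (1 - p) * EE p E f + p * EE p E (fun S => f (insert a S)) := by
  unfold EE
  rw [Finset.sum_powerset_insert ha, Finset.mul_sum, Finset.mul_sum]
  congr 1
  · refine Finset.sum_congr rfl fun S hS => ?_
    have hSE : S ⊆ E := Finset.mem_powerset.1 hS
    have hle : S.card ≤ E.card := Finset.card_le_card hSE
    rw [Finset.card_insert_of_notMem ha, Nat.sub_add_comm hle, pow_succ]
    ring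
  · refine Finset.sum_congr rfl fun S hS => ?_
    have hSE : S ⊆ E := Finset.mem_powerset.1 hS
    have haS : a ∉ S := fun h => ha (hSE h)
    rw [Finset.card_insert_of_notMem ha, Finset.card_insert_of_notMem haS,
      Nat.add_sub_add_right, pow_succ]
    ring

lemma EE_congr {p : ℝ} {E : Finset α} {f g : Finset α → ℝ} (h : ∀ S, S ⊆ E → f S = g S) :
    EE p E f = EE p E g := by
  unfold EE
  refine Finset.sum_congr rfl fun S hS => ?_
  rw [h S (Finset.mem_powerset.1 hS)]

lemma EE_mono {p : ℝ} (hp0 : 0 ≤ p) (hp1 : p ≤ 1) {E : Finset α} {f g : Finset α → ℝ}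
    (h : ∀ S, S ⊆ E → f S ≤ g S) : EE p E f ≤ EE p E g := by
  unfold EE
  refine Finset.sum_le_sum fun S hS => ?_
  have := h S (Finset.mem_powerset.1 hS)
  have h1 : 0 ≤ p ^ S.card * (1 - p) ^ (E.card - S.card) := by
    have : 0 ≤ 1 - p := by linarith
    positivity
  exact mul_le_mul_of_nonneg_left this h1

lemma EE_add (p : ℝ) (E : Finset α) (f g : Finset α → ℝ) :
    EE p E (fun S => f S + g S) = EE p E f + EE p E g := by
  unfold EE
  rw [← Finset.sum_add_distrib]
  refine Finset.sum_congr rfl fun S _ => by ring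

lemma EE_const_mul (p : ℝ) (E : Finset α) (a : ℝ) (f : Finset α → ℝ) :
    EE p E (fun S => a * f S) = a * EE p E f := by
  unfold EE
  rw [Finset.mul_sum]
  refine Finset.sum_congr rfl fun S _ => by ring

lemma EE_mul_const (p : ℝ) (E : Finset α) (a : ℝ) (f : Finset α → ℝ) :
    EE p E (fun S => f S * a) = EE p E f * a := by
  unfold EE
  rw [Finset.sum_mul]
  refine Finset.sum_congr rfl fun S _ => by ring

lemma EE_one (p : ℝ) (E : Finset α) : EE p E (fun _ => 1) = 1 := by
  induction E using Finset.induction_on with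
  | empty => simp [EE_empty]
  | insert a E ha ih => rw [EE_insert p ha, ih]; ring

lemma EE_const (p : ℝ) (E : Finset α) (a : ℝ) : EE p E (fun _ => a) = a := by
  have := EE_const_mul p E a (fun _ => 1)
  simp only [mul_one] at this
  rw [this, EE_one, mul_one]

lemma EE_sum {ι : Type*} (p : ℝ) (E : Finset α) (I : Finset ι) (f : ι → Finset α → ℝ) :
    EE p E (fun S => ∑ i ∈ I, f i S) = ∑ i ∈ I, EE p E (f i) := by
  unfold EE
  rw [Finset.sum_comm]
  refine Finset.sum_congr rfl fun S _ => by rw [Finset.mul_sum]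

lemma EE_nonneg {p : ℝ} (hp0 : 0 ≤ p) (hp1 : p ≤ 1) {E : Finset α} {f : Finset α → ℝ}
    (h : ∀ S, S ⊆ E → 0 ≤ f S) : 0 ≤ EE p E f := by
  have := EE_mono hp0 hp1 (E := E) (f := fun _ => 0) (g := f) h
  rwa [EE_const] at this

/-- Fubini: the random subset of a disjoint union is the union of independent random subsets. -/
lemma EE_union (p : ℝ) {E₁ E₂ : Finset α} (h : Disjoint E₁ E₂) (f : Finset α → ℝ) :
    EE p (E₁ ∪ E₂) f = EE p E₁ (fun S₁ => EE p E₂ (fun S₂ => f (S₁ ∪ S₂))) := by
  induction E₁ using Finset.induction_on generalizing f with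
  | empty => simp [EE_empty]
  | insert a E₁ ha ih =>
    have hd : Disjoint E₁ E₂ := Finset.disjoint_of_subset_left (Finset.subset_insert a E₁) h
    have haE₂ : a ∉ E₂ := Finset.disjoint_left.1 h (Finset.mem_insert_self a E₁)
    have haU : a ∉ E₁ ∪ E₂ := by simp [ha, haE₂]
    rw [Finset.insert_union, EE_insert p haU, EE_insert p ha, ih hd, ih hd]
    simp only [Finset.insert_union]

/-- An expectation of a quantity depending only on `S ∩ E₁`. -/
lemma EE_restrict (p : ℝ) {E₁ E : Finset α} (h : E₁ ⊆ E) (f : Finset α → ℝ)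
    (hf : ∀ S, S ⊆ E → f S = f (S ∩ E₁)) : EE p E f = EE p E₁ f := by
  have hE : E = E₁ ∪ (E \ E₁) := (Finset.union_sdiff_of_subset h).symm
  have hd : Disjoint E₁ (E \ E₁) := Finset.disjoint_sdiff
  rw [hE, EE_union p hd]
  refine EE_congr fun S₁ h₁ => ?_
  have : ∀ S₂, S₂ ⊆ E \ E₁ → f (S₁ ∪ S₂) = f S₁ := by
    intro S₂ h₂
    have hs : S₁ ∪ S₂ ⊆ E := Finset.union_subset (h₁.trans h) (h₂.trans Finset.sdiff_subset)
    rw [hf _ hs]
    congr 1
    rw [Finset.union_inter_distrib_right, Finset.inter_eq_left.2 h₁]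
    have : S₂ ∩ E₁ = ∅ := by
      apply Finset.disjoint_iff_inter_eq_empty.1
      exact Finset.disjoint_of_subset_left h₂ Finset.sdiff_disjoint
    rw [this, Finset.union_empty]
  rw [EE_congr (g := fun _ => f S₁) this, EE_const]

lemma EE_image {β : Type*} [DecidableEq β] (p : ℝ) (E : Finset α) (r : α → β)
    (hr : Set.InjOn r E) (f : Finset β → ℝ) :
    EE p (E.image r) f = EE p E (fun S => f (S.image r)) := by
  induction E using Finset.induction_on generalizing f with
  | empty => simp [EE_empty]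
  | insert a E ha ih =>
    have hr' : Set.InjOn r E := hr.mono (by simp)
    have hra : r a ∉ E.image r := by
      intro h
      obtain ⟨b, hb, hab⟩ := Finset.mem_image.1 h
      have : b = a := hr (by simp [hb]) (by simp) hab
      exact ha (this ▸ hb)
    rw [Finset.image_insert, EE_insert p hra, EE_insert p ha, ih hr', ih hr']
    simp only [Finset.image_insert]

open Classical in
/-- Probability of an event. -/
noncomputable def PP (p : ℝ) (E : Finset α) (Q : Finset α → Prop) : ℝ :=
  EE p E (fun S => if Q S then 1 else 0)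

lemma PP_nonneg {p : ℝ} (hp0 : 0 ≤ p) (hp1 : p ≤ 1) (E : Finset α) (Q : Finset α → Prop) :
    0 ≤ PP p E Q := by
  refine EE_nonneg hp0 hp1 fun S _ => ?_
  split_ifs <;> norm_num

lemma PP_le_one {p : ℝ} (hp0 : 0 ≤ p) (hp1 : p ≤ 1) (E : Finset α) (Q : Finset α → Prop) :
    PP p E Q ≤ 1 := by
  rw [← EE_one p E]
  refine EE_mono hp0 hp1 fun S _ => ?_
  split_ifs <;> norm_num

lemma PP_mono {p : ℝ} (hp0 : 0 ≤ p) (hp1 : p ≤ 1) {E : Finset α} {Q R : Finset α → Prop}
    (h : ∀ S, S ⊆ E → Q S → R S) : PP p E Q ≤ PP p E R := by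
  refine EE_mono hp0 hp1 fun S hS => ?_
  by_cases hQ : Q S
  · simp [hQ, h S hS hQ]
  · simp only [hQ, if_false]
    split_ifs <;> norm_num

lemma PP_or_le {p : ℝ} (hp0 : 0 ≤ p) (hp1 : p ≤ 1) (E : Finset α) (Q R : Finset α → Prop) :
    PP p E (fun S => Q S ∨ R S) ≤ PP p E Q + PP p E R := by
  unfold PP
  rw [← EE_add]
  refine EE_mono hp0 hp1 fun S _ => ?_
  by_cases hQ : Q S <;> by_cases hR : R S <;> simp [hQ, hR]

open Classical in
lemma PP_exists_le {ι : Type*} {p : ℝ} (hp0 : 0 ≤ p) (hp1 : p ≤ 1) (E : Finset α)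
    (I : Finset ι) (Q : ι → Finset α → Prop) :
    PP p E (fun S => ∃ i ∈ I, Q i S) ≤ ∑ i ∈ I, PP p E (Q i) := by
  unfold PP
  rw [← EE_sum]
  refine EE_mono hp0 hp1 fun S _ => ?_
  by_cases h : ∃ i ∈ I, Q i S
  · simp only [h, if_true]
    obtain ⟨i, hi, hQ⟩ := h
    have h1 : (1 : ℝ) = (if Q i S then 1 else 0) := by simp [hQ]
    exact h1.trans_le (Finset.single_le_sum (f := fun i => if Q i S then (1 : ℝ) else 0)
      (fun j _ => by split_ifs <;> norm_num) hi)
  · simp only [h, if_false]
    exact Finset.sum_nonneg fun j _ => by split_ifs <;> norm_num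

lemma PP_markov {p : ℝ} (hp0 : 0 ≤ p) (hp1 : p ≤ 1) (E : Finset α) (f : Finset α → ℝ)
    (hf : ∀ S, S ⊆ E → 0 ≤ f S) {a : ℝ} (ha : 0 < a) :
    PP p E (fun S => a ≤ f S) ≤ EE p E f / a := by
  rw [le_div_iff₀ ha]
  unfold PP
  rw [← EE_mul_const]
  refine EE_mono hp0 hp1 fun S hS => ?_
  by_cases h : a ≤ f S
  · simp [h]
  · simp [h, hf S hS]

lemma PP_compl (p : ℝ) (E : Finset α) (Q : Finset α → Prop) :
    PP p E (fun S => ¬ Q S) = 1 - PP p E Q := by
  have : PP p E Q + PP p E (fun S => ¬ Q S) = 1 := by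
    unfold PP
    rw [← EE_add]
    refine (EE_congr fun S _ => ?_).trans (EE_one p E)
    by_cases h : Q S <;> simp [h]
  linarith

/-- moment generating function of the number of elements of `F` in the random set -/
lemma EE_pow_card (p x : ℝ) {E F : Finset α} (h : F ⊆ E) :
    EE p E (fun S => x ^ (S ∩ F).card) = (1 - p + p * x) ^ F.card := by
  rw [EE_restrict p h _ (fun S _ => by rw [Finset.inter_assoc, Finset.inter_self])]
  induction F using Finset.induction_on with
  | empty => simp [EE_empty]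
  | insert a F ha ih =>
    have hF : F ⊆ E := (Finset.subset_insert a F).trans h
    rw [EE_insert p ha, Finset.card_insert_of_notMem ha, pow_succ, ← ih hF]
    have e1 : EE p F (fun S => x ^ (S ∩ insert a F).card) = EE p F (fun S => x ^ (S ∩ F).card) := by
      refine EE_congr fun S hS => ?_
      rw [Finset.inter_eq_left.2 hS, Finset.inter_eq_left.2 (hS.trans (Finset.subset_insert a F))]
    have e2 : EE p F (fun S => x ^ (insert a S ∩ insert a F).card)
        = x * EE p F (fun S => x ^ (S ∩ F).card) := by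
      rw [← EE_const_mul]
      refine EE_congr fun S hS => ?_
      have haS : a ∉ S := fun h' => ha (hS h')
      rw [← Finset.insert_inter_distrib, Finset.inter_eq_left.2 hS,
        Finset.card_insert_of_notMem haS, pow_succ]
      ring
    rw [e1, e2]
    ring

/-- Probability that the random set avoids `F`. -/
lemma PP_avoid (p : ℝ) {E F : Finset α} (h : F ⊆ E) :
    PP p E (fun S => Disjoint S F) = (1 - p) ^ F.card := by
  have := EE_pow_card p 0 h
  simp only [mul_zero, add_zero] at this
  rw [← this]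
  refine EE_congr fun S _ => ?_
  by_cases hd : Disjoint S F
  · simp [hd, Finset.disjoint_iff_inter_eq_empty.1 hd]
  · have : (S ∩ F).card ≠ 0 := by
      rw [Finset.card_ne_zero]
      by_contra hne
      rw [Finset.not_nonempty_iff_eq_empty] at hne
      exact hd (Finset.disjoint_iff_inter_eq_empty.2 hne)
    simp [hd, this]

/-- Probability that the random set contains `F`. -/
lemma PP_contains (p : ℝ) {E F : Finset α} (h : F ⊆ E) :
    PP p E (fun S => F ⊆ S) = p ^ F.card := by
  unfold PP
  beta_reduce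
  rw [EE_restrict p h _ (fun S _ => by simp [Finset.subset_inter_iff])]
  induction F using Finset.induction_on with
  | empty => simp [EE_empty]
  | insert a F ha ih =>
    have hF : F ⊆ E := (Finset.subset_insert a F).trans h
    rw [EE_insert p ha, Finset.card_insert_of_notMem ha, pow_succ, ← ih hF]
    have e1 : EE p F (fun S => @ite ℝ (insert a F ⊆ S) (Classical.propDecidable _) 1 0) = 0 := by
      refine (EE_congr fun S hS => ?_).trans (EE_const p F (0:ℝ))
      rw [if_neg]
      intro h'
      exact ha (hS (h' (Finset.mem_insert_self a F)))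
    have e2 : EE p F (fun S => @ite ℝ (insert a F ⊆ insert a S) (Classical.propDecidable _) 1 0)
        = EE p F (fun S => @ite ℝ (F ⊆ S) (Classical.propDecidable _) 1 0) := by
      refine EE_congr fun S hS => ?_
      by_cases hh : F ⊆ S
      · simp [hh, Finset.insert_subset_insert]
      · have : ¬ insert a F ⊆ insert a S := by
          intro h'
          apply hh
          intro x hx
          have hxa : x ≠ a := fun e => ha (e ▸ hx)
          exact (Finset.mem_insert.1 (h' (Finset.mem_insert_of_mem hx))).resolve_left hxa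
        simp [hh, this]
    rw [e1, e2]
    ring

/-- Chernoff lower tail (crude). -/
lemma PP_card_le {p : ℝ} (hp0 : 0 ≤ p) (hp1 : p ≤ 1) {E F : Finset α} (h : F ⊆ E) (M : ℕ) :
    PP p E (fun S => (S ∩ F).card ≤ M) ≤ Real.exp (M - p * F.card / 2) := by
  have hx : (0 : ℝ) < Real.exp (-1) := Real.exp_pos _
  have hx2 : Real.exp (-1) ≤ 1 / 2 := by
    rw [Real.exp_neg, inv_eq_one_div]
    apply one_div_le_one_div_of_le (by norm_num)
    have := Real.add_one_le_exp (1 : ℝ)
    linarith
  have h1 : PP p E (fun S => (S ∩ F).card ≤ M)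
      ≤ EE p E (fun S => Real.exp M * (Real.exp (-1)) ^ (S ∩ F).card) := by
    refine EE_mono hp0 hp1 fun S _ => ?_
    by_cases hc : (S ∩ F).card ≤ M
    · simp only [hc, if_true]
      rw [← Real.exp_nat_mul, ← Real.exp_add]
      apply Real.one_le_exp
      have : ((S ∩ F).card : ℝ) ≤ M := by exact_mod_cast hc
      linarith
    · simp only [hc, if_false]
      positivity
  refine h1.trans ?_
  rw [EE_const_mul, EE_pow_card p _ h]
  have h2 : 1 - p + p * Real.exp (-1) ≤ Real.exp (-(p / 2)) := by
    have := Real.add_one_le_exp (-(p / 2))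
    nlinarith
  have h3 : 0 ≤ 1 - p + p * Real.exp (-1) := by nlinarith
  calc Real.exp M * (1 - p + p * Real.exp (-1)) ^ F.card
      ≤ Real.exp M * (Real.exp (-(p / 2))) ^ F.card := by
        gcongr
    _ = Real.exp (M - p * F.card / 2) := by
        rw [← Real.exp_nat_mul, ← Real.exp_add]
        congr 1
        ring

/-- crude upper tail -/
lemma PP_le_card {p : ℝ} (hp0 : 0 ≤ p) (hp1 : p ≤ 1) {E F : Finset α} (h : F ⊆ E) (M : ℕ) :
    PP p E (fun S => M ≤ (S ∩ F).card) ≤ (F.card.choose M : ℝ) * p ^ M := by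
  have h1 : PP p E (fun S => M ≤ (S ∩ F).card)
      ≤ PP p E (fun S => ∃ T ∈ F.powersetCard M, T ⊆ S) := by
    refine PP_mono hp0 hp1 fun S _ hM => ?_
    obtain ⟨T, hT, hTc⟩ := Finset.exists_subset_card_eq hM
    exact ⟨T, Finset.mem_powersetCard.2 ⟨hT.trans Finset.inter_subset_right, hTc⟩,
      hT.trans Finset.inter_subset_left⟩
  refine h1.trans ((PP_exists_le hp0 hp1 E _ _).trans ?_)
  rw [Finset.sum_congr rfl (g := fun _ => p ^ M)]
  · rw [Finset.sum_const, Finset.card_powersetCard, nsmul_eq_mul]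
  · intro T hT
    obtain ⟨hT1, hT2⟩ := Finset.mem_powersetCard.1 hT
    rw [PP_contains p (hT1.trans h), hT2]

lemma PP_restrict (p : ℝ) {E₁ E : Finset α} (h : E₁ ⊆ E) (Q : Finset α → Prop) :
    PP p E (fun S => Q (S ∩ E₁)) = PP p E₁ Q := by
  unfold PP
  beta_reduce
  rw [EE_restrict p h _ (fun S _ => by rw [Finset.inter_assoc, Finset.inter_self])]
  refine EE_congr fun S hS => ?_
  rw [Finset.inter_eq_left.2 hS]

end Pool.Agent.MP_ef8d06_pr
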