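import Mathlib
import Pool.Agent.MP_ef8d06_pr.Basic

set_option autoImplicit false
set_option linter.unusedSectionVars false
set_option linter.unusedSimpArgs false

namespace Pool.Agent.MP_ef8d06_pr

open Finset

/-- All pairs `(u, v)` with `u < v < n`. -/
def Ed (n : ℕ) : Finset (ℕ × ℕ) := (range n ×ˢ range n).filter (fun e => e.1 < e.2)

/-- All pairs `(u, v)` with `u < v` (here `v` is fixed). -/
def star (v : ℕ) : Finset (ℕ × ℕ) := (range v).image (fun u => (u, v))

lemma mem_Ed {n : ℕ} {e : ℕ × ℕ} : e ∈ Ed n ↔ e.1 < e.2 ∧ e.2 < n := by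
  simp only [Ed, mem_filter, mem_product, mem_range]
  omega

lemma mem_star {v : ℕ} {e : ℕ × ℕ} : e ∈ star v ↔ e.1 < v ∧ e.2 = v := by
  simp only [star, mem_image, mem_range]
  constructor
  · rintro ⟨a, ha, rfl⟩; exact ⟨ha, rfl⟩
  · rintro ⟨h1, h2⟩; exact ⟨e.1, h1, by rw [← h2]⟩

lemma Ed_succ (n : ℕ) : Ed (n + 1) = Ed n ∪ star n := by
  ext e
  simp only [mem_Ed, mem_star, mem_union]
  omega

lemma disjoint_Ed_star {n v : ℕ} (h : n ≤ v) : Disjoint (Ed n) (star v) := by
  rw [Finset.disjoint_left]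
  intro e he he'
  rw [mem_Ed] at he
  rw [mem_star] at he'
  omega

lemma Ed_mono {m n : ℕ} (h : m ≤ n) : Ed m ⊆ Ed n := by
  intro e he
  rw [mem_Ed] at *
  omega

/-- The set of all vertices `< v` that can be reached from `A` along increasing paths of `S`. -/
def reach (S : Finset (ℕ × ℕ)) (A : Finset ℕ) : ℕ → Finset ℕ
  | 0 => ∅
  | v + 1 => if v ∈ A ∨ ∃ u ∈ reach S A v, (u, v) ∈ S then insert v (reach S A v) else reach S A v

lemma reach_subset_range (S : Finset (ℕ × ℕ)) (A : Finset ℕ) (v : ℕ) :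
    reach S A v ⊆ range v := by
  induction v with
  | zero => simp [reach]
  | succ v ih =>
    have h1 : range v ⊆ range (v + 1) := by
      intro x hx; simp only [mem_range] at *; omega
    rw [reach]
    split_ifs
    · exact Finset.insert_subset (by simp) (ih.trans h1)
    · exact ih.trans h1

lemma reach_succ_card (S : Finset (ℕ × ℕ)) (A : Finset ℕ) (v : ℕ) :
    (reach S A (v + 1)).card =
      if v ∈ A ∨ ∃ u ∈ reach S A v, (u, v) ∈ S then (reach S A v).card + 1
      else (reach S A v).card := by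
  rw [reach]
  split_ifs
  · rw [Finset.card_insert_of_notMem]
    intro h
    have := reach_subset_range S A v h
    simp at this
  · rfl

lemma reach_subset_succ (S : Finset (ℕ × ℕ)) (A : Finset ℕ) (v : ℕ) :
    reach S A v ⊆ reach S A (v + 1) := by
  conv_rhs => rw [reach]
  split_ifs
  · exact Finset.subset_insert _ _
  · exact Finset.Subset.refl _

lemma reach_mono_right (S : Finset (ℕ × ℕ)) (A : Finset ℕ) {v w : ℕ} (h : v ≤ w) :
    reach S A v ⊆ reach S A w := by
  induction w, h using Nat.le_induction with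
  | base => exact Finset.Subset.refl _
  | succ w _ ih => exact ih.trans (reach_subset_succ S A w)

lemma reach_congr {S S' : Finset (ℕ × ℕ)} (A : Finset ℕ) {v : ℕ}
    (h : ∀ e ∈ Ed v, (e ∈ S ↔ e ∈ S')) : reach S A v = reach S' A v := by
  induction v with
  | zero => rfl
  | succ v ih =>
    have ih' := ih (fun e he => h e (Ed_mono (Nat.le_succ v) he))
    rw [reach, reach, ih']
    have : (∃ u ∈ reach S' A v, (u, v) ∈ S) ↔ (∃ u ∈ reach S' A v, (u, v) ∈ S') := by
      refine exists_congr fun u => and_congr_right fun hu => ?_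
      have hu' := reach_subset_range _ _ _ hu
      rw [mem_range] at hu'
      exact h (u, v) (by rw [mem_Ed]; exact ⟨hu', Nat.lt_succ_self v⟩)
    simp only [this]

lemma reach_inter_Ed (S : Finset (ℕ × ℕ)) (A : Finset ℕ) {v w : ℕ} (h : v ≤ w) :
    reach (S ∩ Ed w) A v = reach S A v :=
  reach_congr A fun e he => by
    have : e ∈ Ed w := Ed_mono h he
    simp [this]

lemma mem_reach_iff (S : Finset (ℕ × ℕ)) (A : Finset ℕ) {v y : ℕ} (hy : y < v) :
    y ∈ reach S A v ↔ (y ∈ A ∨ ∃ u ∈ reach S A y, (u, y) ∈ S) := by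
  induction v, hy using Nat.le_induction with
  | base =>
    rw [reach]
    have hn : y ∉ reach S A y := fun h => by
      have := reach_subset_range S A y h
      simp at this
    split_ifs with hc
    · simp [hc]
    · simp [hn, hc]
  | succ v hv ih =>
    rw [reach]
    have hyv : y ≠ v := by omega
    split_ifs with hc
    · rw [Finset.mem_insert, ih]
      simp [hyv]
    · exact ih

lemma mem_reach_of_mem {S : Finset (ℕ × ℕ)} {A : Finset ℕ} {v y : ℕ} (hy : y < v) (h : y ∈ A) :
    y ∈ reach S A v := (mem_reach_iff S A hy).2 (Or.inl h)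

lemma mem_reach_lt {S : Finset (ℕ × ℕ)} {A : Finset ℕ} {v y : ℕ} (h : y ∈ reach S A v) : y < v := by
  have := reach_subset_range S A v h
  simpa using this

lemma mem_reach_of_mem_reach {S : Finset (ℕ × ℕ)} {A : Finset ℕ} {v w y : ℕ}
    (h : y ∈ reach S A v) (hw : y < w) : y ∈ reach S A w := by
  rw [mem_reach_iff S A (mem_reach_lt h)] at h
  rwa [mem_reach_iff S A hw]

lemma mem_reach_step {S : Finset (ℕ × ℕ)} {A : Finset ℕ} {v w u y : ℕ}
    (h : u ∈ reach S A v) (huy : u < y) (hyw : y < w) (he : (u, y) ∈ S) : y ∈ reach S A w :=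
  (mem_reach_iff S A hyw).2 (Or.inr ⟨u, mem_reach_of_mem_reach h huy, he⟩)

/-- the order generated by the edges in `S` -/
def pleq (S : Finset (ℕ × ℕ)) (x y : ℕ) : Prop :=
  Relation.ReflTransGen (fun u v => (u, v) ∈ S) x y

lemma pleq_of_mem_reach {S : Finset (ℕ × ℕ)} {A : Finset ℕ} {v y : ℕ}
    (h : y ∈ reach S A v) : ∃ a ∈ A, pleq S a y := by
  induction y using Nat.strong_induction_on generalizing v with
  | _ y ih =>
    rw [mem_reach_iff S A (mem_reach_lt h)] at h
    rcases h with h | ⟨u, hu, he⟩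
    · exact ⟨y, h, Relation.ReflTransGen.refl⟩
    · obtain ⟨a, ha, hau⟩ := ih u (mem_reach_lt hu) hu
      exact ⟨a, ha, hau.tail he⟩

lemma mem_reach_of_pleq {S : Finset (ℕ × ℕ)} {n : ℕ} (hS : S ⊆ Ed n) {A : Finset ℕ} {v a y : ℕ}
    (ha : a ∈ A) (hav : a < v) (h : pleq S a y) (hyv : y < v) : y ∈ reach S A v := by
  induction h with
  | refl => exact mem_reach_of_mem hav ha
  | @tail b c _ hbc ih =>
    have hbc' : b < c := (mem_Ed.1 (hS hbc)).1
    exact mem_reach_step (ih (hbc'.trans hyv)) hbc' hyv hbc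

lemma pleq_le {S : Finset (ℕ × ℕ)} {n : ℕ} (hS : S ⊆ Ed n) {x y : ℕ} (h : pleq S x y) :
    x ≤ y := by
  induction h with
  | refl => exact le_refl _
  | @tail b c _ hbc ih =>
    have := (mem_Ed.1 (hS hbc)).1
    simp only at this
    omega

lemma pleq_mono {S S' : Finset (ℕ × ℕ)} (h : S ⊆ S') {x y : ℕ} (hxy : pleq S x y) :
    pleq S' x y := by
  induction hxy with
  | refl => exact Relation.ReflTransGen.refl
  | tail _ hbc ih => exact ih.tail (h hbc)

/-! ### The chain of sizes -/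

lemma chain_step (p : ℝ) {v₀ v : ℕ} (h : v₀ ≤ v) {A : Finset ℕ} (hA : A ⊆ range v)
    (g : Finset (ℕ × ℕ) → ℝ) (φ : ℕ → ℝ) :
    EE p (Ed (v + 1)) (fun S => g (S ∩ Ed v₀) * φ (reach S A (v + 1)).card) =
      EE p (Ed v) (fun S => g (S ∩ Ed v₀) *
        ((1 - p) ^ (reach S A v).card * φ (reach S A v).card +
          (1 - (1 - p) ^ (reach S A v).card) * φ ((reach S A v).card + 1))) := by
  rw [Ed_succ, EE_union p (disjoint_Ed_star le_rfl)]
  refine EE_congr fun S₁ h₁ => ?_
  have hvA : v ∉ A := fun hv => by have := hA hv; simp at this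
  set R := reach S₁ A v with hR
  set F : Finset (ℕ × ℕ) := R.image (fun u => (u, v)) with hF
  have hFcard : F.card = R.card := by
    apply Finset.card_image_of_injective
    intro a b hab
    simpa using hab
  have hFs : F ⊆ star v := by
    intro e he
    obtain ⟨u, hu, rfl⟩ := Finset.mem_image.1 he
    rw [mem_star]
    exact ⟨mem_reach_lt hu, rfl⟩
  have key : ∀ S₂, S₂ ⊆ star v →
      g ((S₁ ∪ S₂) ∩ Ed v₀) * φ (reach (S₁ ∪ S₂) A (v + 1)).card =
        g (S₁ ∩ Ed v₀) * φ (R.card + 1) +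
          (g (S₁ ∩ Ed v₀) * (φ R.card - φ (R.card + 1))) *
            (if Disjoint S₂ F then 1 else 0) := by
    intro S₂ h₂
    have e1 : (S₁ ∪ S₂) ∩ Ed v₀ = S₁ ∩ Ed v₀ := by
      ext e
      simp only [mem_inter, mem_union]
      constructor
      · rintro ⟨h3 | h3, h4⟩
        · exact ⟨h3, h4⟩
        · have := mem_star.1 (h₂ h3)
          have := mem_Ed.1 h4
          omega
      · rintro ⟨h3, h4⟩
        exact ⟨Or.inl h3, h4⟩
    have e2 : reach (S₁ ∪ S₂) A v = R := by
      refine reach_congr A fun e he => ?_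
      simp only [mem_union, or_iff_left_iff_imp]
      intro h3
      have := mem_star.1 (h₂ h3)
      have := mem_Ed.1 he
      omega
    have e3 : (v ∈ A ∨ ∃ u ∈ reach (S₁ ∪ S₂) A v, (u, v) ∈ S₁ ∪ S₂) ↔ ¬ Disjoint S₂ F := by
      rw [e2, Finset.not_disjoint_iff]
      constructor
      · rintro (h3 | ⟨u, hu, h3⟩)
        · exact absurd h3 hvA
        · rcases Finset.mem_union.1 h3 with h4 | h4
          · have := mem_Ed.1 (h₁ h4)
            simp at this
          · exact ⟨(u, v), h4, Finset.mem_image.2 ⟨u, hu, rfl⟩⟩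
      · rintro ⟨e, he, heF⟩
        obtain ⟨u, hu, rfl⟩ := Finset.mem_image.1 heF
        exact Or.inr ⟨u, hu, Finset.mem_union_right _ he⟩
    rw [e1, reach_succ_card, e2]
    rw [e2] at e3
    by_cases hd : Disjoint S₂ F
    · rw [if_neg (by rw [e3]; exact not_not.2 hd)]
      simp only [hd, if_true]
      ring
    · rw [if_pos (by rw [e3]; exact hd)]
      simp only [hd, if_false]
      ring
  rw [EE_congr key, EE_add, EE_const, EE_const_mul]
  have h5 := PP_avoid p hFs
  unfold PP at h5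
  have h6 : EE p (star v) (fun S => if Disjoint S F then (1:ℝ) else 0) = (1 - p) ^ F.card := by
    rw [← h5]
    refine EE_congr fun S _ => ?_
    by_cases hd : Disjoint S F <;> simp [hd]
  rw [h6, hFcard]
  ring

/-- Iterated supermartingale bound for the sizes of `reach`. -/
lemma chain_bound {p : ℝ} (hp0 : 0 ≤ p) (hp1 : p ≤ 1) {v₀ : ℕ} {A : Finset ℕ}
    (hA : A ⊆ range v₀) (g : Finset (ℕ × ℕ) → ℝ) (hg : ∀ S, 0 ≤ g S) (T : ℕ)
    (hgT : ∀ S, S ⊆ Ed v₀ → g S ≠ 0 → T ≤ (reach S A v₀).card)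
    (φ : ℕ → ℝ) (ρ : ℝ) (hρ : 0 ≤ ρ)
    (hφ : ∀ x, T ≤ x → (1 - p) ^ x * φ x + (1 - (1 - p) ^ x) * φ (x + 1) ≤ ρ * φ x) (t : ℕ) :
    EE p (Ed (v₀ + t)) (fun S => g (S ∩ Ed v₀) * φ (reach S A (v₀ + t)).card) ≤
      ρ ^ t * EE p (Ed v₀) (fun S => g S * φ (reach S A v₀).card) := by
  induction t with
  | zero =>
    simp only [add_zero, pow_zero, one_mul]
    refine EE_mono hp0 hp1 fun S hS => ?_
    rw [Finset.inter_eq_left.2 hS]
  | succ t ih =>
    have hA' : A ⊆ range (v₀ + t) := hA.trans (by intro x hx; simp only [mem_range] at *; omega)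
    rw [← add_assoc, chain_step p (Nat.le_add_right v₀ t) hA']
    have h1 : EE p (Ed (v₀ + t)) (fun S => g (S ∩ Ed v₀) *
        ((1 - p) ^ (reach S A (v₀ + t)).card * φ (reach S A (v₀ + t)).card +
          (1 - (1 - p) ^ (reach S A (v₀ + t)).card) * φ ((reach S A (v₀ + t)).card + 1))) ≤
        EE p (Ed (v₀ + t)) (fun S => ρ * (g (S ∩ Ed v₀) * φ (reach S A (v₀ + t)).card)) := by
      refine EE_mono hp0 hp1 fun S hS => ?_
      by_cases h0 : g (S ∩ Ed v₀) = 0
      · simp [h0]
      · have h2 := hgT _ Finset.inter_subset_right h0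
        rw [reach_inter_Ed S A le_rfl] at h2
        have h3 : T ≤ (reach S A (v₀ + t)).card :=
          h2.trans (Finset.card_le_card (reach_mono_right S A (Nat.le_add_right _ _)))
        have h4 := mul_le_mul_of_nonneg_left (hφ _ h3) (hg (S ∩ Ed v₀))
        linarith
    refine h1.trans ?_
    rw [EE_const_mul, pow_succ]
    calc ρ * EE p (Ed (v₀ + t)) (fun S => g (S ∩ Ed v₀) * φ (reach S A (v₀ + t)).card)
        ≤ ρ * (ρ ^ t * EE p (Ed v₀) (fun S => g S * φ (reach S A v₀).card)) :=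
          mul_le_mul_of_nonneg_left ih hρ
      _ = ρ ^ t * ρ * EE p (Ed v₀) (fun S => g S * φ (reach S A v₀).card) := by ring

end Pool.Agent.MP_ef8d06_pr
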