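import Mathlib
import Pool.Agent.MP_ef8d06_pr.Chain

set_option autoImplicit false
set_option linter.unusedSectionVars false
set_option linter.unusedSimpArgs false

namespace Pool.Agent.MP_ef8d06_pr

open Finset

lemma ascFactorial_pos' {x q : ℕ} (hx : 1 ≤ x) : 0 < (x.ascFactorial q : ℝ) := by
  have : 0 < x.ascFactorial q := by
    obtain ⟨y, rfl⟩ : ∃ y, x = y + 1 := ⟨x - 1, by omega⟩
    exact Nat.ascFactorial_pos y q
  exact_mod_cast this

lemma ascFactorial_succ_left' (x q : ℕ) :
    (x : ℝ) * ((x + 1).ascFactorial q : ℝ) = (x + q) * (x.ascFactorial q : ℝ) := by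
  induction q with
  | zero => simp
  | succ q ih =>
    rw [Nat.ascFactorial_succ, Nat.ascFactorial_succ]
    push_cast
    have : (x : ℝ) * ((x + 1 + q) * ((x + 1).ascFactorial q : ℝ)) =
      (x + 1 + q) * ((x : ℝ) * ((x + 1).ascFactorial q : ℝ)) := by ring
    rw [this, ih]
    ring

lemma one_sub_pow_le {p : ℝ} (hp1 : p ≤ 1) (x : ℕ) : 1 - (1 - p) ^ x ≤ p * x := by
  have := one_add_mul_le_pow (a := -p) (by linarith) x
  have h2 : (1 + -p) = 1 - p := by ring
  rw [h2] at this
  nlinarith

lemma le_one_sub_pow {p : ℝ} (hp0 : 0 ≤ p) (hp1 : p ≤ 1) (x : ℕ) :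
    p * x / (1 + p * x) ≤ 1 - (1 - p) ^ x := by
  have h0 : 0 ≤ p * x := by positivity
  have h1 : (1 - p) ^ x ≤ 1 / (1 + p * x) := by
    rw [le_div_iff₀ (by positivity)]
    have h2 : (1 + p * x) ≤ (1 + p) ^ x := by
      have := one_add_mul_le_pow (a := p) (by linarith) x
      linarith
    calc (1 - p) ^ x * (1 + p * x) ≤ (1 - p) ^ x * (1 + p) ^ x := by
          have : 0 ≤ (1 - p) ^ x := pow_nonneg (by linarith) x
          exact mul_le_mul_of_nonneg_left h2 this
      _ = (1 - p ^ 2) ^ x := by rw [← mul_pow]; ring_nf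
      _ ≤ 1 := by
          apply pow_le_one₀
          · nlinarith
          · nlinarith
  have h3 : p * x / (1 + p * x) = 1 - 1 / (1 + p * x) := by
    field_simp
    ring
  rw [h3]
  linarith

/-- Rising factorial moments of the size of the set reachable from one vertex. -/
lemma upper_moment {p : ℝ} (hp0 : 0 ≤ p) (hp1 : p ≤ 1) {a n : ℕ} (ha : a < n) (q : ℕ) :
    EE p (Ed n) (fun S => ((reach S {a} n).card.ascFactorial q : ℝ)) ≤
      (1 + p * q) ^ n * (q.factorial : ℝ) := by
  obtain ⟨t, rfl⟩ : ∃ t, n = (a + 1) + t := ⟨n - (a + 1), by omega⟩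
  have hA : ({a} : Finset ℕ) ⊆ range (a + 1) := by simp
  have hcard : ∀ S, (reach S {a} (a + 1)).card = 1 := by
    intro S
    have h0 : ∀ v, v ≤ a → reach S {a} v = ∅ := by
      intro v
      induction v with
      | zero => intro _; rfl
      | succ v ih =>
        intro hv
        rw [reach, ih (by omega)]
        have : v ≠ a := by omega
        simp [this]
    rw [reach_succ_card, h0 a le_rfl]
    simp
  have h := chain_bound hp0 hp1 hA (fun _ => 1) (fun _ => zero_le_one) 1
    (fun S _ _ => by rw [hcard S]) (fun x => (x.ascFactorial q : ℝ)) (1 + p * q) (by positivity)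
    (by
      intro x hx
      have hx' : (0 : ℝ) < x := by exact_mod_cast hx
      have e1 := ascFactorial_succ_left' x q
      have e2 : ((x + 1).ascFactorial q : ℝ) = (x.ascFactorial q : ℝ) * (1 + q / x) := by
        field_simp
        linarith
      rw [e2]
      have e3 := one_sub_pow_le hp1 x
      have e4 : 0 ≤ (x.ascFactorial q : ℝ) := by positivity
      have e5 : (1 - p) ^ x * (x.ascFactorial q : ℝ) +
          (1 - (1 - p) ^ x) * ((x.ascFactorial q : ℝ) * (1 + q / x)) =
          (x.ascFactorial q : ℝ) * (1 + (1 - (1 - p) ^ x) * (q / x)) := by ring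
      rw [e5]
      have e6 : (1 - (1 - p) ^ x) * ((q : ℝ) / x) ≤ p * q := by
        calc (1 - (1 - p) ^ x) * ((q : ℝ) / x) ≤ (p * x) * ((q : ℝ) / x) :=
              mul_le_mul_of_nonneg_right e3 (by positivity)
          _ = p * q := by field_simp
      calc (x.ascFactorial q : ℝ) * (1 + (1 - (1 - p) ^ x) * (q / x))
          ≤ (x.ascFactorial q : ℝ) * (1 + p * q) :=
            mul_le_mul_of_nonneg_left (by linarith) e4
        _ = (1 + p * q) * (x.ascFactorial q : ℝ) := by ring) t
  simp only [one_mul] at h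
  refine h.trans ?_
  have h1 : EE p (Ed (a + 1)) (fun S => ((reach S {a} (a + 1)).card.ascFactorial q : ℝ)) =
      (q.factorial : ℝ) := by
    rw [EE_congr (g := fun _ => ((q.factorial : ℕ) : ℝ)), EE_const]
    intro S _
    rw [hcard S, Nat.one_ascFactorial]
  rw [h1]
  have h2 : (1 + p * q) ^ t ≤ (1 + p * q) ^ (a + 1 + t) := by
    apply pow_le_pow_right₀
    · have : 0 ≤ p * q := by positivity
      linarith
    · omega
  exact mul_le_mul_of_nonneg_right h2 (by positivity)

/-- Upper tail for the number of vertices above `a`. -/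
lemma upper_tail {p : ℝ} (hp0 : 0 ≤ p) (hp1 : p ≤ 1) {a n : ℕ} (ha : a < n) (q K : ℕ)
    (hK : 1 ≤ K) :
    PP p (Ed n) (fun S => K ≤ (reach S {a} n).card) ≤
      (Real.exp (p * n) * q / K) ^ q := by
  have hK' : (0 : ℝ) < (K : ℝ) ^ q := by
    have : (0 : ℝ) < K := by exact_mod_cast hK
    positivity
  have h1 : PP p (Ed n) (fun S => K ≤ (reach S {a} n).card) ≤
      PP p (Ed n) (fun S => ((K : ℝ) ^ q) ≤ ((reach S {a} n).card.ascFactorial q : ℝ)) := by
    refine PP_mono hp0 hp1 fun S _ h => ?_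
    have h2 : K ^ q ≤ K.ascFactorial q := Nat.pow_succ_le_ascFactorial K q
    have h3 : K.ascFactorial q ≤ (reach S {a} n).card.ascFactorial q :=
      Nat.ascFactorial_le _ h
    exact_mod_cast h2.trans h3
  refine h1.trans ((PP_markov hp0 hp1 _ _ (fun S _ => by positivity) hK').trans ?_)
  rw [div_le_iff₀ hK']
  refine (upper_moment hp0 hp1 ha q).trans ?_
  have h4 : (1 + p * q) ^ n ≤ (Real.exp (p * n)) ^ q := by
    have : 1 + p * q ≤ Real.exp (p * q) := by
      have := Real.add_one_le_exp (p * q); linarith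
    calc (1 + p * q) ^ n ≤ (Real.exp (p * q)) ^ n := by
          apply pow_le_pow_left₀ (by positivity) this
      _ = (Real.exp (p * n)) ^ q := by
          rw [← Real.exp_nat_mul, ← Real.exp_nat_mul]
          ring_nf
  have h5 : (q.factorial : ℝ) ≤ (q : ℝ) ^ q := by exact_mod_cast Nat.factorial_le_pow q
  have hK0 : (K : ℝ) ≠ 0 := by
    have : (0 : ℝ) < K := by exact_mod_cast hK
    exact this.ne'
  calc (1 + p * q) ^ n * (q.factorial : ℝ) ≤ (Real.exp (p * n)) ^ q * (q : ℝ) ^ q := by
        apply mul_le_mul h4 h5 (by positivity) (by positivity)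
    _ = (Real.exp (p * n) * q / K) ^ q * (K : ℝ) ^ q := by
        rw [← mul_pow, ← mul_pow]
        congr 1
        field_simp

/-- First moment bound for the probability that `b` is above `a`. -/
lemma prob_pleq_le {p : ℝ} (hp0 : 0 ≤ p) (hp1 : p ≤ 1) {a b n : ℕ} (hab : a < b) (hbn : b < n) :
    PP p (Ed n) (fun S => b ∈ reach S {a} n) ≤ p * Real.exp (p * n) := by
  have h0 : PP p (Ed n) (fun S => b ∈ reach S {a} n) =
      PP p (Ed (b + 1)) (fun S => b ∈ reach S {a} (b + 1)) := by
    rw [← PP_restrict p (Ed_mono (show b + 1 ≤ n by omega))]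
    unfold PP
    refine EE_congr fun S _ => ?_
    have : b ∈ reach (S ∩ Ed (b + 1)) {a} (b + 1) ↔ b ∈ reach S {a} n := by
      rw [reach_inter_Ed S _ le_rfl, mem_reach_iff S {a} (Nat.lt_succ_self b),
        mem_reach_iff S {a} hbn]
    by_cases hh : b ∈ reach S {a} n
    · rw [if_pos hh, if_pos (this.2 hh)]
    · rw [if_neg hh, if_neg (fun h => hh (this.1 h))]
  rw [h0]
  have hA : ({a} : Finset ℕ) ⊆ range b := by simpa using hab
  have hbA : b ∉ ({a} : Finset ℕ) := by simp; omega
  -- write indicator as difference of sizes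
  have h1 : PP p (Ed (b + 1)) (fun S => b ∈ reach S {a} (b + 1)) =
      EE p (Ed (b + 1)) (fun S => (fun _ => (1:ℝ)) (S ∩ Ed b) * ((reach S {a} (b + 1)).card : ℝ)) -
      EE p (Ed b) (fun S => ((reach S {a} b).card : ℝ)) := by
    have h2 : EE p (Ed b) (fun S => ((reach S {a} b).card : ℝ)) =
        EE p (Ed (b + 1)) (fun S => ((reach S {a} b).card : ℝ)) := by
      rw [EE_restrict p (Ed_mono (Nat.le_succ b)) (fun S => ((reach S {a} b).card : ℝ))
        (fun S _ => by rw [reach_inter_Ed S _ le_rfl])]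
    rw [h2, eq_sub_iff_add_eq]
    unfold PP
    rw [← EE_add]
    refine EE_congr fun S _ => ?_
    have hn : b ∉ reach S {a} b := fun h => by
      have := mem_reach_lt h
      omega
    have hmem := mem_reach_iff S {a} (Nat.lt_succ_self b)
    have hcard := reach_succ_card S {a} b
    by_cases hc : b ∈ ({a} : Finset ℕ) ∨ ∃ u ∈ reach S {a} b, (u, b) ∈ S
    · rw [if_pos (hmem.2 hc), hcard, if_pos hc]
      push_cast
      ring
    · rw [if_neg (fun h => hc (hmem.1 h)), hcard, if_neg hc]
      ring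
  rw [h1, chain_step p le_rfl hA (fun _ => (1:ℝ)) (fun x => (x : ℝ)), ← sub_nonneg]
  have h3 : EE p (Ed b) (fun S => (fun _ => (1:ℝ)) (S ∩ Ed b) *
        ((1 - p) ^ (reach S {a} b).card * ((reach S {a} b).card : ℝ) +
          (1 - (1 - p) ^ (reach S {a} b).card) * (((reach S {a} b).card + 1 : ℕ) : ℝ))) ≤
      EE p (Ed b) (fun S => ((reach S {a} b).card : ℝ)) +
        p * EE p (Ed b) (fun S => ((reach S {a} b).card : ℝ)) := by
    rw [← EE_const_mul, ← EE_add]
    refine EE_mono hp0 hp1 fun S _ => ?_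
    have e3 := one_sub_pow_le hp1 (reach S {a} b).card
    push_cast
    nlinarith
  have h4 : EE p (Ed b) (fun S => ((reach S {a} b).card : ℝ)) ≤ Real.exp (p * n) := by
    have := upper_moment hp0 hp1 hab 1
    simp only [Nat.cast_one, mul_one, Nat.factorial_one] at this
    have e1 : EE p (Ed b) (fun S => ((reach S {a} b).card : ℝ)) ≤ (1 + p) ^ b := by
      refine le_trans (le_of_eq ?_) this
      refine EE_congr fun S _ => ?_
      simp [Nat.ascFactorial_succ]
    refine e1.trans ?_
    calc (1 + p) ^ b ≤ (Real.exp p) ^ b := by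
          apply pow_le_pow_left₀ (by positivity)
          have := Real.add_one_le_exp p; linarith
      _ = Real.exp (p * b) := by rw [← Real.exp_nat_mul]; ring_nf
      _ ≤ Real.exp (p * n) := by
          apply Real.exp_le_exp.2
          have : (b : ℝ) ≤ n := by exact_mod_cast hbn.le
          exact mul_le_mul_of_nonneg_left this hp0
  have h5 := mul_le_mul_of_nonneg_left h4 hp0
  linarith

lemma ascFactorial_ratio {s T : ℕ} (hT : 1 ≤ T) (hs : T ≤ s) (θ : ℕ) :
    (s.ascFactorial θ : ℝ) / (T.ascFactorial θ : ℝ) ≤ ((s : ℝ) / T) ^ θ := by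
  have hT' : (0 : ℝ) < T := by exact_mod_cast hT
  have hs' : (T : ℝ) ≤ s := by exact_mod_cast hs
  induction θ with
  | zero => simp
  | succ θ ih =>
    rw [Nat.ascFactorial_succ, Nat.ascFactorial_succ, pow_succ']
    push_cast
    have e1 : ((s : ℝ) + θ) * (s.ascFactorial θ : ℝ) / ((T + θ) * (T.ascFactorial θ : ℝ)) =
        ((s + θ) / (T + θ)) * ((s.ascFactorial θ : ℝ) / (T.ascFactorial θ : ℝ)) := by
      rw [mul_div_mul_comm]
    rw [e1]
    apply mul_le_mul _ ih (by positivity) (by positivity)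
    rw [div_le_div_iff₀ (by positivity) hT']
    have : (0:ℝ) ≤ θ := by positivity
    nlinarith

/-- Lower tail for the growth of `reach`. -/
lemma lower_tail {p : ℝ} (hp0 : 0 ≤ p) (hp1 : p ≤ 1) {v₀ : ℕ} {A : Finset ℕ}
    (hA : A ⊆ range v₀) (Q : Finset (ℕ × ℕ) → Prop) {T s : ℕ} (hT : 1 ≤ T) (hTs : T ≤ s)
    (hQ : ∀ S, S ⊆ Ed v₀ → Q S → T ≤ (reach S A v₀).card) (θ : ℕ) (t : ℕ) :
    PP p (Ed (v₀ + t)) (fun S => Q (S ∩ Ed v₀) ∧ (reach S A (v₀ + t)).card < s) ≤
      ((s : ℝ) / T) ^ θ * Real.exp (-(p / (1 + p * s) * θ * (T / (T + θ)) * t)) := by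
  classical
  have hT' : (0 : ℝ) < T := by exact_mod_cast hT
  have hs' : (T : ℝ) ≤ s := by exact_mod_cast hTs
  have hs1 : 1 ≤ s := hT.trans hTs
  have hps : 0 ≤ p * s := by positivity
  set κ : ℝ := p / (1 + p * s) * θ * (T / (T + θ)) with hκ
  have hκ0 : 0 ≤ κ := by positivity
  set φ : ℕ → ℝ := fun x => if x < s then ((x.ascFactorial θ : ℝ))⁻¹ else 0 with hφ
  have hφ0 : ∀ x, 0 ≤ φ x := by
    intro x
    simp only [hφ]
    split_ifs
    · positivity
    · exact le_rfl
  set ρ : ℝ := Real.exp (-κ) with hρ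
  have hρ1 : 1 - κ ≤ ρ := by
    have := Real.add_one_le_exp (-κ); linarith
  set g : Finset (ℕ × ℕ) → ℝ := fun S => if Q S then 1 else 0 with hg
  have hg0 : ∀ S, 0 ≤ g S := by
    intro S; simp only [hg]; split_ifs <;> norm_num
  have key := chain_bound hp0 hp1 hA g hg0 T
    (by
      intro S hS h0
      apply hQ S hS
      by_contra hQS
      exact h0 (by simp [hg, hQS])) φ ρ (Real.exp_pos _).le
    (by
      intro x hx
      have hx1 : 1 ≤ x := hT.trans hx
      have hx' : (0 : ℝ) < x := by exact_mod_cast hx1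
      have hTx : (T : ℝ) ≤ x := by exact_mod_cast hx
      by_cases hxs : x < s
      · have hφx : φ x = ((x.ascFactorial θ : ℝ))⁻¹ := by simp [hφ, hxs]
        have hap := ascFactorial_pos' (q := θ) hx1
        have hap1 := ascFactorial_pos' (x := x + 1) (q := θ) (by omega)
        have hφx1 : φ (x + 1) ≤ φ x * (x / (x + θ)) := by
          rw [hφx]
          have e1 : (((x + 1).ascFactorial θ : ℝ))⁻¹ = ((x.ascFactorial θ : ℝ))⁻¹ * (x / (x + θ)) := by
            have e2 := ascFactorial_succ_left' x θ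
            have hxθ : (0:ℝ) < x + θ := by positivity
            rw [inv_eq_one_div, inv_eq_one_div, div_mul_div_comm, div_eq_div_iff hap1.ne'
              (by positivity)]
            linarith
          rw [← e1]
          simp only [hφ]
          split_ifs
          · exact le_rfl
          · positivity
        set r : ℝ := 1 - (1 - p) ^ x with hr
        have hr0 : 0 ≤ r := by
          have : (1 - p) ^ x ≤ 1 := pow_le_one₀ (by linarith) (by linarith)
          linarith
        have hr1 : p / (1 + p * s) * x ≤ r := by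
          refine le_trans ?_ (le_one_sub_pow hp0 hp1 x)
          rw [div_mul_eq_mul_div]
          apply div_le_div_of_nonneg_left (by positivity) (by positivity)
          have : (x : ℝ) ≤ s := by exact_mod_cast hxs.le
          nlinarith
        have e3 : (1 - p) ^ x = 1 - r := by rw [hr]; ring
        rw [e3]
        have e4 : (1 - r) * φ x + r * φ (x + 1) ≤ φ x * (1 - r * (θ / (x + θ))) := by
          have : r * φ (x + 1) ≤ r * (φ x * (x / (x + θ))) := mul_le_mul_of_nonneg_left hφx1 hr0
          have hxθ : (x : ℝ) + θ ≠ 0 := by positivity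
          have e5 : φ x * (1 - r * (θ / (x + θ))) = (1 - r) * φ x + r * (φ x * (x / (x + θ))) := by
            field_simp
            ring
          rw [e5]
          linarith
        refine e4.trans ?_
        have e6 : κ ≤ r * (θ / (x + θ)) := by
          rw [hκ]
          have e7 : (T : ℝ) / (T + θ) ≤ x / (x + θ) := by
            rw [div_le_div_iff₀ (by positivity) (by positivity)]
            have : (0:ℝ) ≤ θ := by positivity
            nlinarith
          calc p / (1 + p * s) * θ * (T / (T + θ)) ≤ p / (1 + p * s) * θ * (x / (x + θ)) :=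
                mul_le_mul_of_nonneg_left e7 (by positivity)
            _ = (p / (1 + p * s) * x) * (θ / (x + θ)) := by ring
            _ ≤ r * (θ / (x + θ)) := mul_le_mul_of_nonneg_right hr1 (by positivity)
        calc φ x * (1 - r * (θ / (x + θ))) ≤ φ x * ρ :=
              mul_le_mul_of_nonneg_left (by linarith) (hφ0 x)
          _ = ρ * φ x := by ring
      · have h1 : φ x = 0 := by simp [hφ, hxs]
        have h2 : φ (x + 1) = 0 := by
          have : ¬ (x + 1 < s) := by omega
          simp [hφ, this]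
        rw [h1, h2]
        simp) t
  -- compare
  have hsp := ascFactorial_pos' (q := θ) hs1
  have hTp := ascFactorial_pos' (q := θ) hT
  have h1 : PP p (Ed (v₀ + t)) (fun S => Q (S ∩ Ed v₀) ∧ (reach S A (v₀ + t)).card < s) ≤
      (s.ascFactorial θ : ℝ) *
        EE p (Ed (v₀ + t)) (fun S => g (S ∩ Ed v₀) * φ (reach S A (v₀ + t)).card) := by
    rw [← EE_const_mul]
    refine EE_mono hp0 hp1 fun S _ => ?_
    by_cases hc : Q (S ∩ Ed v₀) ∧ (reach S A (v₀ + t)).card < s
    · simp only [hc, if_true, and_self]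
      have hg1 : g (S ∩ Ed v₀) = 1 := by simp [hg, hc.1]
      have hφ1 : φ (reach S A (v₀ + t)).card = (((reach S A (v₀ + t)).card.ascFactorial θ : ℝ))⁻¹ := by
        simp [hφ, hc.2]
      rw [hg1, hφ1, one_mul]
      have hcard : T ≤ (reach S A (v₀ + t)).card := by
        have h2 := hQ _ Finset.inter_subset_right hc.1
        rw [reach_inter_Ed S A le_rfl] at h2
        exact h2.trans (Finset.card_le_card (reach_mono_right S A (Nat.le_add_right _ _)))
      have hpos := ascFactorial_pos' (q := θ) (hT.trans hcard)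
      rw [← div_eq_mul_inv, le_div_iff₀ hpos, one_mul]
      exact_mod_cast Nat.ascFactorial_le _ hc.2.le
    · simp only [hc, if_false]
      exact mul_nonneg hsp.le (mul_nonneg (hg0 _) (hφ0 _))
  have h2 : EE p (Ed v₀) (fun S => g S * φ (reach S A v₀).card) ≤ ((T.ascFactorial θ : ℝ))⁻¹ := by
    rw [← EE_const p (Ed v₀) (((T.ascFactorial θ : ℝ))⁻¹)]
    refine EE_mono hp0 hp1 fun S hS => ?_
    by_cases hQS : Q S
    · have hc := hQ S hS hQS
      have hg1 : g S = 1 := by simp [hg, hQS]
      rw [hg1, one_mul]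
      simp only [hφ]
      split_ifs
      · apply inv_anti₀ hTp
        exact_mod_cast Nat.ascFactorial_le _ hc
      · positivity
    · have hg1 : g S = 0 := by simp [hg, hQS]
      rw [hg1, zero_mul]
      positivity
  have hρt : ρ ^ t = Real.exp (-(κ * t)) := by
    rw [hρ, ← Real.exp_nat_mul]
    congr 1
    ring
  calc PP p (Ed (v₀ + t)) (fun S => Q (S ∩ Ed v₀) ∧ (reach S A (v₀ + t)).card < s)
      ≤ (s.ascFactorial θ : ℝ) *
        EE p (Ed (v₀ + t)) (fun S => g (S ∩ Ed v₀) * φ (reach S A (v₀ + t)).card) := h1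
    _ ≤ (s.ascFactorial θ : ℝ) * (ρ ^ t * EE p (Ed v₀) (fun S => g S * φ (reach S A v₀).card)) :=
        mul_le_mul_of_nonneg_left key hsp.le
    _ ≤ (s.ascFactorial θ : ℝ) * (ρ ^ t * ((T.ascFactorial θ : ℝ))⁻¹) := by
        apply mul_le_mul_of_nonneg_left _ hsp.le
        exact mul_le_mul_of_nonneg_left h2 (by positivity)
    _ = ((s.ascFactorial θ : ℝ) / (T.ascFactorial θ : ℝ)) * ρ ^ t := by ring
    _ ≤ ((s : ℝ) / T) ^ θ * ρ ^ t :=
        mul_le_mul_of_nonneg_right (ascFactorial_ratio hT hTs θ) (by positivity)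
    _ = ((s : ℝ) / T) ^ θ * Real.exp (-(κ * t)) := by rw [hρt]

end Pool.Agent.MP_ef8d06_pr
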