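import Mathlib
import Pool.Agent.MP_ef8d06_pr.Tails

set_option autoImplicit false
set_option linter.unusedSectionVars false
set_option linter.unusedSimpArgs false
set_option linter.unusedVariables false

namespace Pool.Agent.MP_ef8d06_pr

open Finset

lemma choose_le_exp {a b : ℕ} (hb : 1 ≤ b) : (a.choose b : ℝ) ≤ (Real.exp 1 * a / b) ^ b := by
  have hb' : (0 : ℝ) < b := by exact_mod_cast hb
  have h1 : (a.choose b : ℝ) ≤ (a : ℝ) ^ b / (b.factorial : ℝ) := Nat.choose_le_pow_div b a
  have h2 : (b : ℝ) ^ b / (b.factorial : ℝ) ≤ Real.exp b := Real.pow_div_factorial_le_exp b hb'.le b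
  have hf : (0 : ℝ) < (b.factorial : ℝ) := by exact_mod_cast Nat.factorial_pos b
  refine h1.trans ?_
  rw [div_pow, mul_pow, div_le_div_iff₀ hf (by positivity)]
  rw [div_le_iff₀ hf] at h2
  have h3 : Real.exp 1 ^ b = Real.exp b := by
    rw [← Real.exp_nat_mul]; ring_nf
  rw [h3]
  have h4 : (0:ℝ) ≤ (a : ℝ) ^ b := by positivity
  nlinarith

/-- upward neighbours of `a` inside `I` -/
def nbr (S : Finset (ℕ × ℕ)) (a : ℕ) (I : Finset ℕ) : Finset ℕ := I.filter (fun v => (a, v) ∈ S)

/-- vertices of the initial block with many neighbours in the second block -/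
def goodSet (S : Finset (ℕ × ℕ)) (m d : ℕ) : Finset ℕ :=
  (range m).filter (fun a => d ≤ (nbr S a (Ico m (2 * m))).card)

lemma card_inter_product (S : Finset (ℕ × ℕ)) (X Y : Finset ℕ) :
    (S ∩ (X ×ˢ Y)).card = ∑ a ∈ X, (nbr S a Y).card := by
  have h : S ∩ (X ×ˢ Y) = (X ×ˢ Y).filter (fun e => e ∈ S) := by
    ext e; simp only [mem_inter, mem_filter]; tauto
  rw [h, Finset.card_filter, Finset.sum_product]
  refine Finset.sum_congr rfl fun a _ => ?_
  rw [nbr, Finset.card_filter]

lemma prod_subset_Ed {m h : ℕ} (hm : 2 * m ≤ h) {X Y : Finset ℕ} (hX : X ⊆ range m)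
    (hY : Y ⊆ Ico m (2 * m)) : X ×ˢ Y ⊆ Ed h := by
  intro e he
  obtain ⟨h1, h2⟩ := Finset.mem_product.1 he
  have h3 := hX h1
  have h4 := hY h2
  rw [mem_range] at h3
  rw [mem_Ico] at h4
  rw [mem_Ed]
  omega

/-- Few vertices of the first block have small degree. -/
lemma bad_degree {p : ℝ} (hp0 : 0 ≤ p) (hp1 : p ≤ 1) {m h d : ℕ} (hm : 2 * m ≤ h)
    (hd : (d : ℝ) ≤ p * m / 4) (hpm : 16 ≤ p * m) :
    PP p (Ed h) (fun S => 2 * (goodSet S m d).card < m) ≤ Real.exp (-m) := by
  set x := (m + 1) / 2 with hx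
  have hx2 : (m : ℝ) / 2 ≤ x := by
    have : m ≤ 2 * x := by omega
    have : (m : ℝ) ≤ 2 * x := by exact_mod_cast this
    linarith
  have h1 : PP p (Ed h) (fun S => 2 * (goodSet S m d).card < m) ≤
      PP p (Ed h) (fun S => ∃ X ∈ (range m).powerset.filter (fun X => X.card = x),
        (S ∩ (X ×ˢ Ico m (2 * m))).card ≤ d * x) := by
    refine PP_mono hp0 hp1 fun S _ hS => ?_
    have h2 : x ≤ ((range m).filter (fun a => ¬ d ≤ (nbr S a (Ico m (2 * m))).card)).card := by
      have := Finset.card_filter_add_card_filter_not (s := range m)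
        (fun a => d ≤ (nbr S a (Ico m (2 * m))).card)
      rw [card_range] at this
      unfold goodSet at hS
      omega
    obtain ⟨X, hX, hXc⟩ := Finset.exists_subset_card_eq h2
    refine ⟨X, ?_, ?_⟩
    · simp only [mem_filter, mem_powerset]
      exact ⟨hX.trans (Finset.filter_subset _ _), hXc⟩
    · rw [card_inter_product, ← hXc]
      have : ∀ a ∈ X, (nbr S a (Ico m (2 * m))).card ≤ d := by
        intro a ha
        have := (mem_filter.1 (hX ha)).2
        omega
      exact (Finset.sum_le_sum this).trans (by rw [Finset.sum_const, smul_eq_mul, mul_comm])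
  refine h1.trans ((PP_exists_le hp0 hp1 _ _ _).trans ?_)
  have h3 : ∀ X ∈ (range m).powerset.filter (fun X => X.card = x),
      PP p (Ed h) (fun S => (S ∩ (X ×ˢ Ico m (2 * m))).card ≤ d * x) ≤
        Real.exp (-(p * m * m / 8)) := by
    intro X hX
    simp only [mem_filter, mem_powerset] at hX
    refine (PP_card_le hp0 hp1 (prod_subset_Ed hm hX.1 (Finset.Subset.refl _)) _).trans ?_
    apply Real.exp_le_exp.2
    rw [Finset.card_product, hX.2, Nat.card_Ico]
    have e1 : 2 * m - m = m := by omega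
    rw [e1]
    push_cast
    have hx0 : (0 : ℝ) ≤ x := by positivity
    have hpm0 : 0 ≤ p * m := by linarith
    have : (d : ℝ) * x ≤ (p * m / 4) * x := mul_le_mul_of_nonneg_right hd hx0
    nlinarith
  refine (Finset.sum_le_sum h3).trans ?_
  rw [Finset.sum_const, nsmul_eq_mul]
  have h4 : (((range m).powerset.filter (fun X => X.card = x)).card : ℝ) ≤ Real.exp m := by
    have h5 : ((range m).powerset.filter (fun X => X.card = x)).card ≤ 2 ^ m := by
      refine (Finset.card_le_card (Finset.filter_subset _ _)).trans ?_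
      rw [Finset.card_powerset, card_range]
    have h6 : (2 : ℝ) ^ m ≤ Real.exp m := by
      have : (2 : ℝ) ≤ Real.exp 1 := by
        have := Real.add_one_le_exp (1 : ℝ); linarith
      calc (2 : ℝ) ^ m ≤ (Real.exp 1) ^ m := pow_le_pow_left₀ (by norm_num) this m
        _ = Real.exp m := by rw [← Real.exp_nat_mul]; ring_nf
    calc (((range m).powerset.filter (fun X => X.card = x)).card : ℝ) ≤ ((2 ^ m : ℕ) : ℝ) := by
          exact_mod_cast h5
      _ = (2 : ℝ) ^ m := by push_cast; rfl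
      _ ≤ _ := h6
  calc (((range m).powerset.filter (fun X => X.card = x)).card : ℝ) * Real.exp (-(p * m * m / 8))
      ≤ Real.exp m * Real.exp (-(p * m * m / 8)) :=
        mul_le_mul_of_nonneg_right h4 (Real.exp_pos _).le
    _ = Real.exp (m - p * m * m / 8) := by rw [← Real.exp_add]; ring_nf
    _ ≤ Real.exp (-m) := by
        apply Real.exp_le_exp.2
        have : (0 : ℝ) ≤ m := by positivity
        nlinarith

/-- No small set of the first block sends many edges into a small set of the second block. -/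
lemma bad_sparse {p : ℝ} (hp0 : 0 ≤ p) (hp1 : p ≤ 1) {m h k K : ℕ} (hm : 2 * m ≤ h)
    (hk : 1 ≤ k) (hK : 1 ≤ K) {w : ℝ} (hw : (m : ℝ) ≤ w * k) 
    (hsmall : Real.exp 1 * w * (Real.exp 1 * (k * p)) ^ 2 ≤ Real.exp (-1)) :
    PP p (Ed h) (fun S => ∃ X ∈ (range m).powersetCard k, ∃ Y ∈ (Ico m (2 * m)).powersetCard (K * k),
      (2 * K + 2) * k ≤ (S ∩ (X ×ˢ Y)).card) ≤ Real.exp (-k) := by
  have hk' : (0 : ℝ) < k := by exact_mod_cast hk
  have hK' : (1 : ℝ) ≤ K := by exact_mod_cast hK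
  set d := 2 * K + 2 with hd
  have hdk : 1 ≤ d * k := Nat.mul_pos (by omega) hk
  have h1 : ∀ X ∈ (range m).powersetCard k,
      PP p (Ed h) (fun S => ∃ Y ∈ (Ico m (2 * m)).powersetCard (K * k),
        d * k ≤ (S ∩ (X ×ˢ Y)).card) ≤
      (m.choose (K * k) : ℝ) * (((k * (K * k)).choose (d * k) : ℝ) * p ^ (d * k)) := by
    intro X hX
    rw [mem_powersetCard] at hX
    refine (PP_exists_le hp0 hp1 _ _ _).trans ?_
    have h2 : ∀ Y ∈ (Ico m (2 * m)).powersetCard (K * k),
        PP p (Ed h) (fun S => d * k ≤ (S ∩ (X ×ˢ Y)).card) ≤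
          ((k * (K * k)).choose (d * k) : ℝ) * p ^ (d * k) := by
      intro Y hY
      rw [mem_powersetCard] at hY
      refine (PP_le_card hp0 hp1 (prod_subset_Ed hm hX.1 hY.1) _).trans ?_
      rw [Finset.card_product, hX.2, hY.2]
    refine (Finset.sum_le_sum h2).trans ?_
    rw [Finset.sum_const, nsmul_eq_mul, card_powersetCard, Nat.card_Ico]
    have e1 : 2 * m - m = m := by omega
    rw [e1]
  refine (PP_exists_le hp0 hp1 _ _ _).trans ((Finset.sum_le_sum h1).trans ?_)
  rw [Finset.sum_const, nsmul_eq_mul, card_powersetCard, card_range]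
  have hmw : Real.exp 1 * m / k ≤ Real.exp 1 * w := by
    rw [div_le_iff₀ hk']
    have := mul_le_mul_of_nonneg_left hw (Real.exp_pos 1).le
    linarith
  have hw0 : 0 ≤ w := by
    by_contra hneg
    push Not at hneg
    have : w * k < 0 := mul_neg_of_neg_of_pos hneg hk'
    have h0 : (0:ℝ) ≤ m := by positivity
    linarith
  set x := Real.exp 1 * w with hx
  have hx0 : 0 ≤ x := by positivity
  have c1 : (m.choose k : ℝ) ≤ x ^ k := (choose_le_exp hk).trans
    (pow_le_pow_left₀ (by positivity) hmw k)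
  have c2 : (m.choose (K * k) : ℝ) ≤ x ^ (K * k) := by
    refine (choose_le_exp (Nat.mul_pos hK hk)).trans (pow_le_pow_left₀ (by positivity) ?_ _)
    refine le_trans ?_ hmw
    push_cast
    apply div_le_div_of_nonneg_left (by positivity) hk'
    nlinarith
  set y := Real.exp 1 * (k * p) with hy
  have hy0 : 0 ≤ y := by positivity
  have c3 : ((k * (K * k)).choose (d * k) : ℝ) * p ^ (d * k) ≤ y ^ (d * k) := by
    have h3 := choose_le_exp (a := k * (K * k)) hdk
    calc ((k * (K * k)).choose (d * k) : ℝ) * p ^ (d * k)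
        ≤ (Real.exp 1 * ((k * (K * k) : ℕ) : ℝ) / ((d * k : ℕ) : ℝ)) ^ (d * k) * p ^ (d * k) :=
          mul_le_mul_of_nonneg_right h3 (by positivity)
      _ = (Real.exp 1 * ((k * (K * k) : ℕ) : ℝ) / ((d * k : ℕ) : ℝ) * p) ^ (d * k) := by
          rw [mul_pow]
      _ ≤ y ^ (d * k) := by
          apply pow_le_pow_left₀ (by positivity)
          rw [hy, hd]
          push_cast
          have e2 : Real.exp 1 * ((k : ℝ) * (K * k)) / ((2 * K + 2) * k) * p =
              (Real.exp 1 * (k * p)) * (K / (2 * K + 2)) := by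
            field_simp
          rw [e2]
          have e3 : (K : ℝ) / (2 * K + 2) ≤ 1 := by
            rw [div_le_one (by positivity)]; linarith
          calc Real.exp 1 * (k * p) * (K / (2 * K + 2)) ≤ Real.exp 1 * (k * p) * 1 :=
                mul_le_mul_of_nonneg_left e3 (by positivity)
            _ = _ := mul_one _
  calc (m.choose k : ℝ) * ((m.choose (K * k) : ℝ) *
        (((k * (K * k)).choose (d * k) : ℝ) * p ^ (d * k)))
      ≤ x ^ k * (x ^ (K * k) * y ^ (d * k)) := by
        apply mul_le_mul c1 _ (by positivity) (by positivity)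
        exact mul_le_mul c2 c3 (by positivity) (by positivity)
    _ = (x * y ^ 2) ^ ((K + 1) * k) := by
        have e1 : (x * y ^ 2) ^ ((K + 1) * k) = x ^ ((K + 1) * k) * y ^ (2 * ((K + 1) * k)) := by
          rw [mul_pow, ← pow_mul]
        have e2 : (K + 1) * k = k + K * k := by ring
        have e3 : d * k = 2 * ((K + 1) * k) := by rw [hd]; ring
        rw [e1, e3, ← mul_assoc, ← pow_add, ← e2]
    _ ≤ (Real.exp (-1)) ^ ((K + 1) * k) := by
        apply pow_le_pow_left₀ (by positivity) hsmall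
    _ = Real.exp (-((K + 1) * k)) := by
        rw [← Real.exp_nat_mul]; push_cast; ring_nf
    _ ≤ Real.exp (-k) := by
        apply Real.exp_le_exp.2
        nlinarith

/-- The growth phase. -/
lemma bad_growth {p : ℝ} (hp0 : 0 ≤ p) (hp1 : p ≤ 1) {m h k T s θ : ℕ} (hm : 2 * m ≤ h)
    (hT : 1 ≤ T) (hTs : T ≤ s) :
    PP p (Ed h) (fun S => ∃ A ∈ (range m).powersetCard k,
      T ≤ (reach S A (2 * m)).card ∧ (reach S A h).card < s) ≤
      (m.choose k : ℝ) * (((s : ℝ) / T) ^ θ *
        Real.exp (-(p / (1 + p * s) * θ * (T / (T + θ)) * ((h - 2 * m : ℕ) : ℝ)))) := by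
  obtain ⟨t, rfl⟩ : ∃ t, h = 2 * m + t := ⟨h - 2 * m, by omega⟩
  have ht : 2 * m + t - 2 * m = t := by omega
  rw [ht]
  refine (PP_exists_le hp0 hp1 _ _ _).trans ?_
  have h1 : ∀ A ∈ (range m).powersetCard k,
      PP p (Ed (2 * m + t)) (fun S => T ≤ (reach S A (2 * m)).card ∧
        (reach S A (2 * m + t)).card < s) ≤
      (((s : ℝ) / T) ^ θ * Real.exp (-(p / (1 + p * s) * θ * (T / (T + θ)) * (t : ℝ)))) := by
    intro A hA
    rw [mem_powersetCard] at hA
    have hA' : A ⊆ range (2 * m) := hA.1.trans (by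
      intro x hx; simp only [mem_range] at *; omega)
    have h2 := lower_tail hp0 hp1 hA' (fun S => T ≤ (reach S A (2 * m)).card) hT hTs
      (fun S _ h => h) θ t
    refine le_trans (PP_mono hp0 hp1 fun S _ hS => ?_) h2
    refine ⟨?_, hS.2⟩
    rw [reach_inter_Ed S A le_rfl]
    exact hS.1
  refine (Finset.sum_le_sum h1).trans ?_
  rw [Finset.sum_const, nsmul_eq_mul, card_powersetCard, card_range]

/-- The property of a block that is needed later. -/
def BlockGood (S : Finset (ℕ × ℕ)) (m d k s h : ℕ) : Prop :=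
  m ≤ 2 * (goodSet S m d).card ∧
    ∀ A ⊆ goodSet S m d, A.card = k → s ≤ (reach S A h).card

lemma block_bound {p : ℝ} (hp0 : 0 ≤ p) (hp1 : p ≤ 1) {m h k K s θ : ℕ} (hm : 2 * m ≤ h)
    (hk : 1 ≤ k) (hK : 1 ≤ K) (hKm : K * k ≤ m) (hTs : K * k ≤ s) {w : ℝ} (hw : (m : ℝ) ≤ w * k)
    (hsmall : Real.exp 1 * w * (Real.exp 1 * (k * p)) ^ 2 ≤ Real.exp (-1))
    (hd : ((2 * K + 2 : ℕ) : ℝ) ≤ p * m / 4) (hpm : 16 ≤ p * m) :
    PP p (Ed h) (fun S => ¬ BlockGood S m (2 * K + 2) k s h) ≤
      Real.exp (-m) + (Real.exp (-k) + (m.choose k : ℝ) * (((s : ℝ) / (K * k : ℕ)) ^ θ *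
        Real.exp (-(p / (1 + p * s) * θ * ((K * k : ℕ) / ((K * k : ℕ) + θ)) *
          ((h - 2 * m : ℕ) : ℝ))))) := by
  have h1 := bad_degree hp0 hp1 hm hd hpm
  have h2 := bad_sparse hp0 hp1 hm hk hK hw hsmall
  have h3 := bad_growth (k := k) (θ := θ) hp0 hp1 hm (Nat.mul_pos hK hk) hTs
  refine le_trans ?_ (add_le_add h1 (add_le_add h2 h3))
  refine le_trans ?_ (add_le_add le_rfl (PP_or_le hp0 hp1 _ _ _))
  refine le_trans ?_ (PP_or_le hp0 hp1 _ _ _)
  refine PP_mono hp0 hp1 fun S _ hS => ?_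
  by_contra hcon
  push Not at hcon
  obtain ⟨g1, g2, g3⟩ := hcon
  apply hS
  refine ⟨g1, fun A hA hAc => ?_⟩
  have hAr : A ⊆ range m := hA.trans (Finset.filter_subset _ _)
  have hAm : A ∈ (range m).powersetCard k := mem_powersetCard.2 ⟨hAr, hAc⟩
  apply g3 A hAm
  by_contra hlt
  push Not at hlt
  -- the neighbourhood of A
  set N := (Ico m (2 * m)).filter (fun v => ∃ a ∈ A, (a, v) ∈ S) with hN
  have hNsub : N ⊆ reach S A (2 * m) := by
    intro v hv
    obtain ⟨hv1, a, ha, hav⟩ := mem_filter.1 hv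
    rw [mem_Ico] at hv1
    have ham : a < m := by simpa using hAr ha
    have : a ∈ reach S A (2 * m) := mem_reach_of_mem (by omega) ha
    exact mem_reach_step this (by omega) (by omega) hav
  have hNc : N.card ≤ K * k := (Finset.card_le_card hNsub).trans hlt.le
  obtain ⟨Y, hNY, hYI, hYc⟩ := Finset.exists_subsuperset_card_eq
    (Finset.filter_subset _ _ : N ⊆ Ico m (2 * m)) hNc (by
      rw [Nat.card_Ico]; omega)
  have h5 := g2 A hAm Y (mem_powersetCard.2 ⟨hYI, hYc⟩)
  apply absurd h5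
  push Not
  rw [card_inter_product]
  have h6 : ∀ a ∈ A, 2 * K + 2 ≤ (nbr S a Y).card := by
    intro a ha
    have h7 := (mem_filter.1 (hA ha)).2
    refine h7.trans (Finset.card_le_card ?_)
    intro v hv
    obtain ⟨hv1, hv2⟩ := mem_filter.1 hv
    exact mem_filter.2 ⟨hNY (mem_filter.2 ⟨hv1, a, ha, hv2⟩), hv2⟩
  calc (2 * K + 2) * k = ∑ a ∈ A, (2 * K + 2) := by
        rw [Finset.sum_const, smul_eq_mul, hAc, mul_comm]
    _ ≤ _ := Finset.sum_le_sum h6

end Pool.Agent.MP_ef8d06_pr
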