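import Mathlib

set_option autoImplicit false

/-!
# Order dimension and the order of a graph on `{0, ..., n-1}`
-/

namespace Pool.Agent.MP_ef8d06_pr

/-- The `t` relations `L 0, ..., L (t-1)` are linear orders on `V` (as non-strict relations) whose
intersection is the relation `P`. -/
def IsRealiser {V : Type*} (P : V → V → Prop) (t : ℕ) (L : Fin t → V → V → Prop) : Prop :=
  (∀ i, IsLinearOrder V (L i)) ∧ ∀ x y, P x y ↔ ∀ i, L i x y

/-- The order dimension of `P` : the least size of a realiser. -/
noncomputable def orderDim {V : Type*} (P : V → V → Prop) : ℕ :=
  sInf {t | ∃ L : Fin t → V → V → Prop, IsRealiser P t L}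

/-- The (non-strict) graph order: `i` is below `j` if and only if the graph contains a path from `i`
to `j` along which the vertices increase (for `i = j` the path of length zero). -/
def graphOrder (n : ℕ) (G : SimpleGraph (Fin n)) : Fin n → Fin n → Prop :=
  Relation.ReflTransGen (fun i j => i < j ∧ G.Adj i j)

end Pool.Agent.MP_ef8d06_pr
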