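import Mathlib
import Pool.Agent.MP_ef8d06_pr.Basic
import Pool.Agent.MP_ef8d06_pr.Defs

set_option autoImplicit false
set_option linter.unusedSectionVars false
set_option linter.unusedSimpArgs false
set_option linter.unusedVariables false
set_option linter.style.haveILetI false

namespace Pool.Agent.MP_ef8d06_pr

open Finset

lemma exists_least {V : Type*} (L : V → V → Prop) [IsLinearOrder V L] (A : Finset V)
    (hA : A.Nonempty) : ∃ m ∈ A, ∀ a ∈ A, L m a := by
  classical
  induction hA using Finset.Nonempty.cons_induction with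
  | singleton a =>
    refine ⟨a, by simp, fun b hb => ?_⟩
    rw [Finset.mem_singleton] at hb
    subst hb
    exact refl_of L b
  | cons a s has hs ih =>
    obtain ⟨m, hm, hm'⟩ := ih
    rcases total_of L a m with h | h
    · refine ⟨a, by simp, fun b hb => ?_⟩
      rcases Finset.mem_cons.1 hb with rfl | hb
      · exact refl_of L b
      · exact trans_of L h (hm' b hb)
    · refine ⟨m, by simp [hm], fun b hb => ?_⟩
      rcases Finset.mem_cons.1 hb with rfl | hb
      · exact h
      · exact hm' b hb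

open Classical in
/-- A linear order reverses few pairs if every large rectangle contains a forward pair. -/
lemma hole_count {V : Type*} (L : V → V → Prop) [IsLinearOrder V L] (A B : Finset V) (k : ℕ)
    (h : ∀ A' ⊆ A, ∀ B' ⊆ B, A'.card = k → B'.card = k → ∃ a ∈ A', ∃ b ∈ B', L a b) :
    ((A ×ˢ B).filter (fun x => ¬ L x.1 x.2)).card ≤ k * (A.card + B.card) := by
  have hk : 0 < k := by
    rcases Nat.eq_zero_or_pos k with rfl | hk
    · obtain ⟨a, ha, _⟩ := h ∅ (by simp) ∅ (by simp) rfl rfl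
      simp at ha
    · exact hk
  set β : V → Finset V := fun a => B.filter (fun b => ¬ L a b) with hβ
  set Abig := A.filter (fun a => k ≤ (β a).card) with hAbig
  have hbig : Abig.card ≤ k := by
    by_contra hcon
    push Not at hcon
    obtain ⟨A', hA', hA'c⟩ := Finset.exists_subset_card_eq hcon.le
    have hne : A'.Nonempty := by
      rw [← Finset.card_pos]; omega
    obtain ⟨m, hm, hm'⟩ := exists_least L A' hne
    have hmb : k ≤ (β m).card := (Finset.mem_filter.1 (hA' hm)).2
    obtain ⟨B', hB', hB'c⟩ := Finset.exists_subset_card_eq hmb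
    obtain ⟨a, ha, b, hb, hab⟩ := h A' (hA'.trans (Finset.filter_subset _ _)) B'
      (hB'.trans (Finset.filter_subset _ _)) hA'c hB'c
    have h1 : ¬ L m b := (Finset.mem_filter.1 (hB' hb)).2
    exact h1 (trans_of L (hm' a ha) hab)
  have hsum : ((A ×ˢ B).filter (fun x => ¬ L x.1 x.2)).card = ∑ a ∈ A, (β a).card := by
    rw [Finset.card_filter, Finset.sum_product]
    refine Finset.sum_congr rfl fun a _ => ?_
    rw [hβ, Finset.card_filter]
  rw [hsum]
  have h2 : ∀ a ∈ A, (β a).card ≤ (if k ≤ (β a).card then B.card else 0) + k := by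
    intro a _
    split_ifs with hc
    · have : (β a).card ≤ B.card := Finset.card_le_card (Finset.filter_subset _ _)
      omega
    · omega
  refine (Finset.sum_le_sum h2).trans ?_
  rw [Finset.sum_add_distrib, ← Finset.sum_filter, Finset.sum_const, Finset.sum_const,
    smul_eq_mul, smul_eq_mul]
  have : #{a ∈ A | k ≤ #(β a)} * #B ≤ k * #B := Nat.mul_le_mul_right _ hbig
  nlinarith

open Classical in
/-- Lower bound for the size of a realiser. -/
lemma realiser_lower {V : Type*} (P : V → V → Prop) {t : ℕ} {L : Fin t → V → V → Prop}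
    (hL : IsRealiser P t L) (A B : Finset V) (k : ℕ)
    (h : ∀ A' ⊆ A, ∀ B' ⊆ B, A'.card = k → B'.card = k → ∃ a ∈ A', ∃ b ∈ B', P a b) :
    ((A ×ˢ B).filter (fun x => ¬ P x.1 x.2)).card ≤ t * (k * (A.card + B.card)) := by
  have h1 : (A ×ˢ B).filter (fun x => ¬ P x.1 x.2) ⊆
      (Finset.univ : Finset (Fin t)).biUnion
        (fun i => (A ×ˢ B).filter (fun x => ¬ L i x.1 x.2)) := by
    intro x hx
    obtain ⟨hx1, hx2⟩ := Finset.mem_filter.1 hx
    rw [hL.2] at hx2
    push Not at hx2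
    obtain ⟨i, hi⟩ := hx2
    exact Finset.mem_biUnion.2 ⟨i, Finset.mem_univ i, Finset.mem_filter.2 ⟨hx1, hi⟩⟩
  refine (Finset.card_le_card h1).trans (Finset.card_biUnion_le.trans ?_)
  have h2 : ∀ i ∈ (Finset.univ : Finset (Fin t)),
      ((A ×ˢ B).filter (fun x => ¬ L i x.1 x.2)).card ≤ k * (A.card + B.card) := by
    intro i _
    haveI := hL.1 i
    refine hole_count (L i) A B k fun A' hA' B' hB' hc hc' => ?_
    obtain ⟨a, ha, b, hb, hab⟩ := h A' hA' B' hB' hc hc'
    exact ⟨a, ha, b, hb, (hL.2 a b).1 hab i⟩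
  refine (Finset.sum_le_sum h2).trans ?_
  simp

/-- The linear extension which puts the down-set `D` first. -/
def extOf {V : Type*} [LinearOrder V] (D : Set V) (x y : V) : Prop :=
  (x ∈ D ∧ y ∉ D) ∨ ((x ∈ D ↔ y ∈ D) ∧ x ≤ y)

lemma extOf_linear {V : Type*} [LinearOrder V] (D : Set V) : IsLinearOrder V (extOf D) where
  refl x := Or.inr ⟨Iff.rfl, le_rfl⟩
  trans x y z hxy hyz := by
    unfold extOf at *
    rcases hxy with ⟨h1, h2⟩ | ⟨h1, h2⟩ <;> rcases hyz with ⟨h3, h4⟩ | ⟨h3, h4⟩
    · exact absurd h3 h2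
    · left; exact ⟨h1, fun h => h2 (h3.2 h)⟩
    · left; exact ⟨h1.2 h3, h4⟩
    · right; exact ⟨h1.trans h3, h2.trans h4⟩
  antisymm x y hxy hyx := by
    unfold extOf at *
    rcases hxy with ⟨h1, h2⟩ | ⟨h1, h2⟩ <;> rcases hyx with ⟨h3, h4⟩ | ⟨h3, h4⟩
    · exact absurd h3 h2
    · exact absurd (h3.2 h1) h2
    · exact absurd (h1.2 h3) h4
    · exact le_antisymm h2 h4
  total x y := by
    unfold extOf
    by_cases hx : x ∈ D <;> by_cases hy : y ∈ D
    · rcases le_total x y with h | h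
      · left; right; exact ⟨by simp [hx, hy], h⟩
      · right; right; exact ⟨by simp [hx, hy], h⟩
    · left; left; exact ⟨hx, hy⟩
    · right; left; exact ⟨hy, hx⟩
    · rcases le_total x y with h | h
      · left; right; exact ⟨by simp [hx, hy], h⟩
      · right; right; exact ⟨by simp [hx, hy], h⟩

lemma le_linear {V : Type*} [LinearOrder V] : IsLinearOrder V (fun x y : V => x ≤ y) where
  refl x := le_rfl
  trans x y z := le_trans
  antisymm x y := le_antisymm
  total x y := le_total x y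

/-- A realiser from a separating family of down-sets. -/
lemma realiser_of_downsets {V : Type*} [LinearOrder V] (P : V → V → Prop)
    (hrefl : ∀ x, P x x) (hle : ∀ x y, P x y → x ≤ y) (t : ℕ) (D : Fin t → Set V)
    (hD : ∀ i x y, P x y → y ∈ D i → x ∈ D i)
    (hsep : ∀ x y, x < y → ¬ P x y → ∃ i, y ∈ D i ∧ x ∉ D i) :
    ∃ L : Fin (t + 1) → V → V → Prop, IsRealiser P (t + 1) L := by
  refine ⟨Fin.cons (fun x y => x ≤ y) (fun i => extOf (D i)), ?_, ?_⟩
  · intro i
    refine Fin.cases ?_ (fun j => ?_) i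
    · exact le_linear
    · exact extOf_linear (D j)
  · intro x y
    constructor
    · intro h i
      refine Fin.cases ?_ (fun j => ?_) i
      · exact hle x y h
      · change extOf (D j) x y
        unfold extOf
        by_cases hx : x ∈ D j <;> by_cases hy : y ∈ D j
        · right; exact ⟨by simp [hx, hy], hle x y h⟩
        · left; exact ⟨hx, hy⟩
        · exact absurd (hD j x y h hy) hx
        · right; exact ⟨by simp [hx, hy], hle x y h⟩
    · intro h
      by_contra hP
      have h0 : x ≤ y := h 0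
      rcases lt_or_eq_of_le h0 with hlt | heq
      · obtain ⟨i, hy, hx⟩ := hsep x y hlt hP
        have h1 : extOf (D i) x y := h i.succ
        unfold extOf at h1
        rcases h1 with ⟨h2, _⟩ | ⟨h2, _⟩
        · exact hx h2
        · exact hx (h2.2 hy)
      · subst heq
        exact hP (hrefl x)

lemma orderDim_le_of_downsets {V : Type*} [LinearOrder V] (P : V → V → Prop)
    (hrefl : ∀ x, P x x) (hle : ∀ x y, P x y → x ≤ y) (t : ℕ) (D : Fin t → Set V)
    (hD : ∀ i x y, P x y → y ∈ D i → x ∈ D i)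
    (hsep : ∀ x y, x < y → ¬ P x y → ∃ i, y ∈ D i ∧ x ∉ D i) :
    orderDim P ≤ t + 1 :=
  Nat.sInf_le (realiser_of_downsets P hrefl hle t D hD hsep)

lemma exists_realiser {V : Type*} [LinearOrder V] [Fintype V] (P : V → V → Prop)
    (hrefl : ∀ x, P x x) (htrans : ∀ x y z, P x y → P y z → P x z)
    (hle : ∀ x y, P x y → x ≤ y) :
    ∃ t, ∃ L : Fin t → V → V → Prop, IsRealiser P t L := by
  refine ⟨Fintype.card V + 1, realiser_of_downsets P hrefl hle (Fintype.card V)
    (fun i => {z | P z ((Fintype.equivFin V).symm i)}) ?_ ?_⟩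
  · intro i x y hxy hy
    exact htrans _ _ _ hxy hy
  · intro x y _ hP
    refine ⟨Fintype.equivFin V y, ?_, ?_⟩
    · simp [hrefl]
    · simp [hP]

/-- If every realiser has size at least `m` then the dimension is at least `m`. -/
lemma le_orderDim {V : Type*} [LinearOrder V] [Fintype V] (P : V → V → Prop)
    (hrefl : ∀ x, P x x) (htrans : ∀ x y z, P x y → P y z → P x z)
    (hle : ∀ x y, P x y → x ≤ y) (m : ℕ)
    (h : ∀ t (L : Fin t → V → V → Prop), IsRealiser P t L → m ≤ t) : m ≤ orderDim P := by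
  have hne : {t | ∃ L : Fin t → V → V → Prop, IsRealiser P t L}.Nonempty :=
    exists_realiser P hrefl htrans hle
  obtain ⟨L, hL⟩ := Nat.sInf_mem hne
  exact h _ L hL

/-! ### Upper bound through random down-sets -/

section Random

variable {V : Type*} [Fintype V] [DecidableEq V]

lemma PP_mem_and_avoid (q : ℝ) (y : V) (U : Finset V) (hy : y ∉ U) :
    PP q (Finset.univ : Finset V) (fun M => y ∈ M ∧ Disjoint M U) = q * (1 - q) ^ U.card := by
  have h1 := PP_avoid q (Finset.subset_univ U)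
  have h2 := PP_avoid q (Finset.subset_univ (insert y U))
  have h3 : PP q (Finset.univ : Finset V) (fun M => Disjoint M U) =
      PP q (Finset.univ : Finset V) (fun M => y ∈ M ∧ Disjoint M U) +
      PP q (Finset.univ : Finset V) (fun M => Disjoint M (insert y U)) := by
    unfold PP
    rw [← EE_add]
    refine EE_congr fun S _ => ?_
    have : Disjoint S (insert y U) ↔ y ∉ S ∧ Disjoint S U := by
      rw [Finset.disjoint_insert_right]
    by_cases hyS : y ∈ S <;> by_cases hd : Disjoint S U <;> simp [this, hyS, hd]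
  rw [h1, h2, Finset.card_insert_of_notMem hy, pow_succ] at h3
  linarith

open Classical in
/-- one greedy step -/
lemma greedy_step (U : V → Finset V) (K : ℕ) (hU : ∀ x, (U x).card ≤ K)
    (Q : Finset (V × V)) (hQ : ∀ e ∈ Q, e.2 ∉ U e.1) {q : ℝ} (hq0 : 0 ≤ q) (hq1 : q ≤ 1) :
    ∃ M : Finset V, (Q.card : ℝ) * (q * (1 - q) ^ K) ≤
      (Q.filter (fun e => e.2 ∈ M ∧ Disjoint M (U e.1))).card := by
  obtain ⟨M, -, hM⟩ := Finset.exists_max_image (Finset.univ : Finset V).powerset
    (fun M : Finset V => ((Q.filter (fun e : V × V => e.2 ∈ M ∧ Disjoint M (U e.1))).card : ℝ))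
    ⟨∅, by simp⟩
  refine ⟨M, ?_⟩
  have h1 : EE q (Finset.univ : Finset V)
      (fun M => ((Q.filter (fun e => e.2 ∈ M ∧ Disjoint M (U e.1))).card : ℝ)) ≤
      ((Q.filter (fun e => e.2 ∈ M ∧ Disjoint M (U e.1))).card : ℝ) := by
    rw [← EE_const q (Finset.univ : Finset V)
      ((Q.filter (fun e => e.2 ∈ M ∧ Disjoint M (U e.1))).card : ℝ)]
    refine EE_mono hq0 hq1 fun S hS => hM S (Finset.mem_powerset.2 hS)
  refine le_trans ?_ h1
  have h2 : EE q (Finset.univ : Finset V)
      (fun M => ((Q.filter (fun e => e.2 ∈ M ∧ Disjoint M (U e.1))).card : ℝ)) =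
      ∑ e ∈ Q, PP q (Finset.univ : Finset V) (fun M => e.2 ∈ M ∧ Disjoint M (U e.1)) := by
    unfold PP
    rw [← EE_sum]
    refine EE_congr fun S _ => ?_
    rw [Finset.card_filter]
    push_cast
    refine Finset.sum_congr rfl fun e _ => ?_
    by_cases h : e.2 ∈ S ∧ Disjoint S (U e.1)
    · rw [if_pos h, if_pos h]
    · rw [if_neg h, if_neg h]
  rw [h2]
  have h3 : ∀ e ∈ Q, q * (1 - q) ^ K ≤
      PP q (Finset.univ : Finset V) (fun M => e.2 ∈ M ∧ Disjoint M (U e.1)) := by
    intro e he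
    rw [PP_mem_and_avoid q _ _ (hQ e he)]
    apply mul_le_mul_of_nonneg_left _ hq0
    exact pow_le_pow_of_le_one (by linarith) (by linarith) (hU e.1)
  calc (Q.card : ℝ) * (q * (1 - q) ^ K) = ∑ e ∈ Q, q * (1 - q) ^ K := by
        rw [Finset.sum_const, nsmul_eq_mul]
    _ ≤ _ := Finset.sum_le_sum h3

open Classical in
lemma greedy (U : V → Finset V) (K : ℕ) (hU : ∀ x, (U x).card ≤ K)
    (Q : Finset (V × V)) (hQ : ∀ e ∈ Q, e.2 ∉ U e.1) {q : ℝ} (hq0 : 0 ≤ q) (hq1 : q ≤ 1) (t : ℕ) :
    ∃ M : Fin t → Finset V,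
      ((Q.filter (fun e => ∀ i, ¬ (e.2 ∈ M i ∧ Disjoint (M i) (U e.1)))).card : ℝ) ≤
        Q.card * (1 - q * (1 - q) ^ K) ^ t := by
  induction t with
  | zero => exact ⟨fun i => ∅, by simp⟩
  | succ t ih =>
    obtain ⟨M, hM⟩ := ih
    set Q' := Q.filter (fun e => ∀ i, ¬ (e.2 ∈ M i ∧ Disjoint (M i) (U e.1))) with hQ'
    obtain ⟨M₀, hM₀⟩ := greedy_step U K hU Q'
      (fun e he => hQ e (Finset.mem_filter.1 he).1) hq0 hq1
    refine ⟨Fin.cons M₀ M, ?_⟩
    have h1 : (Q.filter (fun e => ∀ i, ¬ (e.2 ∈ (Fin.cons M₀ M : Fin (t+1) → Finset V) i ∧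
        Disjoint ((Fin.cons M₀ M : Fin (t+1) → Finset V) i) (U e.1)))) =
        Q'.filter (fun e => ¬ (e.2 ∈ M₀ ∧ Disjoint M₀ (U e.1))) := by
      ext e
      simp only [hQ', Finset.mem_filter, Fin.forall_fin_succ, Fin.cons_zero, Fin.cons_succ]
      tauto
    rw [h1]
    have h2 := Finset.card_filter_add_card_filter_not (s := Q')
      (fun e => e.2 ∈ M₀ ∧ Disjoint M₀ (U e.1))
    have h3 : ((Q'.filter (fun e => e.2 ∈ M₀ ∧ Disjoint M₀ (U e.1))).card : ℝ) +
        ((Q'.filter (fun e => ¬ (e.2 ∈ M₀ ∧ Disjoint M₀ (U e.1)))).card : ℝ) = Q'.card := by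
      exact_mod_cast h2
    have hc : 0 ≤ 1 - q * (1 - q) ^ K := by
      have : (1 - q) ^ K ≤ 1 := pow_le_one₀ (by linarith) (by linarith)
      nlinarith
    calc ((Q'.filter (fun e => ¬ (e.2 ∈ M₀ ∧ Disjoint M₀ (U e.1)))).card : ℝ)
        ≤ Q'.card * (1 - q * (1 - q) ^ K) := by linarith
      _ ≤ (Q.card * (1 - q * (1 - q) ^ K) ^ t) * (1 - q * (1 - q) ^ K) :=
          mul_le_mul_of_nonneg_right hM hc
      _ = Q.card * (1 - q * (1 - q) ^ K) ^ (t + 1) := by ring

end Random

/-- Upper bound for the dimension when all up-sets have at most `K` elements. -/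
lemma orderDim_le_of_upsets {V : Type*} [LinearOrder V] [Fintype V] (P : V → V → Prop)
    (hrefl : ∀ x, P x x) (htrans : ∀ x y z, P x y → P y z → P x z)
    (hle : ∀ x y, P x y → x ≤ y) (U : V → Finset V) (hUP : ∀ x y, y ∈ U x ↔ P x y)
    (K : ℕ) (hK : 1 ≤ K) (hU : ∀ x, (U x).card ≤ K) (t : ℕ)
    (ht : 2 * Real.log (Fintype.card V) < t / (Real.exp 1 * (K + 1))) :
    orderDim P ≤ t + 1 := by
  classical
  rcases Nat.eq_zero_or_pos (Fintype.card V) with h0 | hcard
  · haveI : IsEmpty V := Fintype.card_eq_zero_iff.1 h0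
    exact orderDim_le_of_downsets P hrefl hle t (fun _ => ∅) (fun _ x => isEmptyElim x)
      (fun x => isEmptyElim x)
  have hn : (0 : ℝ) < Fintype.card V := by exact_mod_cast hcard
  set Q : Finset (V × V) := Finset.univ.filter (fun e => ¬ P e.1 e.2) with hQ
  set q : ℝ := 1 / (K + 1) with hq
  have hK' : (1 : ℝ) ≤ K := by exact_mod_cast hK
  have hq0 : 0 < q := by positivity
  have hq1 : q ≤ 1 := by
    rw [hq, div_le_one (by positivity)]
    linarith
  obtain ⟨M, hM⟩ := greedy U K hU Q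
    (fun e he => by
      rw [hUP]
      exact (Finset.mem_filter.1 he).2) hq0.le hq1 t
  have hc : 1 / (Real.exp 1 * (K + 1)) ≤ q * (1 - q) ^ K := by
    have e1 : 1 / Real.exp 1 ≤ (1 - q) ^ K := by
      have e2 : (1 - q) = (1 + 1 / (K : ℝ))⁻¹ := by
        rw [hq]
        field_simp
        ring
      rw [e2, inv_pow, one_div]
      apply inv_anti₀ (by positivity)
      calc (1 + 1 / (K : ℝ)) ^ K ≤ (Real.exp (1 / K)) ^ K := by
            apply pow_le_pow_left₀ (by positivity)
            have := Real.add_one_le_exp (1 / (K : ℝ)); linarith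
        _ = Real.exp 1 := by
            rw [← Real.exp_nat_mul]
            congr 1
            field_simp
    calc 1 / (Real.exp 1 * (K + 1)) = q * (1 / Real.exp 1) := by
          rw [hq]; field_simp
      _ ≤ q * (1 - q) ^ K := mul_le_mul_of_nonneg_left e1 hq0.le
  have hsmall : (Q.card : ℝ) * (1 - q * (1 - q) ^ K) ^ t < 1 := by
    have e1 : (Q.card : ℝ) ≤ (Fintype.card V : ℝ) ^ 2 := by
      have : Q.card ≤ (Finset.univ : Finset (V × V)).card := Finset.card_le_card (Finset.filter_subset _ _)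
      rw [Finset.card_univ, Fintype.card_prod] at this
      have h2 : (Q.card : ℝ) ≤ ((Fintype.card V * Fintype.card V : ℕ) : ℝ) := by exact_mod_cast this
      push_cast at h2
      nlinarith
    have e2 : (1 - q * (1 - q) ^ K) ^ t ≤ Real.exp (-(t / (Real.exp 1 * (K + 1)))) := by
      have e3 : 1 - q * (1 - q) ^ K ≤ Real.exp (-(1 / (Real.exp 1 * (K + 1)))) := by
        have := Real.add_one_le_exp (-(1 / (Real.exp 1 * ((K : ℝ) + 1))))
        linarith
      have e4 : 0 ≤ 1 - q * (1 - q) ^ K := by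
        have : (1 - q) ^ K ≤ 1 := pow_le_one₀ (by linarith) (by linarith)
        nlinarith
      calc (1 - q * (1 - q) ^ K) ^ t ≤ (Real.exp (-(1 / (Real.exp 1 * (K + 1))))) ^ t :=
            pow_le_pow_left₀ e4 e3 t
        _ = Real.exp (-(t / (Real.exp 1 * (K + 1)))) := by
            rw [← Real.exp_nat_mul]; congr 1; ring
    have e5 : (Fintype.card V : ℝ) ^ 2 = Real.exp (2 * Real.log (Fintype.card V)) := by
      rw [two_mul, Real.exp_add, Real.exp_log hn]; ring
    calc (Q.card : ℝ) * (1 - q * (1 - q) ^ K) ^ t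
        ≤ (Fintype.card V : ℝ) ^ 2 * Real.exp (-(t / (Real.exp 1 * (K + 1)))) := by
          apply mul_le_mul e1 e2 _ (by positivity)
          have : (1 - q) ^ K ≤ 1 := pow_le_one₀ (by linarith) (by linarith)
          apply pow_nonneg
          nlinarith
      _ = Real.exp (2 * Real.log (Fintype.card V) - t / (Real.exp 1 * (K + 1))) := by
          rw [e5, ← Real.exp_add]; ring_nf
      _ < 1 := by
          rw [Real.exp_lt_one_iff]
          linarith
  have hzero : (Q.filter (fun e => ∀ i, ¬ (e.2 ∈ M i ∧ Disjoint (M i) (U e.1)))) = ∅ := by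
    rw [← Finset.card_eq_zero]
    have : ((Q.filter (fun e => ∀ i, ¬ (e.2 ∈ M i ∧ Disjoint (M i) (U e.1)))).card : ℝ) < 1 :=
      lt_of_le_of_lt hM hsmall
    have h2 : (Q.filter (fun e => ∀ i, ¬ (e.2 ∈ M i ∧ Disjoint (M i) (U e.1)))).card < 1 := by
      exact_mod_cast this
    omega
  refine orderDim_le_of_downsets P hrefl hle t (fun i => {z | ∃ m ∈ M i, P z m}) ?_ ?_
  · rintro i x y hxy ⟨m, hm, hym⟩
    exact ⟨m, hm, htrans _ _ _ hxy hym⟩
  · intro x y _ hP
    have hmem : (x, y) ∈ Q := by simp [hQ, hP]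
    have h1 : ¬ (∀ i, ¬ (y ∈ M i ∧ Disjoint (M i) (U x))) := by
      intro hall
      have : (x, y) ∈ Q.filter (fun e => ∀ i, ¬ (e.2 ∈ M i ∧ Disjoint (M i) (U e.1))) :=
        Finset.mem_filter.2 ⟨hmem, hall⟩
      rw [hzero] at this
      simp at this
    push Not at h1
    obtain ⟨i, hi, hdis⟩ := h1
    refine ⟨i, ⟨y, hi, hrefl y⟩, ?_⟩
    rintro ⟨m, hm, hxm⟩
    exact Finset.disjoint_left.1 hdis hm ((hUP x m).2 hxm)

end Pool.Agent.MP_ef8d06_pr
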