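import Mathlib
import Pool.Agent.MP_ef8d06_pr.Block
import Pool.Agent.MP_ef8d06_pr.Dim

set_option autoImplicit false
set_option linter.unusedSectionVars false
set_option linter.unusedSimpArgs false
set_option linter.unusedVariables false

namespace Pool.Agent.MP_ef8d06_pr

open Finset

/-- reflection of the interval `[0, 2h)` -/
def refl (h x : ℕ) : ℕ := 2 * h - 1 - x

def rmap (h : ℕ) (e : ℕ × ℕ) : ℕ × ℕ := (refl h e.2, refl h e.1)

/-- the mirror image of the edges inside `[h, 2h)` -/
def mirror (S : Finset (ℕ × ℕ)) (h : ℕ) : Finset (ℕ × ℕ) := (Ed h).filter (fun e => rmap h e ∈ S)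

lemma refl_refl {h x : ℕ} (hx : x < 2 * h) : refl h (refl h x) = x := by
  unfold refl; omega

lemma rmap_injOn (h : ℕ) : Set.InjOn (rmap h) (Ed h : Set (ℕ × ℕ)) := by
  intro e he e' he' hee
  have h1 := mem_Ed.1 (Finset.mem_coe.1 he)
  have h2 := mem_Ed.1 (Finset.mem_coe.1 he')
  unfold rmap refl at hee
  have h3 := congrArg Prod.fst hee
  have h4 := congrArg Prod.snd hee
  simp only at h3 h4
  ext
  · omega
  · omega

lemma PP_mirror (p : ℝ) {n h : ℕ} (hn : 2 * h ≤ n) (Q : Finset (ℕ × ℕ) → Prop) :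
    PP p (Ed n) (fun S => Q (mirror S h)) = PP p (Ed h) Q := by
  have hsub : (Ed h).image (rmap h) ⊆ Ed n := by
    intro e he
    obtain ⟨e', he', rfl⟩ := Finset.mem_image.1 he
    have := mem_Ed.1 he'
    rw [mem_Ed]
    unfold rmap refl
    simp only
    omega
  unfold PP
  beta_reduce
  rw [EE_restrict p hsub]
  · rw [EE_image p (Ed h) (rmap h) (rmap_injOn h)]
    refine EE_congr fun S hS => ?_
    have : mirror (S.image (rmap h)) h = S := by
      ext e
      simp only [mirror, mem_filter, mem_image]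
      constructor
      · rintro ⟨h1, e', he', hee⟩
        have : e' = e := rmap_injOn h (by exact_mod_cast hS he') (by exact_mod_cast h1) hee
        rwa [← this]
      · intro he
        exact ⟨hS he, e, he, rfl⟩
    rw [this]
  · intro S _
    have : mirror (S ∩ (Ed h).image (rmap h)) h = mirror S h := by
      ext e
      simp only [mirror, mem_filter, mem_inter, mem_image]
      constructor
      · rintro ⟨h1, h2, _⟩; exact ⟨h1, h2⟩
      · rintro ⟨h1, h2⟩; exact ⟨h1, h2, e, h1, rfl⟩
    rw [this]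

/-- cross edges -/
def cross (h : ℕ) : Finset (ℕ × ℕ) := range h ×ˢ Ico h (2 * h)

lemma cross_subset {n h : ℕ} (hn : 2 * h ≤ n) : cross h ⊆ Ed n := by
  intro e he
  simp only [cross, mem_product, mem_range, mem_Ico] at he
  rw [mem_Ed]
  omega

/-- the rectangle of potential edges between the up-set of `A` and the down-set of the mirror
image of `B` -/
def rect (S : Finset (ℕ × ℕ)) (A B : Finset ℕ) (h : ℕ) : Finset (ℕ × ℕ) :=
  reach S A h ×ˢ (reach (mirror S h) B h).image (refl h)

lemma rect_subset (S : Finset (ℕ × ℕ)) (A B : Finset ℕ) (h : ℕ) : rect S A B h ⊆ cross h := by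
  intro e he
  simp only [rect, mem_product, mem_image] at he
  obtain ⟨h1, v, hv, h2⟩ := he
  have h3 := mem_reach_lt h1
  have h4 := mem_reach_lt hv
  simp only [cross, mem_product, mem_range, mem_Ico, ← h2, refl]
  omega

lemma rect_card (S : Finset (ℕ × ℕ)) (A B : Finset ℕ) (h : ℕ) :
    (rect S A B h).card = (reach S A h).card * (reach (mirror S h) B h).card := by
  rw [rect, card_product, Finset.card_image_of_injOn]
  intro x hx y hy hxy
  have h1 := mem_reach_lt (Finset.mem_coe.1 hx)
  have h2 := mem_reach_lt (Finset.mem_coe.1 hy)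
  unfold refl at hxy
  omega

lemma rect_union {h : ℕ} {S₁ S₂ : Finset (ℕ × ℕ)} (A B : Finset ℕ)
    (h₂' : S₂ ⊆ cross h) : rect (S₁ ∪ S₂) A B h = rect S₁ A B h := by
  have e1 : reach (S₁ ∪ S₂) A h = reach S₁ A h := by
    refine reach_congr A fun e he => ?_
    simp only [mem_union, or_iff_left_iff_imp]
    intro h3
    have h4 := h₂' h3
    have h5 := mem_Ed.1 he
    simp only [cross, mem_product, mem_range, mem_Ico] at h4
    omega
  have e2 : mirror (S₁ ∪ S₂) h = mirror S₁ h := by
    ext e
    simp only [mirror, mem_filter, mem_union]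
    constructor
    · rintro ⟨h3, h4 | h4⟩
      · exact ⟨h3, h4⟩
      · have h5 := h₂' h4
        have h6 := mem_Ed.1 h3
        simp only [cross, mem_product, mem_range, mem_Ico, rmap, refl] at h5
        omega
    · rintro ⟨h3, h4⟩
      exact ⟨h3, Or.inl h4⟩
  rw [rect, rect, e1, e2]

lemma bad_cross_one {p : ℝ} (hp0 : 0 ≤ p) (hp1 : p ≤ 1) {n h s : ℕ} (hn : 2 * h ≤ n)
    (A B : Finset ℕ) :
    PP p (Ed n) (fun S => s ≤ (reach S A h).card ∧ s ≤ (reach (mirror S h) B h).card ∧
      Disjoint S (rect S A B h)) ≤ Real.exp (-(p * (s * s : ℕ))) := by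
  have hE : Ed n = (Ed n \ cross h) ∪ cross h :=
    (Finset.sdiff_union_of_subset (cross_subset hn)).symm
  have hexp : (1 - p) ^ (s * s) ≤ Real.exp (-(p * (s * s : ℕ))) := by
    have : 1 - p ≤ Real.exp (-p) := by
      have := Real.add_one_le_exp (-p); linarith
    calc (1 - p) ^ (s * s) ≤ (Real.exp (-p)) ^ (s * s) :=
          pow_le_pow_left₀ (by linarith) this _
      _ = Real.exp (-(p * (s * s : ℕ))) := by
          rw [← Real.exp_nat_mul]; congr 1; push_cast; ring
  refine le_trans ?_ hexp
  unfold PP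
  rw [hE, EE_union p Finset.sdiff_disjoint]
  rw [← EE_const p (Ed n \ cross h) ((1 - p) ^ (s * s))]
  refine EE_mono hp0 hp1 fun S₁ h₁ => ?_
  beta_reduce
  by_cases hc : s ≤ (reach S₁ A h).card ∧ s ≤ (reach (mirror S₁ h) B h).card
  · have h3 : s * s ≤ (rect S₁ A B h).card := by
      rw [rect_card]; exact Nat.mul_le_mul hc.1 hc.2
    have h4 := PP_avoid p (rect_subset S₁ A B h)
    have h5 : (1 - p) ^ (rect S₁ A B h).card ≤ (1 - p) ^ (s * s) :=
      pow_le_pow_of_le_one (by linarith) (by linarith) h3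
    refine le_trans ?_ h5
    rw [← h4]
    refine EE_mono hp0 hp1 fun S₂ h₂ => ?_
    beta_reduce
    have h6 : rect (S₁ ∪ S₂) A B h = rect S₁ A B h := rect_union A B h₂
    by_cases hd : Disjoint S₂ (rect S₁ A B h)
    · rw [if_pos hd]
      split_ifs <;> norm_num
    · rw [if_neg hd, if_neg]
      rintro ⟨_, _, h7⟩
      rw [h6, Finset.disjoint_union_left] at h7
      exact hd h7.2
  · have h0 : (0 : ℝ) ≤ (1 - p) ^ (s * s) := pow_nonneg (by linarith) _
    refine le_trans ?_ h0
    refine le_trans (EE_mono hp0 hp1 (g := fun _ => (0 : ℝ)) fun S₂ h₂ => ?_)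
      (le_of_eq (EE_const p (cross h) (0 : ℝ)))
    rw [if_neg]
    rintro ⟨h7, h8, _⟩
    apply hc
    have h6 : rect (S₁ ∪ S₂) A B h = rect S₁ A B h := rect_union A B h₂
    -- recover the two components
    have e1 : reach (S₁ ∪ S₂) A h = reach S₁ A h := by
      refine reach_congr A fun e he => ?_
      simp only [mem_union, or_iff_left_iff_imp]
      intro h3
      have h4 := h₂ h3
      have h5 := mem_Ed.1 he
      simp only [cross, mem_product, mem_range, mem_Ico] at h4
      omega
    have e2 : mirror (S₁ ∪ S₂) h = mirror S₁ h := by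
      ext e
      simp only [mirror, mem_filter, mem_union]
      constructor
      · rintro ⟨h3, h4 | h4⟩
        · exact ⟨h3, h4⟩
        · have h5 := h₂ h4
          have h6 := mem_Ed.1 h3
          simp only [cross, mem_product, mem_range, mem_Ico, rmap, refl] at h5
          omega
      · rintro ⟨h3, h4⟩
        exact ⟨h3, Or.inl h4⟩
    rw [e1] at h7
    rw [e2] at h8
    exact ⟨h7, h8⟩

lemma bad_cross {p : ℝ} (hp0 : 0 ≤ p) (hp1 : p ≤ 1) {n h m k s : ℕ} (hn : 2 * h ≤ n) :
    PP p (Ed n) (fun S => ∃ A ∈ (range m).powersetCard k, ∃ B ∈ (range m).powersetCard k,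
      s ≤ (reach S A h).card ∧ s ≤ (reach (mirror S h) B h).card ∧
      Disjoint S (rect S A B h)) ≤
      (m.choose k : ℝ) * ((m.choose k : ℝ) * Real.exp (-(p * (s * s : ℕ)))) := by
  refine (PP_exists_le hp0 hp1 _ _ _).trans ?_
  have h1 : ∀ A ∈ (range m).powersetCard k,
      PP p (Ed n) (fun S => ∃ B ∈ (range m).powersetCard k,
      s ≤ (reach S A h).card ∧ s ≤ (reach (mirror S h) B h).card ∧
      Disjoint S (rect S A B h)) ≤ (m.choose k : ℝ) * Real.exp (-(p * (s * s : ℕ))) := by
    intro A _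
    refine (PP_exists_le hp0 hp1 _ _ _).trans ?_
    refine (Finset.sum_le_sum fun B _ => bad_cross_one hp0 hp1 hn A B).trans ?_
    rw [Finset.sum_const, nsmul_eq_mul, card_powersetCard, card_range]
  refine (Finset.sum_le_sum h1).trans ?_
  rw [Finset.sum_const, nsmul_eq_mul, card_powersetCard, card_range]

open Classical in
/-- number of comparable pairs between the first and the last block -/
noncomputable def cmpCount (S : Finset (ℕ × ℕ)) (m h : ℕ) : ℕ :=
  ((range m ×ˢ (range m).image (refl h)).filter (fun x => pleq S x.1 x.2)).card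

lemma pleq_iff_reach {S : Finset (ℕ × ℕ)} {n : ℕ} (hS : S ⊆ Ed n) {a b N : ℕ} (hab : a < b)
    (hbN : b < N) : pleq S a b ↔ b ∈ reach S {a} N := by
  constructor
  · intro h
    exact mem_reach_of_pleq hS (Finset.mem_singleton_self a) (by omega) h hbN
  · intro h
    obtain ⟨a', ha', h'⟩ := pleq_of_mem_reach h
    rw [Finset.mem_singleton] at ha'
    rwa [← ha']

lemma bad_cmp {p : ℝ} (hp0 : 0 ≤ p) (hp1 : p ≤ 1) {n h m : ℕ} (hn : 2 * h ≤ n) (hm : m ≤ h)
    (hm0 : 1 ≤ m) :
    PP p (Ed n) (fun S => (m : ℝ) ^ 2 / 8 ≤ (cmpCount S m h : ℝ)) ≤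
      8 * (p * Real.exp (p * (2 * h : ℕ))) := by
  classical
  have hm' : (0 : ℝ) < m := by exact_mod_cast hm0
  have h0 : (0 : ℝ) < (m : ℝ) ^ 2 / 8 := by positivity
  refine (PP_markov hp0 hp1 (Ed n) _ (fun S _ => by positivity) h0).trans ?_
  rw [div_le_iff₀ h0]
  have h1 : EE p (Ed n) (fun S => (cmpCount S m h : ℝ)) =
      ∑ x ∈ (range m ×ˢ (range m).image (refl h)), PP p (Ed n) (fun S => pleq S x.1 x.2) := by
    unfold PP
    rw [← EE_sum]
    refine EE_congr fun S _ => ?_
    rw [cmpCount, Finset.card_filter]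
    push_cast
    rfl
  rw [h1]
  have h2 : ∀ x ∈ (range m ×ˢ (range m).image (refl h)),
      PP p (Ed n) (fun S => pleq S x.1 x.2) ≤ p * Real.exp (p * (2 * h : ℕ)) := by
    intro x hx
    simp only [mem_product, mem_range, mem_image] at hx
    obtain ⟨hx1, v, hv, hx2⟩ := hx
    unfold refl at hx2
    have hlt : x.1 < x.2 := by omega
    have hlt2 : x.2 < 2 * h := by omega
    refine le_trans (le_of_eq ?_) (prob_pleq_le hp0 hp1 hlt hlt2)
    rw [← PP_restrict p (Ed_mono hn)]
    unfold PP
    refine EE_congr fun S hS => ?_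
    have h3 := pleq_iff_reach hS hlt hlt2
    rw [← reach_inter_Ed S {x.1} (le_refl (2 * h))] at h3
    by_cases h4 : pleq S x.1 x.2
    · rw [if_pos h4, if_pos (h3.1 h4)]
    · rw [if_neg h4, if_neg (fun h => h4 (h3.2 h))]
  refine (Finset.sum_le_sum h2).trans ?_
  rw [Finset.sum_const, nsmul_eq_mul, card_product, card_range]
  have h5 : ((range m).image (refl h)).card ≤ m := by
    refine Finset.card_image_le.trans ?_
    rw [card_range]
  have h6 : ((m * ((range m).image (refl h)).card : ℕ) : ℝ) ≤ (m : ℝ) ^ 2 := by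
    have : m * ((range m).image (refl h)).card ≤ m * m := Nat.mul_le_mul_left _ h5
    have h7 : ((m * ((range m).image (refl h)).card : ℕ) : ℝ) ≤ ((m * m : ℕ) : ℝ) := by
      exact_mod_cast this
    push_cast at h7 ⊢
    nlinarith
  calc ((m * ((range m).image (refl h)).card : ℕ) : ℝ) * (p * Real.exp (p * (2 * h : ℕ)))
      ≤ (m : ℝ) ^ 2 * (p * Real.exp (p * (2 * h : ℕ))) :=
        mul_le_mul_of_nonneg_right h6 (by positivity)
    _ = 8 * (p * Real.exp (p * (2 * h : ℕ))) * ((m : ℝ) ^ 2 / 8) := by ring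

/-- the relation on `Fin n` -/
def prel (n : ℕ) (S : Finset (ℕ × ℕ)) (x y : Fin n) : Prop := pleq S x y

lemma prel_refl (n : ℕ) (S : Finset (ℕ × ℕ)) (x : Fin n) : prel n S x x :=
  Relation.ReflTransGen.refl

lemma prel_trans (n : ℕ) (S : Finset (ℕ × ℕ)) (x y z : Fin n) (h : prel n S x y)
    (h' : prel n S y z) : prel n S x z :=
  Relation.ReflTransGen.trans h h'

lemma prel_le {n : ℕ} {S : Finset (ℕ × ℕ)} (hS : S ⊆ Ed n) (x y : Fin n) (h : prel n S x y) :
    x ≤ y := pleq_le hS h

/-- a set of numbers as a set of elements of `Fin n` -/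
def toFin (n : ℕ) (A : Finset ℕ) : Finset (Fin n) := Finset.univ.filter (fun x => (x : ℕ) ∈ A)

lemma toFin_card {n : ℕ} {A : Finset ℕ} (hA : A ⊆ range n) : (toFin n A).card = A.card := by
  have : (toFin n A).map Fin.valEmbedding = A := by
    ext x
    simp only [toFin, mem_map, mem_filter, mem_univ, true_and, Fin.valEmbedding_apply]
    constructor
    · rintro ⟨y, hy, rfl⟩; exact hy
    · intro hx
      exact ⟨⟨x, by simpa using hA hx⟩, hx, rfl⟩
  rw [← this, Finset.card_map]
  congr 1
  rw [this]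

lemma pleq_mirror {S : Finset (ℕ × ℕ)} {h x y : ℕ} (hxy : pleq (mirror S h) x y) :
    pleq S (refl h y) (refl h x) := by
  induction hxy with
  | refl => exact Relation.ReflTransGen.refl
  | tail _ hbc ih =>
    have := (mem_filter.1 hbc).2
    exact Relation.ReflTransGen.head this ih

/-- The deterministic part of the lower bound. -/
lemma dim_lower {n h m d k s : ℕ} (hn : 2 * h ≤ n) (hm : m ≤ h) (hm0 : 1 ≤ m)
    {S : Finset (ℕ × ℕ)} (hS : S ⊆ Ed n)
    (g1 : BlockGood S m d k s h) (g2 : BlockGood (mirror S h) m d k s h)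
    (g3 : ¬ ∃ A ∈ (range m).powersetCard k, ∃ B ∈ (range m).powersetCard k,
      s ≤ (reach S A h).card ∧ s ≤ (reach (mirror S h) B h).card ∧
      Disjoint S (rect S A B h))
    (g4 : ¬ (m : ℝ) ^ 2 / 8 ≤ (cmpCount S m h : ℝ)) {t : ℕ}
    {L : Fin t → Fin n → Fin n → Prop} (hL : IsRealiser (prel n S) t L) :
    m ≤ 16 * k * t := by
  classical
  set A := goodSet S m d with hA
  set B₀ := goodSet (mirror S h) m d with hB₀
  set B := B₀.image (refl h) with hB
  have hAm : A ⊆ range m := Finset.filter_subset _ _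
  have hBm : B₀ ⊆ range m := Finset.filter_subset _ _
  have hinj : Set.InjOn (refl h) (B₀ : Set ℕ) := by
    intro x hx y hy hxy
    have h1 := hBm (Finset.mem_coe.1 hx)
    have h2 := hBm (Finset.mem_coe.1 hy)
    rw [mem_range] at h1 h2
    unfold refl at hxy
    omega
  have hBc : B.card = B₀.card := Finset.card_image_of_injOn hinj
  have hAn : A ⊆ range n := hAm.trans (by intro x hx; simp only [mem_range] at *; omega)
  have hBn : B ⊆ range n := by
    intro x hx
    obtain ⟨y, hy, rfl⟩ := Finset.mem_image.1 hx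
    have := hBm hy
    simp only [mem_range, refl] at *
    omega
  have hAle : A.card ≤ m := by
    have := Finset.card_le_card hAm
    rwa [card_range] at this
  have hBle : B.card ≤ m := by
    rw [hBc]
    have := Finset.card_le_card hBm
    rwa [card_range] at this
  have key := realiser_lower (prel n S) hL (toFin n A) (toFin n B) k
    (by
      intro A' hA' B' hB' hAc hBc'
      set A'' := A'.map Fin.valEmbedding with hA''
      set B'' := (B'.map Fin.valEmbedding).image (refl h) with hB''
      have h1 : A'' ⊆ A := by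
        intro x hx
        obtain ⟨y, hy, rfl⟩ := Finset.mem_map.1 hx
        exact (mem_filter.1 (hA' hy)).2
      have h2 : B'.map Fin.valEmbedding ⊆ B := by
        intro x hx
        obtain ⟨y, hy, rfl⟩ := Finset.mem_map.1 hx
        exact (mem_filter.1 (hB' hy)).2
      have h3 : B'' ⊆ B₀ := by
        intro x hx
        obtain ⟨y, hy, rfl⟩ := Finset.mem_image.1 hx
        obtain ⟨z, hz, rfl⟩ := Finset.mem_image.1 (h2 hy)
        have := hBm hz
        rw [mem_range] at this
        rw [refl_refl (by omega)]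
        exact hz
      have h4 : B''.card = k := by
        rw [hB'', Finset.card_image_of_injOn, Finset.card_map, hBc']
        intro x hx y hy hxy
        obtain ⟨x', hx', rfl⟩ := Finset.mem_image.1 (h2 (Finset.mem_coe.1 hx))
        obtain ⟨y', hy', rfl⟩ := Finset.mem_image.1 (h2 (Finset.mem_coe.1 hy))
        have e1 := hBm hx'
        have e2 := hBm hy'
        rw [mem_range] at e1 e2
        rw [refl_refl (by omega), refl_refl (by omega)] at hxy
        rw [hxy]
      have h5 : A''.card = k := by rw [hA'', Finset.card_map, hAc]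
      have h6 := g1.2 A'' h1 h5
      have h7 := g2.2 B'' h3 h4
      have h8 : ¬ Disjoint S (rect S A'' B'' h) := by
        intro hd
        exact g3 ⟨A'', mem_powersetCard.2 ⟨h1.trans hAm, h5⟩, B'',
          mem_powersetCard.2 ⟨h3.trans hBm, h4⟩, h6, h7, hd⟩
      rw [Finset.not_disjoint_iff] at h8
      obtain ⟨⟨u, v⟩, huv, hrect⟩ := h8
      simp only [rect, mem_product, mem_image] at hrect
      obtain ⟨hu, v', hv', rfl⟩ := hrect
      obtain ⟨a, ha, hau⟩ := pleq_of_mem_reach hu
      obtain ⟨b, hb, hbv⟩ := pleq_of_mem_reach hv'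
      obtain ⟨a', ha', rfl⟩ := Finset.mem_map.1 ha
      obtain ⟨b', hb', rfl⟩ := Finset.mem_image.1 hb
      obtain ⟨b'', hb'', rfl⟩ := Finset.mem_map.1 hb'
      refine ⟨a', ha', b'', hb'', ?_⟩
      have h9 := pleq_mirror hbv
      have h10 : refl h (refl h ((Fin.valEmbedding : Fin n ↪ ℕ) b'')) = (b'' : ℕ) := by
        obtain ⟨z, hz, hz'⟩ := Finset.mem_image.1 (h2 hb')
        have := hBm hz
        rw [mem_range] at this
        have h11 : (b'' : ℕ) < 2 * h := by
          have h12 : refl h z = (b'' : ℕ) := hz'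
          rw [← h12]
          unfold refl
          omega
        exact refl_refl h11
      rw [h10] at h9
      exact Relation.ReflTransGen.trans (Relation.ReflTransGen.tail hau huv) h9)
  rw [toFin_card hAn, toFin_card hBn] at key
  -- lower bound for the number of non-comparable pairs
  have hcount : A.card * B.card ≤
      ((toFin n A ×ˢ toFin n B).filter (fun x => ¬ prel n S x.1 x.2)).card + cmpCount S m h := by
    have h1 := Finset.card_filter_add_card_filter_not (s := toFin n A ×ˢ toFin n B)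
      (fun x => prel n S x.1 x.2)
    rw [card_product, toFin_card hAn, toFin_card hBn] at h1
    have h2 : ((toFin n A ×ˢ toFin n B).filter (fun x => prel n S x.1 x.2)).card ≤
        cmpCount S m h := by
      rw [cmpCount]
      refine Finset.card_le_card_of_injOn (fun x => ((x.1 : ℕ), (x.2 : ℕ))) ?_ ?_
      · intro x hx
        have hx' := Finset.mem_coe.1 hx
        obtain ⟨hx1, hx2⟩ := mem_filter.1 hx'
        obtain ⟨hx3, hx4⟩ := mem_product.1 hx1
        have hx5 := (mem_filter.1 hx3).2
        have hx6 := (mem_filter.1 hx4).2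
        obtain ⟨z, hz, hz'⟩ := Finset.mem_image.1 hx6
        simp only [coe_filter, mem_product, mem_image, Set.mem_ofPred_eq]
        exact ⟨⟨hAm hx5, z, hBm hz, hz'⟩, hx2⟩
      · intro x _ y _ hxy
        simp only [Prod.mk.injEq] at hxy
        exact Prod.ext (Fin.ext hxy.1) (Fin.ext hxy.2)
    omega
  have hm' : (0 : ℝ) < m := by exact_mod_cast hm0
  have q1 : (m : ℝ) / 2 ≤ A.card := by
    have := g1.1
    have h3 : (m : ℝ) ≤ 2 * A.card := by exact_mod_cast this
    linarith
  have q2 : (m : ℝ) / 2 ≤ B.card := by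
    have := g2.1
    have h3 : (m : ℝ) ≤ 2 * B₀.card := by exact_mod_cast this
    rw [hBc]
    linarith
  have q3 : (A.card : ℝ) * B.card ≤
      (((toFin n A ×ˢ toFin n B).filter (fun x => ¬ prel n S x.1 x.2)).card : ℝ) +
        (cmpCount S m h : ℝ) := by exact_mod_cast hcount
  have q4 : (((toFin n A ×ˢ toFin n B).filter (fun x => ¬ prel n S x.1 x.2)).card : ℝ) ≤
      t * (k * (A.card + B.card)) := by exact_mod_cast key
  have q5 : (A.card : ℝ) ≤ m := by exact_mod_cast hAle
  have q6 : (B.card : ℝ) ≤ m := by exact_mod_cast hBle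
  push Not at g4
  have q7 : (m : ℝ) / 2 * (m / 2) ≤ (A.card : ℝ) * B.card :=
    mul_le_mul q1 q2 (by positivity) (by positivity)
  have q8 : (t : ℝ) * (k * (A.card + B.card)) ≤ t * (k * (2 * m)) := by
    apply mul_le_mul_of_nonneg_left _ (by positivity)
    apply mul_le_mul_of_nonneg_left _ (by positivity)
    linarith
  have q9 : (m : ℝ) * m ≤ (16 * k * t) * m := by nlinarith
  have q10 : (m : ℝ) ≤ 16 * k * t := le_of_mul_le_mul_right q9 hm'
  exact_mod_cast q10

end Pool.Agent.MP_ef8d06_pr
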