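import Mathlib
import Pool.Agent.MP_ef8d06_pr.Glue

set_option autoImplicit false
set_option linter.unusedSectionVars false
set_option linter.unusedSimpArgs false
set_option linter.unusedVariables false

namespace Pool.Agent.MP_ef8d06_pr

open Finset

/-- Combination of all the bad events. -/
lemma lower_union {p : ℝ} (hp0 : 0 ≤ p) (hp1 : p ≤ 1) {n m h k K s θ : ℕ} (hn : 2 * h ≤ n)
    (hm0 : 1 ≤ m) (hm : 2 * m ≤ h)
    (hk : 1 ≤ k) (hK : 1 ≤ K) (hKm : K * k ≤ m) (hTs : K * k ≤ s) {w : ℝ} (hw : (m : ℝ) ≤ w * k)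
    (hsmall : Real.exp 1 * w * (Real.exp 1 * (k * p)) ^ 2 ≤ Real.exp (-1))
    (hd : ((2 * K + 2 : ℕ) : ℝ) ≤ p * m / 4) (hpm : 16 ≤ p * m) {δ₁ δ₂ δ₃ : ℝ}
    (h1 : (m.choose k : ℝ) * (((s : ℝ) / (K * k : ℕ)) ^ θ *
        Real.exp (-(p / (1 + p * s) * θ * ((K * k : ℕ) / ((K * k : ℕ) + θ)) *
          ((h - 2 * m : ℕ) : ℝ)))) ≤ δ₁)
    (h2 : (m.choose k : ℝ) * ((m.choose k : ℝ) * Real.exp (-(p * (s * s : ℕ)))) ≤ δ₂)
    (h3 : 8 * (p * Real.exp (p * (2 * h : ℕ))) ≤ δ₃) :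
    PP p (Ed n) (fun S => ¬ ∀ (t : ℕ) (L : Fin t → Fin n → Fin n → Prop),
      IsRealiser (prel n S) t L → m ≤ 16 * k * t) ≤
      2 * (Real.exp (-m) + (Real.exp (-k) + δ₁)) + δ₂ + δ₃ := by
  have b0 := block_bound (θ := θ) hp0 hp1 hm hk hK hKm hTs hw hsmall hd hpm
  have hhn : h ≤ n := by omega
  have b1 : PP p (Ed n) (fun S => ¬ BlockGood S m (2 * K + 2) k s h) ≤
      Real.exp (-m) + (Real.exp (-k) + δ₁) := by
    refine le_trans (le_of_eq ?_) (b0.trans (add_le_add le_rfl (add_le_add le_rfl h1)))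
    rw [← PP_restrict p (Ed_mono hhn)]
    unfold PP
    refine EE_congr fun S hS => ?_
    have e : BlockGood S m (2 * K + 2) k s h ↔ BlockGood (S ∩ Ed h) m (2 * K + 2) k s h := by
      have e1 : ∀ A, reach (S ∩ Ed h) A h = reach S A h := fun A => reach_inter_Ed S A le_rfl
      have e2 : goodSet (S ∩ Ed h) m (2 * K + 2) = goodSet S m (2 * K + 2) := by
        unfold goodSet
        refine Finset.filter_congr fun a ha => ?_
        have e3 : nbr (S ∩ Ed h) a (Ico m (2 * m)) = nbr S a (Ico m (2 * m)) := by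
          unfold nbr
          refine Finset.filter_congr fun v hv => ?_
          rw [mem_range] at ha
          rw [mem_Ico] at hv
          rw [mem_inter]
          constructor
          · exact fun h => h.1
          · intro h'
            exact ⟨h', mem_Ed.2 (by simp only; omega)⟩
        rw [e3]
      unfold BlockGood
      rw [e2]
      simp only [e1]
    by_cases h4 : BlockGood S m (2 * K + 2) k s h
    · rw [if_neg (not_not.2 h4), if_neg (not_not.2 (e.1 h4))]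
    · rw [if_pos h4, if_pos (fun h5 => h4 (e.2 h5))]
  have b2 : PP p (Ed n) (fun S => ¬ BlockGood (mirror S h) m (2 * K + 2) k s h) ≤
      Real.exp (-m) + (Real.exp (-k) + δ₁) := by
    have := PP_mirror p hn (fun S => ¬ BlockGood S m (2 * K + 2) k s h)
    rw [this]
    exact b0.trans (add_le_add le_rfl (add_le_add le_rfl h1))
  have b3 := (bad_cross (m := m) (k := k) (s := s) hp0 hp1 hn).trans h2
  have b4 := (bad_cmp hp0 hp1 hn (by omega : m ≤ h) hm0).trans h3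
  refine le_trans (PP_mono hp0 hp1 (R := fun S =>
    ((¬ BlockGood S m (2 * K + 2) k s h ∨ ¬ BlockGood (mirror S h) m (2 * K + 2) k s h) ∨
      (∃ A ∈ (range m).powersetCard k, ∃ B ∈ (range m).powersetCard k,
      s ≤ (reach S A h).card ∧ s ≤ (reach (mirror S h) B h).card ∧
      Disjoint S (rect S A B h))) ∨ (m : ℝ) ^ 2 / 8 ≤ (cmpCount S m h : ℝ)) ?_) ?_
  · intro S hS hbad
    by_contra hcon
    push Not at hcon
    obtain ⟨⟨⟨g1, g2⟩, g3⟩, g4⟩ := hcon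
    apply hbad
    intro t L hL
    refine dim_lower hn (by omega) hm0 hS g1 g2 ?_ (not_le.2 g4) hL
    rintro ⟨A, hA, B, hB, h5, h6, h7⟩
    exact g3 A hA B hB h5 h6 h7
  · refine (PP_or_le hp0 hp1 _ _ _).trans ?_
    have c1 := PP_or_le hp0 hp1 (Ed n)
      (fun S => ¬ BlockGood S m (2 * K + 2) k s h ∨ ¬ BlockGood (mirror S h) m (2 * K + 2) k s h)
      (fun S => ∃ A ∈ (range m).powersetCard k, ∃ B ∈ (range m).powersetCard k,
      s ≤ (reach S A h).card ∧ s ≤ (reach (mirror S h) B h).card ∧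
      Disjoint S (rect S A B h))
    have c2 := PP_or_le hp0 hp1 (Ed n) (fun S => ¬ BlockGood S m (2 * K + 2) k s h)
      (fun S => ¬ BlockGood (mirror S h) m (2 * K + 2) k s h)
    linarith

lemma choose_exp {m k : ℕ} {c : ℝ} (hk : 1 ≤ k) (hmw : (m : ℝ) ≤ Real.exp c * k) :
    (m.choose k : ℝ) ≤ Real.exp (k * (1 + c)) := by
  have hk'' : (0 : ℝ) < k := by exact_mod_cast hk
  refine (choose_le_exp hk).trans ?_
  have h1 : Real.exp 1 * m / k ≤ Real.exp (1 + c) := by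
    rw [div_le_iff₀ hk'', Real.exp_add, mul_assoc]
    exact mul_le_mul_of_nonneg_left hmw (Real.exp_pos 1).le
  calc (Real.exp 1 * m / k) ^ k ≤ (Real.exp (1 + c)) ^ k :=
        pow_le_pow_left₀ (by positivity) h1 k
    _ = Real.exp (k * (1 + c)) := by rw [← Real.exp_nat_mul]

/-- The exponent in the growth phase. -/
lemma growth_exponent {p δ c a b T θ : ℝ} (hδ0 : 0 < δ) (hδ8 : δ ≤ 1 / 8) (hc : 0 ≤ c)
    (hθ : 0 ≤ θ) (ha0 : 0 ≤ a) (ha : a ≤ δ) (hb : 1 - δ ≤ b)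
    (hT : (c / 2) * (1 - 3 * δ) ≤ p * T) :
    θ * ((c / 2) * (1 - 5 * δ)) ≤ p / (1 + a) * θ * b * T := by
  have g1 : (1 - δ) ≤ 1 / (1 + a) := by
    rw [le_div_iff₀ (by linarith)]
    nlinarith
  have e : p / (1 + a) * θ * b * T = θ * ((1 / (1 + a)) * (b * (p * T))) := by ring
  rw [e]
  apply mul_le_mul_of_nonneg_left _ hθ
  have hδ1 : 0 ≤ 1 - δ := by linarith
  have h0 : 0 ≤ (c / 2) * (1 - 3 * δ) := by
    apply mul_nonneg (by linarith); linarith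
  calc (c / 2) * (1 - 5 * δ) ≤ (1 - δ) * ((1 - δ) * ((c / 2) * (1 - 3 * δ))) := by
        have : (1 - 5 * δ) ≤ (1 - δ) * ((1 - δ) * (1 - 3 * δ)) := by
          have h9 : 0 ≤ δ ^ 2 * (7 - 3 * δ) := mul_nonneg (sq_nonneg δ) (by linarith)
          linarith [h9, (by ring : (1 - δ) * ((1 - δ) * (1 - 3 * δ)) =
            1 - 5 * δ + δ ^ 2 * (7 - 3 * δ))]
        have hc2 : 0 ≤ c / 2 := by linarith
        calc (c / 2) * (1 - 5 * δ) ≤ (c / 2) * ((1 - δ) * ((1 - δ) * (1 - 3 * δ))) :=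
              mul_le_mul_of_nonneg_left this hc2
          _ = _ := by ring
    _ ≤ _ := by
        apply mul_le_mul g1 _ (mul_nonneg hδ1 h0) (by positivity)
        exact mul_le_mul hb hT h0 (by linarith)

lemma growth_final {C r E θ δ c k : ℝ} {θn : ℕ} (hθn : (θn : ℝ) = θ) (hC : C ≤ Real.exp (k * (1 + c)))
    (hr0 : 0 ≤ r) (hr : r ≤ Real.exp ((1 - 6 * δ) * c / 2)) (hE : θ * ((c / 2) * (1 - 5 * δ)) ≤ E)
    (hθ : θ * δ = 8 * k) (hk : 0 ≤ k) (hc : 4 ≤ c) :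
    C * (r ^ θn * Real.exp (-E)) ≤ Real.exp (-k) := by
  have h1 : r ^ θn ≤ Real.exp (θ * ((1 - 6 * δ) * c / 2)) := by
    rw [← hθn, Real.exp_nat_mul]
    exact pow_le_pow_left₀ hr0 hr _
  have h2 : Real.exp (-E) ≤ Real.exp (-(θ * ((c / 2) * (1 - 5 * δ)))) :=
    Real.exp_le_exp.2 (neg_le_neg hE)
  have h3 : r ^ θn * Real.exp (-E) ≤ Real.exp (θ * ((1 - 6 * δ) * c / 2)) *
      Real.exp (-(θ * ((c / 2) * (1 - 5 * δ)))) :=
    mul_le_mul h1 h2 (Real.exp_pos _).le (Real.exp_pos _).le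
  have h4 : 0 ≤ r ^ θn * Real.exp (-E) := mul_nonneg (pow_nonneg hr0 _) (Real.exp_pos _).le
  calc C * (r ^ θn * Real.exp (-E)) ≤ Real.exp (k * (1 + c)) * (r ^ θn * Real.exp (-E)) :=
        mul_le_mul_of_nonneg_right hC h4
    _ ≤ Real.exp (k * (1 + c)) * (Real.exp (θ * ((1 - 6 * δ) * c / 2)) *
        Real.exp (-(θ * ((c / 2) * (1 - 5 * δ))))) :=
        mul_le_mul_of_nonneg_left h3 (Real.exp_pos _).le
    _ = Real.exp (k * (1 + c) - θ * δ * c / 2) := by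
        rw [← Real.exp_add, ← Real.exp_add]; congr 1; ring
    _ ≤ Real.exp (-k) := by
        apply Real.exp_le_exp.2
        rw [hθ]
        nlinarith

lemma cross_final {C E c k : ℝ} (hC0 : 0 ≤ C) (hC : C ≤ Real.exp (k * (1 + c)))
    (hE : 16 * c * k ≤ E) (hk : 0 ≤ k) (hc : 4 ≤ c) :
    C * (C * Real.exp (-E)) ≤ Real.exp (-k) := by
  have h2 : Real.exp (-E) ≤ Real.exp (-(16 * c * k)) := Real.exp_le_exp.2 (neg_le_neg hE)
  calc C * (C * Real.exp (-E)) ≤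
        Real.exp (k * (1 + c)) * (Real.exp (k * (1 + c)) * Real.exp (-(16 * c * k))) := by
        apply mul_le_mul hC _ (mul_nonneg hC0 (Real.exp_pos _).le) (Real.exp_pos _).le
        exact mul_le_mul hC h2 (Real.exp_pos _).le (Real.exp_pos _).le
    _ = Real.exp (k * (1 + c) + (k * (1 + c) - 16 * c * k)) := by
        rw [← Real.exp_add, ← Real.exp_add]; congr 1
    _ ≤ Real.exp (-k) := by
        apply Real.exp_le_exp.2
        nlinarith

/-- choice of the two block sizes -/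
lemma param_hm {M n : ℕ} {c δ p : ℝ} (hM : 8 ≤ M) (hn : 8 * M ^ 2 ≤ n) (hδM : δ * M = 1)
    (hδ0 : 0 < δ) (hδ8 : δ ≤ 1 / 8) (hp0 : 0 ≤ p) (hpn : p * n = c) (hc : 0 ≤ c) :
    ∃ h m : ℕ, 2 * h ≤ n ∧ 2 * m ≤ h ∧ 1 ≤ m ∧ δ * n / 4 ≤ m ∧ (m : ℝ) ≤ n ∧
      (c / 2) * (1 - 3 * δ) ≤ p * ((h - 2 * m : ℕ) : ℝ) ∧ 2 * (h : ℝ) ≤ (1 - δ) * n := by
  have hMr : (8 : ℝ) ≤ M := by exact_mod_cast hM
  have hM0 : (0 : ℝ) < M := by linarith
  have hnr : 8 * (M : ℝ) ^ 2 ≤ n := by exact_mod_cast hn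
  have hn0 : (0 : ℝ) < n := by nlinarith
  obtain ⟨h, hh⟩ : ∃ h : ℕ, h = ⌊(1 - δ) * n / 2⌋₊ := ⟨_, rfl⟩
  have hh0 : 0 ≤ (1 - δ) * n / 2 := by
    have : 0 ≤ 1 - δ := by linarith
    positivity
  have hh1 : (h : ℝ) ≤ (1 - δ) * n / 2 := by rw [hh]; exact Nat.floor_le hh0
  have hh2 : (1 - δ) * n / 2 < h + 1 := by rw [hh]; exact Nat.lt_floor_add_one _
  have h2hn : 2 * h ≤ n := by
    have : (2 * h : ℝ) ≤ n := by nlinarith
    exact_mod_cast this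
  obtain ⟨m, hm⟩ : ∃ m : ℕ, m = h / M := ⟨_, rfl⟩
  have hm1 : (m : ℝ) ≤ h * δ := by
    have : m * M ≤ h := by rw [hm]; exact Nat.div_mul_le_self h M
    have h2 : (m : ℝ) * M ≤ h := by exact_mod_cast this
    have h3 : (m : ℝ) * M * δ ≤ h * δ := mul_le_mul_of_nonneg_right h2 hδ0.le
    have h4 : (m : ℝ) * M * δ = m := by rw [mul_assoc, mul_comm (M : ℝ) δ, hδM, mul_one]
    linarith
  have hm2 : h * δ ≤ m + 1 := by
    have h1 : h < (m + 1) * M := by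
      rw [hm]; exact Nat.lt_mul_of_div_lt (by omega) (by omega)
    have h2 : (h : ℝ) ≤ ((m : ℝ) + 1) * M := by exact_mod_cast h1.le
    have h3 : (h : ℝ) * δ ≤ ((m : ℝ) + 1) * M * δ := mul_le_mul_of_nonneg_right h2 hδ0.le
    have h4 : ((m : ℝ) + 1) * M * δ = m + 1 := by
      rw [mul_assoc, mul_comm (M : ℝ) δ, hδM, mul_one]
    linarith
  have hδn : 8 * M ≤ δ * n := by
    have h1 : δ * (8 * (M : ℝ) ^ 2) ≤ δ * n := mul_le_mul_of_nonneg_left hnr hδ0.le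
    have h2 : δ * (8 * (M : ℝ) ^ 2) = 8 * M := by
      have : δ * (8 * (M : ℝ) ^ 2) = 8 * (δ * M) * M := by ring
      rw [this, hδM]; ring
    linarith
  have hδ2n : 8 ≤ δ * δ * n := by
    have h1 : δ * (8 * M) ≤ δ * (δ * n) := mul_le_mul_of_nonneg_left hδn hδ0.le
    have h2 : δ * (8 * M) = 8 := by
      have : δ * (8 * M) = 8 * (δ * M) := by ring
      rw [this, hδM]; ring
    linarith
  have hm3 : δ * n / 4 ≤ m := by nlinarith
  have hhr0 : (0 : ℝ) ≤ h := by positivity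
  have h2m : 2 * m ≤ h := by
    have h3 : (2 * m : ℝ) ≤ h := by nlinarith
    exact_mod_cast h3
  have hm0 : 1 ≤ m := by
    have : (1 : ℝ) ≤ m := by nlinarith
    exact_mod_cast this
  have hmn : (m : ℝ) ≤ n := by
    have : m ≤ n := by omega
    exact_mod_cast this
  refine ⟨h, m, h2hn, h2m, hm0, hm3, hmn, ?_, by linarith⟩
  rw [Nat.cast_sub h2m]
  push_cast
  have h1 : (1 - 2 * δ) * ((1 - δ) * n / 2 - 1) ≤ h - 2 * m := by
    have h2 : (1 - 2 * δ) * ((1 - δ) * n / 2 - 1) ≤ (1 - 2 * δ) * h := by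
      apply mul_le_mul_of_nonneg_left _ (by linarith); linarith
    linarith
  have h3 : (1 - 3 * δ) * n / 2 ≤ (1 - 2 * δ) * ((1 - δ) * n / 2 - 1) := by nlinarith
  have h4 : p * ((1 - 3 * δ) * n / 2) ≤ p * (h - 2 * m) :=
    mul_le_mul_of_nonneg_left (h3.trans h1) hp0
  have h5 : p * ((1 - 3 * δ) * n / 2) = (p * n) / 2 * (1 - 3 * δ) := by ring
  rw [h5, hpn] at h4
  exact h4

lemma param_k {n y : ℝ} (hy : 0 < y) (hyn : y ≤ n) :
    ∃ k : ℕ, 1 ≤ k ∧ n / y ≤ k ∧ n ≤ y * k ∧ k * y ≤ 2 * n := by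
  refine ⟨⌈n / y⌉₊, ?_⟩
  have hk1 : n / y ≤ ⌈n / y⌉₊ := Nat.le_ceil _
  have hnx : 1 ≤ n / y := by rw [le_div_iff₀ hy]; linarith
  have hk2 : (⌈n / y⌉₊ : ℝ) < n / y + 1 := Nat.ceil_lt_add_one (by linarith)
  have hk3 : (⌈n / y⌉₊ : ℝ) ≤ 2 * (n / y) := by linarith
  have hk4 : n ≤ y * ⌈n / y⌉₊ := by
    rw [div_le_iff₀ hy] at hk1; linarith
  have hk5 : ⌈n / y⌉₊ * y ≤ 2 * n := by
    have := mul_le_mul_of_nonneg_right hk3 hy.le
    have e : 2 * (n / y) * y = 2 * n := by field_simp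
    linarith
  have hk0 : 1 ≤ ⌈n / y⌉₊ := by
    have : (1 : ℝ) ≤ ⌈n / y⌉₊ := by linarith
    exact_mod_cast this
  exact ⟨hk0, hk1, hk4, hk5⟩

lemma param_s {A x : ℝ} (hA : 2 ≤ A) (hx : 1 ≤ x) :
    ∃ s : ℕ, (s : ℝ) ≤ A * x ∧ A * x / 2 ≤ s ∧ ∀ B : ℕ, (B : ℝ) ≤ A → B ≤ s := by
  refine ⟨⌊A * x⌋₊, Nat.floor_le (by positivity), ?_, ?_⟩
  · have h1 : A * x < ⌊A * x⌋₊ + 1 := Nat.lt_floor_add_one _
    have h2 : 2 ≤ A * x := by nlinarith
    linarith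
  · intro B hB
    apply Nat.le_floor
    nlinarith

lemma ps_bound {p s K k x n c δ M : ℝ} (hp0 : 0 ≤ p) (hx0 : 0 < x) (hK : 0 ≤ K) (hδ0 : 0 ≤ δ)
    (hδM : δ * M = 1)
    (hs : s ≤ K * k * x) (hk5 : k * x ^ 2 ≤ 2 * n) (hpn : p * n = c)
    (hxc : 2 * c * K * M ≤ x) : p * s ≤ δ := by
  have h1 : p * s * x ≤ δ * x := by
    calc p * s * x ≤ p * (K * k * x) * x := by gcongr
      _ = p * K * (k * x ^ 2) := by ring
      _ ≤ p * K * (2 * n) := by apply mul_le_mul_of_nonneg_left hk5; positivity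
      _ = 2 * (p * n) * K * 1 := by ring
      _ = 2 * (p * n) * K * (δ * M) := by rw [hδM]
      _ = δ * (2 * (p * n) * K * M) := by ring
      _ = δ * (2 * c * K * M) := by rw [hpn]
      _ ≤ δ * x := mul_le_mul_of_nonneg_left hxc hδ0
  exact le_of_mul_le_mul_right h1 hx0

lemma small_bound {p k x n c K M : ℝ} (hp0 : 0 ≤ p) (hk : 0 ≤ k) (hx0 : 0 < x) (hc : 0 ≤ c)
    (hK : 8 ≤ K) (hM : 8 ≤ M)
    (hk5 : k * x ^ 2 ≤ 2 * n) (hpn : p * n = c) (hxc : 2 * c * K * M ≤ x) :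
    Real.exp 1 * x ^ 2 * (Real.exp 1 * (k * p)) ^ 2 ≤ Real.exp (-1) := by
  have hexp1 : Real.exp 1 ≤ 3 := by
    have := Real.exp_one_lt_d9; linarith
  have h1 : k * p * x ≤ 2 * c / x := by
    rw [le_div_iff₀ hx0]
    calc k * p * x * x = p * (k * x ^ 2) := by ring
      _ ≤ p * (2 * n) := mul_le_mul_of_nonneg_left hk5 hp0
      _ = 2 * c := by rw [← hpn]; ring
  have h2 : 2 * c / x ≤ 1 / 64 := by
    rw [div_le_iff₀ hx0]
    have : (64 : ℝ) * (2 * c) ≤ x := by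
      refine le_trans ?_ hxc
      have : (64 : ℝ) ≤ K * M := by nlinarith
      nlinarith
    linarith
  have h3 : 0 ≤ k * p * x := by positivity
  have h4 : (k * p * x) ^ 2 ≤ (1 / 64) ^ 2 := pow_le_pow_left₀ h3 (h1.trans h2) 2
  have he0 : 0 < Real.exp 1 := Real.exp_pos 1
  have h5 : Real.exp 1 * x ^ 2 * (Real.exp 1 * (k * p)) ^ 2 =
      Real.exp 1 ^ 3 * (k * p * x) ^ 2 := by ring
  rw [h5, Real.exp_neg, inv_eq_one_div, le_div_iff₀ he0]
  have h6 : Real.exp 1 ^ 4 ≤ 3 ^ 4 := pow_le_pow_left₀ he0.le hexp1 4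
  calc Real.exp 1 ^ 3 * (k * p * x) ^ 2 * Real.exp 1 = Real.exp 1 ^ 4 * (k * p * x) ^ 2 := by
        ring
    _ ≤ 3 ^ 4 * (1 / 64) ^ 2 := mul_le_mul h6 h4 (by positivity) (by positivity)
    _ ≤ 1 := by norm_num

lemma Kkm_bound {K k x n δ M m : ℝ} (hK : 0 ≤ K) (hx0 : 0 < x) (hδM : δ * M = 1) 
    (hm : δ * n / 4 ≤ m) (hn : 0 ≤ n) (hδ : 0 ≤ δ)
    (h1 : 8 * K * M ≤ x ^ 2) (hk5 : k * x ^ 2 ≤ 2 * n) : K * k ≤ m := by
  have hx2 : 0 < x ^ 2 := by positivity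
  have h2 : (K * k : ℝ) * x ^ 2 ≤ m * x ^ 2 := by
    calc (K * k : ℝ) * x ^ 2 = K * (k * x ^ 2) := by ring
      _ ≤ K * (2 * n) := mul_le_mul_of_nonneg_left hk5 hK
      _ = 2 * K * n * 1 := by ring
      _ = 2 * K * n * (δ * M) := by rw [hδM]
      _ = (8 * K * M) * (δ * n / 4) := by ring
      _ ≤ x ^ 2 * m := mul_le_mul h1 hm (by positivity) (by positivity)
      _ = m * x ^ 2 := by ring
  exact le_of_mul_le_mul_right h2 hx2

lemma ratio_bound {K M k θ δ : ℝ} (hM : 8 ≤ M) (hk : 0 < k) (hδM : δ * M = 1) 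
    (hK : K = 8 * M ^ 2) (hθ : θ = 8 * M * k) : 1 - δ ≤ (K * k) / (K * k + θ) := by
  rw [hθ, hK]
  rw [le_div_iff₀ (by positivity)]
  have e : (1 - δ) * (8 * M ^ 2 * k + 8 * M * k) =
      8 * M ^ 2 * k + 8 * k * (M - (δ * M) * M - (δ * M)) := by ring
  rw [e, hδM]
  nlinarith

lemma cross_exponent {c n p x k K s : ℝ} (hp0 : 0 ≤ p) (hk : 0 ≤ k) (hx : 0 ≤ x)
    (hK : 8 ≤ K) (hpn : p * n = c) (hk4 : n ≤ x ^ 2 * k) (hs : K * k * x / 2 ≤ s) :
    16 * c * k ≤ p * (s * s) := by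
  have h2 : (K * k * x / 2) * (K * k * x / 2) ≤ s * s :=
    mul_le_mul hs hs (by positivity) (le_trans (by positivity) hs)
  have h64 : (64 : ℝ) ≤ K * K := by nlinarith
  calc 16 * c * k = 16 * (p * n) * k := by rw [hpn]
    _ ≤ 16 * (p * (x ^ 2 * k)) * k := by gcongr
    _ = p * (64 * (k * x / 2) * (k * x / 2)) := by ring
    _ ≤ p * ((K * K) * (k * x / 2) * (k * x / 2)) := by gcongr
    _ = p * ((K * k * x / 2) * (K * k * x / 2)) := by ring
    _ ≤ p * (s * s) := mul_le_mul_of_nonneg_left h2 hp0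

lemma final_t {δ n m k t x M : ℝ} (hn : 0 < n) (hM : 0 < M) (hδM : δ * M = 1) (ht : 0 ≤ t)
    (hm : δ * n / 4 ≤ m) (h : m ≤ 16 * k * t) (hk : k * x ^ 2 ≤ 2 * n) (hx : 0 < x) :
    x ^ 2 / (512 * M) ≤ t := by
  rw [div_le_iff₀ (by positivity)]
  have h3 : δ * n / 4 * x ^ 2 ≤ 32 * t * n := by
    calc δ * n / 4 * x ^ 2 ≤ 16 * k * t * x ^ 2 := by
          apply mul_le_mul_of_nonneg_right (hm.trans h) (by positivity)
      _ = 16 * t * (k * x ^ 2) := by ring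
      _ ≤ 16 * t * (2 * n) := by apply mul_le_mul_of_nonneg_left hk; positivity
      _ = 32 * t * n := by ring
  have h4 : (δ / 4 * x ^ 2) * n ≤ (32 * t) * n := by linarith
  have h5 : δ / 4 * x ^ 2 ≤ 32 * t := le_of_mul_le_mul_right h4 hn
  have h6 : M * (δ / 4 * x ^ 2) ≤ M * (32 * t) := mul_le_mul_of_nonneg_left h5 hM.le
  have h7 : M * (δ / 4 * x ^ 2) = (δ * M) * x ^ 2 / 4 := by ring
  rw [h7, hδM] at h6
  have h8 : 0 ≤ M * t := by positivity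
  linarith

lemma cmp_final {p n c δ h : ℝ} (hp0 : 0 ≤ p) (hn0 : 0 < n) (hpc : p = c / n) (hc0 : 0 ≤ c)
    (hcn : c ≤ Real.log n) (hδ : δ ≤ 1) (hh : 2 * h ≤ (1 - δ) * n) :
    8 * (p * Real.exp (p * (2 * h))) ≤
      8 * (Real.log n / n * Real.exp ((1 - δ) * Real.log n)) := by
  have h1 : p ≤ Real.log n / n := by rw [hpc]; exact div_le_div_of_nonneg_right hcn hn0.le
  have hpn : p * n = c := by rw [hpc]; field_simp
  have h2 : p * (2 * h) ≤ (1 - δ) * Real.log n := by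
    calc p * (2 * h) ≤ p * ((1 - δ) * n) := mul_le_mul_of_nonneg_left hh hp0
      _ = (1 - δ) * (p * n) := by ring
      _ = (1 - δ) * c := by rw [hpn]
      _ ≤ (1 - δ) * Real.log n := mul_le_mul_of_nonneg_left hcn (by linarith)
  have h3 := Real.exp_le_exp.2 h2
  have h4 : 0 ≤ Real.log n / n := by
    have : 0 ≤ Real.log n := hc0.trans hcn
    positivity
  gcongr

lemma k_large {n x δ c k : ℝ} (hn0 : 0 < n) (hx2 : x ^ 2 = Real.exp ((1 - 6 * δ) * c))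
    (hδ : 0 ≤ 1 - 6 * δ) (hcn : c ≤ Real.log n) (hk1 : n / x ^ 2 ≤ k) :
    n * Real.exp (-((1 - 6 * δ) * Real.log n)) ≤ k := by
  refine le_trans ?_ hk1
  have hx2pos : 0 < x ^ 2 := by rw [hx2]; exact Real.exp_pos _
  rw [Real.exp_neg, ← div_eq_mul_inv]
  apply div_le_div_of_nonneg_left hn0.le hx2pos
  rw [hx2]
  apply Real.exp_le_exp.2
  exact mul_le_mul_of_nonneg_left hcn hδ

/-- The lower bound with explicit parameters. -/
lemma lower_core {M n : ℕ} {c x : ℝ} (hM : 8 ≤ M) (hn : 8 * M ^ 2 ≤ n)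
    (hx : x = Real.exp ((1 - 6 / M) * c / 2))
    (hc : (16 * M * (2 * (8 * M ^ 2) + 2) : ℝ) ≤ c)
    (hxc : 2 * c * (8 * M ^ 2) * M ≤ x) (hcn : c ≤ Real.log n) :
    PP (c / n) (Ed n) (fun S => ¬ ∀ (t : ℕ) (L : Fin t → Fin n → Fin n → Prop),
      IsRealiser (prel n S) t L → x ^ 2 / (512 * M) ≤ t) ≤
      7 * Real.exp (-(n * Real.exp (-((1 - 6 / M) * Real.log n)))) +
        8 * (Real.log n / n * Real.exp ((1 - 1 / M) * Real.log n)) := by
  have hMr : (8 : ℝ) ≤ M := by exact_mod_cast hM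
  have hM0 : (0 : ℝ) < M := by linarith
  obtain ⟨δ, hδ⟩ : ∃ δ : ℝ, δ = 1 / M := ⟨_, rfl⟩
  rw [← hδ]
  have hδ0 : 0 < δ := by rw [hδ]; positivity
  have hδM : δ * M = 1 := by rw [hδ]; field_simp
  have hδ8 : δ ≤ 1 / 8 := by
    rw [hδ]; exact one_div_le_one_div_of_le (by norm_num) hMr
  have h6 : (6 : ℝ) / M = 6 * δ := by rw [hδ]; ring
  rw [h6] at hx ⊢
  have hnr : 8 * (M : ℝ) ^ 2 ≤ n := by exact_mod_cast hn
  have hn0 : (0 : ℝ) < n := by nlinarith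
  have hc0 : (4 : ℝ) ≤ c := by nlinarith [sq_nonneg (M : ℝ)]
  have hx1 : 1 ≤ x := by
    rw [hx]
    apply Real.one_le_exp
    nlinarith
  have hx0 : 0 < x := by linarith
  have hx2 : x ^ 2 = Real.exp ((1 - 6 * δ) * c) := by
    rw [hx, ← Real.exp_nat_mul]; congr 1; push_cast; ring
  have hx2pos : 0 < x ^ 2 := by positivity
  obtain ⟨p, hp⟩ : ∃ p : ℝ, p = c / n := ⟨_, rfl⟩
  rw [← hp]
  have hlogn : Real.log n ≤ n := (Real.log_le_sub_one_of_pos hn0).trans (by linarith)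
  have hp0 : 0 ≤ p := by rw [hp]; positivity
  have hp1 : p ≤ 1 := by rw [hp, div_le_one hn0]; linarith
  have hpn : p * n = c := by rw [hp]; field_simp
  have hx2n : x ^ 2 ≤ n := by
    rw [hx2]
    calc Real.exp ((1 - 6 * δ) * c) ≤ Real.exp (Real.log n) := by
          apply Real.exp_le_exp.2; nlinarith
      _ = n := Real.exp_log hn0
  obtain ⟨h, m, h2hn, h2m, hm0, hm3, hmn, hT, hh⟩ :=
    param_hm hM hn hδM hδ0 hδ8 hp0 hpn (by linarith : 0 ≤ c)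
  obtain ⟨k, hk0, hk1, hk4, hk5⟩ := param_k hx2pos hx2n
  have hk0' : (1 : ℝ) ≤ k := by exact_mod_cast hk0
  obtain ⟨K, hK⟩ : ∃ K : ℕ, K = 8 * M ^ 2 := ⟨_, rfl⟩
  have hKr : (K : ℝ) = 8 * (M : ℝ) ^ 2 := by rw [hK]; push_cast; ring
  rw [← hKr] at hc hxc
  have hK8 : (8 : ℝ) ≤ K := by rw [hKr]; nlinarith
  have hK1 : 1 ≤ K := by
    have : (1 : ℝ) ≤ K := by linarith
    exact_mod_cast this
  have hx2K : (8 : ℝ) * K * M ≤ x ^ 2 := by
    have h0 : (0 : ℝ) ≤ K * M := by positivity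
    have h1 : (8 : ℝ) * (K * M) ≤ x := by nlinarith
    nlinarith
  have hKkm' : (K : ℝ) * k ≤ m := Kkm_bound (by linarith) hx0 hδM hm3 hn0.le hδ0.le hx2K hk5
  have hKkm : K * k ≤ m := by exact_mod_cast hKkm'
  have hKk : (2 : ℝ) ≤ K * k := by nlinarith
  obtain ⟨s, hs1, hs2, hs3⟩ := param_s hKk hx1
  have hs3' : K * k ≤ s := hs3 _ (by push_cast; exact le_rfl)
  have hps : p * s ≤ δ := ps_bound hp0 hx0 (by linarith) hδ0.le hδM hs1 hk5 hpn hxc
  have hps0 : 0 ≤ p * s := by positivity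
  have hsmall := small_bound hp0 (by linarith : (0 : ℝ) ≤ k) hx0 (by linarith : 0 ≤ c) hK8 hMr
    hk5 hpn hxc
  have hpm : c * δ / 4 ≤ p * m := by
    have : p * (δ * n / 4) ≤ p * m := mul_le_mul_of_nonneg_left hm3 hp0
    have e : p * (δ * n / 4) = (p * n) * δ / 4 := by ring
    rw [e, hpn] at this
    exact this
  have hd0 : 16 * (2 * (K : ℝ) + 2) ≤ c * δ := by
    have h1 : (16 * M * (2 * K + 2) : ℝ) * δ ≤ c * δ := mul_le_mul_of_nonneg_right hc hδ0.le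
    have h2 : (16 * M * (2 * K + 2) : ℝ) * δ = 16 * (2 * K + 2) := by
      have : (16 * M * (2 * K + 2) : ℝ) * δ = 16 * (2 * K + 2) * (δ * M) := by ring
      rw [this, hδM]; ring
    linarith
  have hd : ((2 * K + 2 : ℕ) : ℝ) ≤ p * m / 4 := by
    push_cast
    linarith
  have hw : (m : ℝ) ≤ x ^ 2 * k := hmn.trans hk4
  have hchoose : (m.choose k : ℝ) ≤ Real.exp (k * (1 + c)) := by
    refine choose_exp hk0 (hw.trans ?_)
    apply mul_le_mul_of_nonneg_right _ (by linarith)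
    rw [hx2]
    apply Real.exp_le_exp.2
    nlinarith
  obtain ⟨θ, hθ⟩ : ∃ θ : ℕ, θ = 8 * M * k := ⟨_, rfl⟩
  have hθr : (θ : ℝ) = 8 * M * k := by rw [hθ]; push_cast; ring
  have hθ0 : (0 : ℝ) ≤ θ := by positivity
  have hθδ : (θ : ℝ) * δ = 8 * k := by
    rw [hθr]
    have : (8 * M * k : ℝ) * δ = 8 * k * (δ * M) := by ring
    rw [this, hδM]; ring
  have g2 : (1 - δ) ≤ ((K * k : ℕ) : ℝ) / ((K * k : ℕ) + θ) := by
    push_cast
    exact ratio_bound hMr (by linarith : (0 : ℝ) < k) hδM hKr hθr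
  have g3 := growth_exponent (θ := (θ : ℝ)) hδ0 hδ8 (by linarith : 0 ≤ c) hθ0 hps0 hps g2 hT
  have hr : (s : ℝ) / (K * k : ℕ) ≤ Real.exp ((1 - 6 * δ) * c / 2) := by
    rw [← hx]
    push_cast
    rw [div_le_iff₀ (by linarith)]
    linarith
  have g4 := growth_final (θn := θ) rfl hchoose (by positivity : (0 : ℝ) ≤ (s : ℝ) / (K * k : ℕ)) hr g3
    hθδ (by linarith : (0 : ℝ) ≤ k) hc0
  have g5' : 16 * c * k ≤ p * (s * s : ℕ) := by
    push_cast
    exact cross_exponent hp0 (by linarith) hx0.le hK8 hpn hk4 hs2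
  have g5 := cross_final (by positivity) hchoose g5' (by linarith : (0 : ℝ) ≤ k) hc0
  have g6 : 8 * (p * Real.exp (p * (2 * h : ℕ))) ≤
      8 * (Real.log n / n * Real.exp ((1 - δ) * Real.log n)) := by
    push_cast
    exact cmp_final hp0 hn0 hp (by linarith) hcn (by linarith) hh
  have key := lower_union hp0 hp1 h2hn hm0 h2m hk0 hK1 hKkm hs3' hw hsmall hd (by linarith)
    g4 g5 g6
  refine le_trans ?_ (key.trans ?_)
  · refine PP_mono hp0 hp1 fun S _ hbad hgood => ?_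
    apply hbad
    intro t L hL
    have h1 := hgood t L hL
    have h2 : (m : ℝ) ≤ 16 * k * t := by exact_mod_cast h1
    exact final_t hn0 hM0 hδM (by positivity) hm3 h2 hk5 hx0
  · have hkl := k_large hn0 hx2 (by linarith) hcn hk1
    have hml : (k : ℝ) ≤ m := by nlinarith
    have e1 : Real.exp (-(k : ℝ)) ≤ Real.exp (-(n * Real.exp (-((1 - 6 * δ) * Real.log n)))) :=
      Real.exp_le_exp.2 (neg_le_neg hkl)
    have e2 : Real.exp (-(m : ℝ)) ≤ Real.exp (-(n * Real.exp (-((1 - 6 * δ) * Real.log n)))) :=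
      Real.exp_le_exp.2 (neg_le_neg (hkl.trans hml))
    linarith

end Pool.Agent.MP_ef8d06_pr
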