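import Mathlib
import Pool.Agent.MP_ef8d06_pr.Lower

set_option autoImplicit false
set_option linter.unusedSectionVars false
set_option linter.unusedSimpArgs false
set_option linter.unusedVariables false

namespace Pool.Agent.MP_ef8d06_pr

open Finset Filter Topology

lemma tendsto_log_nat : Tendsto (fun n : ℕ => Real.log n) atTop atTop :=
  Real.tendsto_log_atTop.comp tendsto_natCast_atTop_atTop

lemma tendsto_u_exp {δ : ℝ} (hδ : 0 < δ) :
    Tendsto (fun u : ℝ => u * Real.exp (-(δ * u))) atTop (𝓝 0) := by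
  have h1 := (Real.tendsto_pow_mul_exp_neg_atTop_nhds_zero 1).comp
    (tendsto_id.const_mul_atTop hδ)
  have h2 := h1.const_mul (1 / δ)
  rw [mul_zero] at h2
  refine h2.congr fun u => ?_
  simp only [Function.comp_apply, id_eq, pow_one]
  field_simp

lemma tendsto_exp_exp {a : ℝ} (ha : 0 < a) :
    Tendsto (fun u : ℝ => Real.exp (-(Real.exp (a * u)))) atTop (𝓝 0) := by
  have h1 : Tendsto (fun u : ℝ => Real.exp (a * u)) atTop atTop :=
    Real.tendsto_exp_atTop.comp (tendsto_id.const_mul_atTop ha)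
  exact Real.tendsto_exp_neg_atTop_nhds_zero.comp h1

lemma fail_tendsto {M : ℕ} (hM : 8 ≤ M) :
    Tendsto (fun n : ℕ => 7 * Real.exp (-((n : ℝ) * Real.exp (-((1 - 6 / M) * Real.log n)))) +
        8 * (Real.log n / n * Real.exp ((1 - 1 / M) * Real.log n))) atTop (𝓝 0) := by
  have hMr : (8 : ℝ) ≤ M := by exact_mod_cast hM
  have hM0 : (0 : ℝ) < M := by linarith
  have h1 := (tendsto_exp_exp (by positivity : (0 : ℝ) < 6 / M)).const_mul 7
  have h2 := (tendsto_u_exp (by positivity : (0 : ℝ) < 1 / M)).const_mul 8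
  have h3 := (h1.add h2).comp tendsto_log_nat
  simp only [mul_zero, add_zero] at h3
  refine h3.congr' ?_
  filter_upwards [eventually_ge_atTop 1] with n hn
  have hn0 : (0 : ℝ) < n := by exact_mod_cast hn
  simp only [Function.comp_apply]
  have e0 : (n : ℝ) = Real.exp (Real.log n) := (Real.exp_log hn0).symm
  congr 2
  · congr 2
    conv_rhs => rw [e0, Real.log_exp, ← Real.exp_add]
    congr 1
    ring
  · have e1 : Real.log n / n = Real.log n * Real.exp (-Real.log n) := by
      rw [Real.exp_neg, Real.exp_log hn0]; rfl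
    rw [e1, mul_assoc, ← Real.exp_add]
    congr 2
    ring

lemma PP_nonneg' {n : ℕ} {c : ℝ} (hc : 0 ≤ c) (hcn : c ≤ Real.log n) :
    0 ≤ c / n ∧ c / n ≤ 1 := by
  refine ⟨by positivity, ?_⟩
  rcases Nat.eq_zero_or_pos n with rfl | hn
  · simp
  · have hn0 : (0 : ℝ) < n := by exact_mod_cast hn
    rw [div_le_one hn0]
    have := Real.log_le_sub_one_of_pos hn0
    linarith

lemma lower_fixed {M : ℕ} (hM : 8 ≤ M) {η : ℝ} (hη : 0 < η) :
    ∃ N : ℕ, ∀ n ≥ N, ∀ c : ℝ, 2048 * (M : ℝ) ^ 3 ≤ c → c ≤ Real.log n →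
      PP (c / n) (Ed n) (fun S => ¬ Real.exp ((1 - 7 / M) * c) ≤ (orderDim (prel n S) : ℝ)) ≤ η := by
  have hMr : (8 : ℝ) ≤ M := by exact_mod_cast hM
  have hM0 : (0 : ℝ) < M := by linarith
  have h1 := (fail_tendsto hM).eventually (gt_mem_nhds hη)
  obtain ⟨N₀, hN₀⟩ := eventually_atTop.1 h1
  refine ⟨max N₀ (8 * M ^ 2), fun n hn c hc hcn => ?_⟩
  have hn1 : N₀ ≤ n := (le_max_left _ _).trans hn
  have hn2 : 8 * M ^ 2 ≤ n := (le_max_right _ _).trans hn
  have hM2 : (64 : ℝ) ≤ (M : ℝ) ^ 2 := by nlinarith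
  have hM3 : (M : ℝ) ^ 3 = M ^ 2 * M := by ring
  have hc0 : 0 < c := by
    have : 0 < 2048 * (M : ℝ) ^ 3 := by positivity
    linarith
  obtain ⟨hp0, hp1⟩ := PP_nonneg' hc0.le hcn
  have hc1 : (16 * M * (2 * (8 * M ^ 2) + 2) : ℝ) ≤ c := by
    refine le_trans ?_ hc
    nlinarith
  obtain ⟨a, ha⟩ : ∃ a : ℝ, a = (1 - 6 / M) / 2 := ⟨_, rfl⟩
  have ha8 : 1 / 8 ≤ a := by
    rw [ha]
    have : (6 : ℝ) / M ≤ 6 / 8 := div_le_div_of_nonneg_left (by norm_num) (by norm_num) hMr
    linarith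
  have hxa : Real.exp ((1 - 6 / M) * c / 2) = Real.exp (a * c) := by rw [ha]; congr 1; ring
  have hc2 : 2 * c * (8 * M ^ 2) * M ≤ Real.exp ((1 - 6 / M) * c / 2) := by
    rw [hxa]
    have h2 := Real.quadratic_le_exp_of_nonneg (by positivity : 0 ≤ a * c)
    have h3 : c ^ 2 / 64 ≤ (a * c) ^ 2 := by
      have h4 : c / 8 ≤ a * c := by nlinarith
      have h5 : (c / 8) ^ 2 ≤ (a * c) ^ 2 := pow_le_pow_left₀ (by positivity) h4 2
      calc c ^ 2 / 64 = (c / 8) ^ 2 := by ring
        _ ≤ _ := h5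
    have h6 : 2048 * (M : ℝ) ^ 3 * c ≤ c ^ 2 := by nlinarith
    have h7 : 0 ≤ a * c := by positivity
    nlinarith
  have key := lower_core hM hn2 rfl hc1 hc2 hcn
  refine le_trans (PP_mono hp0 hp1 fun S hS hbad hgood => ?_) (key.trans (hN₀ n hn1).le)
  apply hbad
  -- from realisers to the dimension
  have hdim : ⌈Real.exp ((1 - 7 / M) * c)⌉₊ ≤ orderDim (prel n S) := by
    refine le_orderDim (prel n S) (prel_refl n S) (prel_trans n S) (prel_le hS) _ ?_
    intro t L hL
    apply Nat.ceil_le.2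
    refine le_trans ?_ (hgood t L hL)
    rw [le_div_iff₀ (by positivity), ← Real.exp_nat_mul]
    have h2 : 512 * (M : ℝ) ≤ Real.exp (c / M) := by
      have h3 := Real.add_one_le_exp (c / M)
      have h4 : 512 * (M : ℝ) ≤ c / M := by
        rw [le_div_iff₀ hM0]
        nlinarith
      linarith
    calc Real.exp ((1 - 7 / M) * c) * (512 * M) ≤
          Real.exp ((1 - 7 / M) * c) * Real.exp (c / M) :=
          mul_le_mul_of_nonneg_left h2 (Real.exp_pos _).le
      _ = Real.exp (((2 : ℕ) : ℝ) * ((1 - 6 / M) * c / 2)) := by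
          rw [← Real.exp_add]; congr 1; push_cast; ring
  calc Real.exp ((1 - 7 / M) * c) ≤ (⌈Real.exp ((1 - 7 / M) * c)⌉₊ : ℝ) := Nat.le_ceil _
    _ ≤ _ := by exact_mod_cast hdim

/-- The dimension is at least `2` with high probability. -/
lemma lower_trivial {η : ℝ} (hη : 0 < η) :
    ∃ N : ℕ, ∀ n ≥ N, ∀ c : ℝ, 1 ≤ c → c ≤ Real.log n →
      PP (c / n) (Ed n) (fun S => ¬ 2 ≤ orderDim (prel n S)) ≤ η := by
  have h0 : Tendsto (fun n : ℕ => Real.log n / n) atTop (𝓝 0) := by
    have h1 := (Real.tendsto_pow_mul_exp_neg_atTop_nhds_zero 1).comp tendsto_log_nat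
    refine h1.congr' ?_
    filter_upwards [eventually_ge_atTop 1] with n hn
    have hn0 : (0 : ℝ) < n := by exact_mod_cast hn
    simp only [Function.comp_apply, pow_one]
    rw [Real.exp_neg, Real.exp_log hn0]; rfl
  obtain ⟨N₀, hN₀⟩ := eventually_atTop.1 (h0.eventually (gt_mem_nhds hη))
  refine ⟨max N₀ 2, fun n hn c hc hcn => ?_⟩
  have hn1 : N₀ ≤ n := (le_max_left _ _).trans hn
  have hn2 : 2 ≤ n := (le_max_right _ _).trans hn
  obtain ⟨hp0, hp1⟩ := PP_nonneg' (by linarith : 0 ≤ c) hcn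
  have hn0 : (0 : ℝ) < n := by exact_mod_cast (by omega : 0 < n)
  have hsub : ({(0, 1)} : Finset (ℕ × ℕ)) ⊆ Ed n := by
    intro e he
    rw [Finset.mem_singleton] at he
    rw [he, mem_Ed]
    simp only
    omega
  have h2 := PP_contains (c / n) hsub
  rw [Finset.card_singleton, pow_one] at h2
  refine le_trans (PP_mono hp0 hp1 (R := fun S => ({(0, 1)} : Finset (ℕ × ℕ)) ⊆ S) ?_) ?_
  · intro S hS hbad
    by_contra hcon
    apply hbad
    rw [Finset.singleton_subset_iff] at hcon
    refine le_orderDim (prel n S) (prel_refl n S) (prel_trans n S) (prel_le hS) _ ?_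
    intro t L hL
    by_contra ht
    push Not at ht
    obtain ⟨hlin, hiff⟩ := hL
    -- the two points
    set a : Fin n := ⟨0, by omega⟩ with ha
    set b : Fin n := ⟨1, by omega⟩ with hb
    have hab : ¬ prel n S a b := by
      intro hab
      have hab' : pleq S 0 1 := hab
      have h3 := mem_reach_of_pleq hS (Finset.mem_singleton_self 0) (by norm_num : 0 < 2) hab'
        (by norm_num : 1 < 2)
      rw [mem_reach_iff S {0} (by norm_num : 1 < 2)] at h3
      rcases h3 with h3 | ⟨u, hu, hu'⟩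
      · simp at h3
      · have h4 := mem_Ed.1 (hS hu')
        simp only at h4
        have h5 : u = 0 := by omega
        rw [h5] at hu'
        exact hcon hu'
    have hba : ¬ prel n S b a := by
      intro hba
      have h3 := prel_le hS b a hba
      rw [ha, hb, Fin.le_def] at h3
      simp at h3
    interval_cases t
    · exact hab ((hiff a b).2 (fun i => i.elim0))
    · haveI := hlin 0
      rcases total_of (L 0) a b with h3 | h3
      · exact hab ((hiff a b).2 (fun i => by rw [Subsingleton.elim i 0]; exact h3))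
      · exact hba ((hiff b a).2 (fun i => by rw [Subsingleton.elim i 0]; exact h3))
  · rw [h2]
    refine le_trans ?_ (hN₀ n hn1).le
    exact div_le_div_of_nonneg_right hcn hn0.le

end Pool.Agent.MP_ef8d06_pr
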