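import Mathlib
import Pool.Agent.MP_ef8d06_pr.Glue
import Pool.Agent.MP_ef8d06_pr.Defs

set_option autoImplicit false
set_option linter.unusedSectionVars false
set_option linter.unusedSimpArgs false
set_option linter.unusedVariables false

namespace Pool.Agent.MP_ef8d06_pr

open Finset

open Classical in
/-- the edges of a graph as a set of increasing pairs -/
noncomputable def pairs (n : ℕ) (G : SimpleGraph (Fin n)) : Finset (ℕ × ℕ) :=
  (Finset.univ.filter (fun e : Fin n × Fin n => e.1 < e.2 ∧ G.Adj e.1 e.2)).image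
    (fun e => ((e.1 : ℕ), (e.2 : ℕ)))

lemma mem_pairs {n : ℕ} {G : SimpleGraph (Fin n)} {i j : Fin n} :
    ((i : ℕ), (j : ℕ)) ∈ pairs n G ↔ i < j ∧ G.Adj i j := by
  classical
  simp only [pairs, mem_image, mem_filter, mem_univ, true_and, Prod.mk.injEq, Prod.exists]
  constructor
  · rintro ⟨a, b, h, h1, h2⟩
    have e1 : a = i := Fin.ext h1
    have e2 : b = j := Fin.ext h2
    rwa [e1, e2] at h
  · intro h
    exact ⟨i, j, h, rfl, rfl⟩

lemma pairs_subset (n : ℕ) (G : SimpleGraph (Fin n)) : pairs n G ⊆ Ed n := by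
  classical
  intro e he
  simp only [pairs, mem_image, mem_filter, mem_univ, true_and] at he
  obtain ⟨⟨a, b⟩, h, rfl⟩ := he
  rw [mem_Ed]
  exact ⟨h.1, b.2⟩

lemma pairs_injective (n : ℕ) : Function.Injective (pairs n) := by
  intro G H h
  ext i j
  rcases lt_trichotomy i j with hij | rfl | hij
  · have h1 := mem_pairs (G := G) (i := i) (j := j)
    have h2 := mem_pairs (G := H) (i := i) (j := j)
    rw [h] at h1
    rw [h1] at h2
    constructor
    · intro h3; exact (h2.1 ⟨hij, h3⟩).2
    · intro h3; exact (h2.2 ⟨hij, h3⟩).2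
  · simp
  · have h1 := mem_pairs (G := G) (i := j) (j := i)
    have h2 := mem_pairs (G := H) (i := j) (j := i)
    rw [h] at h1
    rw [h1] at h2
    constructor
    · intro h3; exact (h2.1 ⟨hij, h3.symm⟩).2.symm
    · intro h3; exact (h2.2 ⟨hij, h3.symm⟩).2.symm

lemma exists_pairs {n : ℕ} {S : Finset (ℕ × ℕ)} (hS : S ⊆ Ed n) : ∃ G, pairs n G = S := by
  classical
  refine ⟨SimpleGraph.fromRel (fun i j : Fin n => ((i : ℕ), (j : ℕ)) ∈ S), ?_⟩
  ext ⟨a, b⟩
  constructor
  · intro h
    have h1 := mem_Ed.1 (pairs_subset n _ h)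
    have ha : a < n := by simp only at h1; omega
    have hb : b < n := h1.2
    have h2 := (mem_pairs (i := ⟨a, ha⟩) (j := ⟨b, hb⟩)).1 h
    rw [SimpleGraph.fromRel_adj] at h2
    rcases h2.2.2 with h3 | h3
    · exact h3
    · have h4 := mem_Ed.1 (hS h3)
      simp only at h4 h1
      omega
  · intro h
    have h1 := mem_Ed.1 (hS h)
    have ha : a < n := by simp only at h1; omega
    have hb : b < n := h1.2
    refine (mem_pairs (i := ⟨a, ha⟩) (j := ⟨b, hb⟩)).2 ⟨h1.1, ?_⟩
    rw [SimpleGraph.fromRel_adj]
    refine ⟨?_, Or.inl h⟩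
    intro h2
    have := congrArg Fin.val h2
    simp only at this h1
    omega

lemma prel_pairs {n : ℕ} (G : SimpleGraph (Fin n)) : prel n (pairs n G) = graphOrder n G := by
  funext x y
  apply propext
  constructor
  · intro h
    unfold prel pleq at h
    have key : ∀ z : ℕ, Relation.ReflTransGen (fun u v => (u, v) ∈ pairs n G) (x : ℕ) z →
        ∃ hz : z < n, graphOrder n G x ⟨z, hz⟩ := by
      intro z hz
      induction hz with
      | refl => exact ⟨x.2, Relation.ReflTransGen.refl⟩
      | @tail b c _ hbc ih =>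
        obtain ⟨hb, ih⟩ := ih
        have h1 := mem_Ed.1 (pairs_subset n G hbc)
        refine ⟨h1.2, ih.tail ?_⟩
        exact (mem_pairs (i := ⟨b, hb⟩) (j := ⟨c, h1.2⟩)).1 hbc
    obtain ⟨hz, h2⟩ := key y h
    exact h2
  · intro h
    unfold prel pleq
    induction h with
    | refl => exact Relation.ReflTransGen.refl
    | tail _ hbc ih => exact ih.tail (mem_pairs.2 hbc)

lemma card_Ed (n : ℕ) : (Ed n).card = n.choose 2 := by
  induction n with
  | zero => rfl
  | succ n ih =>
    rw [Ed_succ, Finset.card_union_of_disjoint (disjoint_Ed_star le_rfl), ih]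
    have : (star n).card = n := by
      rw [star, Finset.card_image_of_injective, card_range]
      intro a b h
      exact (Prod.mk.inj h).1
    have h2 : (n + 1).choose 2 = n.choose 1 + n.choose 2 := Nat.choose_succ_succ' n 1
    rw [this, h2, Nat.choose_one_right]
    omega

lemma card_pairs (n : ℕ) (G : SimpleGraph (Fin n)) : (pairs n G).card = G.edgeSet.ncard := by
  classical
  have h1 : G.edgeSet = (fun e : Fin n × Fin n => s(e.1, e.2)) ''
      (Finset.univ.filter (fun e : Fin n × Fin n => e.1 < e.2 ∧ G.Adj e.1 e.2) :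
        Set (Fin n × Fin n)) := by
    ext e
    induction e using Sym2.ind with
    | _ x y =>
      simp only [SimpleGraph.mem_edgeSet, Finset.coe_filter, mem_univ, true_and, Set.mem_image,
        Set.mem_ofPred_eq, Prod.exists]
      constructor
      · intro h
        rcases lt_trichotomy x y with hxy | rfl | hxy
        · exact ⟨x, y, ⟨hxy, h⟩, rfl⟩
        · simp at h
        · exact ⟨y, x, ⟨hxy, h.symm⟩, Sym2.eq_swap⟩
      · rintro ⟨a, b, ⟨hab, h⟩, h2⟩
        rw [Sym2.eq_iff] at h2
        rcases h2 with ⟨rfl, rfl⟩ | ⟨rfl, rfl⟩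
        · exact h
        · exact h.symm
  rw [h1, Set.InjOn.ncard_image, Set.ncard_coe_finset, pairs, Finset.card_image_of_injective]
  · intro a b h
    simp only [Prod.mk.injEq] at h
    exact Prod.ext (Fin.ext h.1) (Fin.ext h.2)
  · intro a ha b hb h
    have ha' := (Finset.mem_filter.1 (Finset.mem_coe.1 ha)).2
    have hb' := (Finset.mem_filter.1 (Finset.mem_coe.1 hb)).2
    simp only [Sym2.eq_iff] at h
    rcases h with ⟨h2, h3⟩ | ⟨h2, h3⟩
    · exact Prod.ext h2 h3
    · exfalso
      have h4 := ha'.1
      rw [h2, h3] at h4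
      exact absurd h4 (not_lt.2 hb'.1.le)

instance (n : ℕ) : MeasurableSingletonClass (SimpleGraph (Fin n)) where
  measurableSet_singleton G := by
    have h : ({G} : Set (SimpleGraph (Fin n))) =
        ⋂ i, ⋂ j, {H : SimpleGraph (Fin n) | H.Adj i j ↔ G.Adj i j} := by
      ext H
      simp only [Set.mem_singleton_iff, Set.mem_iInter]
      constructor
      · rintro rfl i j; exact Iff.rfl
      · intro h; ext i j; exact h i j
    rw [h]
    refine MeasurableSet.iInter fun i => MeasurableSet.iInter fun j => ?_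
    have hm : Measurable (fun H : SimpleGraph (Fin n) => H.Adj i j) :=
      SimpleGraph.measurable_iff_adj.1 measurable_id i j
    by_cases hG : G.Adj i j
    · have e : {H : SimpleGraph (Fin n) | H.Adj i j ↔ G.Adj i j} = {H | H.Adj i j} := by
        ext H; simp [hG]
      rw [e]
      exact measurableSet_setOfPred.2 hm
    · have e : {H : SimpleGraph (Fin n) | H.Adj i j ↔ G.Adj i j} = {H | ¬ H.Adj i j} := by
        ext H; simp [hG]
      rw [e]
      exact measurableSet_setOfPred.2 hm.not

open Classical in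
/-- The link between the binomial random graph of Mathlib and the sums used in the proof. -/
lemma binomialRandom_eq (n : ℕ) (p : unitInterval) (Q : Finset (ℕ × ℕ) → Prop) :
    (SimpleGraph.binomialRandom (Fin n) p) {G | Q (pairs n G)} =
      ENNReal.ofReal (PP (p : ℝ) (Ed n) Q) := by
  have hfin : Fintype (SimpleGraph (Fin n)) := Fintype.ofFinite _
  have h1 : ({G | Q (pairs n G)} : Set (SimpleGraph (Fin n))) =
      ((Finset.univ.filter (fun G => Q (pairs n G)) : Finset (SimpleGraph (Fin n))) :
        Set (SimpleGraph (Fin n))) := by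
    ext G; simp
  rw [h1, ← MeasureTheory.sum_measure_singleton]
  have h2 : ∀ G : SimpleGraph (Fin n), (SimpleGraph.binomialRandom (Fin n) p) {G} =
      ENNReal.ofReal ((p : ℝ) ^ (pairs n G).card *
        (1 - (p : ℝ)) ^ ((Ed n).card - (pairs n G).card)) := by
    intro G
    rw [SimpleGraph.binomialRandom_singleton, card_pairs, card_Ed, Nat.card_eq_fintype_card,
      Fintype.card_fin]
    have hp0 : (0 : ℝ) ≤ p := p.2.1
    have hp1 : (0 : ℝ) ≤ 1 - p := by linarith [p.2.2]
    rw [ENNReal.ofReal_mul (pow_nonneg hp0 _), ENNReal.ofReal_pow hp0, ENNReal.ofReal_pow hp1]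
    congr 2
    · rw [ENNReal.ofReal]
      congr 2
      ext
      simp [hp0]
    · rw [ENNReal.ofReal]
      congr 2
      ext
      simp [hp1]
  simp only [h2]
  rw [← ENNReal.ofReal_sum_of_nonneg]
  · congr 1
    unfold PP EE
    rw [Finset.sum_filter]
    have himg : (Ed n).powerset = Finset.univ.image (pairs n) := by
      ext S
      simp only [Finset.mem_powerset, Finset.mem_image, Finset.mem_univ, true_and]
      constructor
      · intro hS; exact exists_pairs hS
      · rintro ⟨G, rfl⟩; exact pairs_subset n G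
    rw [himg, Finset.sum_image (fun a _ b _ h => pairs_injective n h)]
    refine Finset.sum_congr rfl fun G _ => ?_
    by_cases hQ : Q (pairs n G) <;> simp [hQ]
  · intro G _
    have hp0 : (0 : ℝ) ≤ p := p.2.1
    have hp1 : (0 : ℝ) ≤ 1 - p := by linarith [p.2.2]
    positivity

end Pool.Agent.MP_ef8d06_pr
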