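import Mathlib
import Pool.Agent.MP_ef8d06_pr.Asym

set_option autoImplicit false
set_option linter.unusedSectionVars false
set_option linter.unusedSimpArgs false
set_option linter.unusedVariables false
set_option linter.style.haveILetI false

namespace Pool.Agent.MP_ef8d06_pr

open Finset Filter Topology

lemma dim_le_of_reach {n : ℕ} {S : Finset (ℕ × ℕ)} (hS : S ⊆ Ed n) (K : ℕ) (hK : 1 ≤ K)
    (h : ∀ a < n, (reach S {a} n).card ≤ K) (t : ℕ)
    (ht : 2 * Real.log n < t / (Real.exp 1 * (K + 1))) :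
    orderDim (prel n S) ≤ t + 1 := by
  refine orderDim_le_of_upsets (prel n S) (prel_refl n S) (prel_trans n S) (prel_le hS)
    (fun x => toFin n (reach S {(x : ℕ)} n)) ?_ K hK ?_ t (by rw [Fintype.card_fin]; exact ht)
  · intro x y
    simp only [toFin, mem_filter, mem_univ, true_and]
    constructor
    · intro h1
      obtain ⟨a, ha, h2⟩ := pleq_of_mem_reach h1
      rw [Finset.mem_singleton] at ha
      rw [ha] at h2
      exact h2
    · intro h1
      exact mem_reach_of_pleq hS (Finset.mem_singleton_self _) x.2 h1 y.2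
  · intro x
    rw [toFin_card (reach_subset_range _ _ _)]
    exact h x x.2

lemma upper_large {n : ℕ} {c : ℝ} (hn : 1 ≤ Real.log n) (hc1 : 1 ≤ c) (hcn : c ≤ Real.log n) :
    PP (c / n) (Ed n) (fun S => ¬ (orderDim (prel n S) : ℝ) ≤
      100 * Real.log n ^ 2 * Real.exp c) ≤ 1 / n := by
  have hn0 : (0 : ℝ) < n := by
    rcases Nat.eq_zero_or_pos n with rfl | h
    · simp at hn; linarith
    · exact_mod_cast h
  obtain ⟨hp0, hp1⟩ := PP_nonneg' (by linarith : 0 ≤ c) hcn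
  have hpn : c / n * n = c := by field_simp
  obtain ⟨L, hL⟩ : ∃ L : ℝ, L = Real.log n := ⟨_, rfl⟩
  rw [← hL] at hn hcn ⊢
  obtain ⟨E, hE⟩ : ∃ E : ℝ, E = Real.exp c := ⟨_, rfl⟩
  rw [← hE]
  have hE1 : 1 ≤ E := by rw [hE]; exact Real.one_le_exp (by linarith)
  obtain ⟨q, hq⟩ : ∃ q : ℕ, q = ⌈2 * L⌉₊ := ⟨_, rfl⟩
  have hq1 : 2 * L ≤ q := by rw [hq]; exact Nat.le_ceil _
  have hq2 : (q : ℝ) < 2 * L + 1 := by rw [hq]; exact Nat.ceil_lt_add_one (by positivity)
  have he0 : 0 < Real.exp 1 := Real.exp_pos 1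
  have he1 : Real.exp 1 ≤ 2.72 := by
    have := Real.exp_one_lt_d9; linarith
  have he2 : 2.7 ≤ Real.exp 1 := by
    have := Real.exp_one_gt_d9; linarith
  obtain ⟨K, hK⟩ : ∃ K : ℕ, K = ⌈Real.exp 1 * q * E⌉₊ := ⟨_, rfl⟩
  have hK1 : Real.exp 1 * q * E ≤ K := by rw [hK]; exact Nat.le_ceil _
  have hK2 : (K : ℝ) < Real.exp 1 * q * E + 1 := by
    rw [hK]; exact Nat.ceil_lt_add_one (by positivity)
  have hqE : 2 ≤ (q : ℝ) * E := by nlinarith
  have hK0 : (1 : ℝ) ≤ K := by nlinarith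
  have hK0' : 1 ≤ K := by exact_mod_cast hK0
  -- probability
  have hprob : PP (c / n) (Ed n) (fun S => ∃ a ∈ range n, K ≤ (reach S {a} n).card) ≤ 1 / n := by
    refine (PP_exists_le hp0 hp1 _ _ _).trans ?_
    have h1 : ∀ a ∈ range n, PP (c / n) (Ed n) (fun S => K ≤ (reach S {a} n).card) ≤
        1 / n * (1 / n) := by
      intro a ha
      refine (upper_tail hp0 hp1 (mem_range.1 ha) q K hK0').trans ?_
      rw [hpn, ← hE]
      have h2 : E * q / K ≤ Real.exp (-1) := by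
        rw [div_le_iff₀ (by linarith), Real.exp_neg]
        have h3 : (Real.exp 1)⁻¹ * (Real.exp 1 * q * E) ≤ (Real.exp 1)⁻¹ * K :=
          mul_le_mul_of_nonneg_left hK1 (by positivity)
        have h4 : (Real.exp 1)⁻¹ * (Real.exp 1 * q * E) = E * q := by
          field_simp
        linarith
      calc (E * q / K) ^ q ≤ (Real.exp (-1)) ^ q := pow_le_pow_left₀ (by positivity) h2 q
        _ = Real.exp (-q) := by rw [← Real.exp_nat_mul]; ring_nf
        _ ≤ Real.exp (-L + -L) := Real.exp_le_exp.2 (by linarith)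
        _ = 1 / n * (1 / n) := by
            rw [Real.exp_add, Real.exp_neg, hL, Real.exp_log hn0, one_div]
    refine (Finset.sum_le_sum h1).trans ?_
    rw [Finset.sum_const, card_range, nsmul_eq_mul]
    apply le_of_eq
    field_simp
  refine le_trans (PP_mono hp0 hp1 fun S hS hbad => ?_) hprob
  by_contra hcon
  push Not at hcon
  apply hbad
  obtain ⟨t, ht⟩ : ∃ t : ℕ, t = ⌊2 * L * (Real.exp 1 * (K + 1))⌋₊ + 1 := ⟨_, rfl⟩
  have ht1 : 2 * L * (Real.exp 1 * (K + 1)) < t := by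
    rw [ht]; push_cast; exact Nat.lt_floor_add_one _
  have ht2 : (t : ℝ) ≤ 2 * L * (Real.exp 1 * (K + 1)) + 1 := by
    rw [ht]; push_cast
    have := Nat.floor_le (by positivity : 0 ≤ 2 * L * (Real.exp 1 * ((K : ℝ) + 1)))
    linarith
  have h1 := dim_le_of_reach hS K hK0' (fun a ha => (hcon a (mem_range.2 ha)).le) t (by
    rw [← hL, lt_div_iff₀ (by positivity)]; exact ht1)
  have h2 : (orderDim (prel n S) : ℝ) ≤ t + 1 := by exact_mod_cast h1
  refine h2.trans ?_
  have hLE : 1 ≤ L * E := by nlinarith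
  have h3 : (K : ℝ) + 1 ≤ 11 * (L * E) := by
    have h5 : (q : ℝ) ≤ 3 * L := by linarith
    have h6 : (q : ℝ) * E ≤ 3 * L * E := mul_le_mul_of_nonneg_right h5 (by linarith)
    have h7 : Real.exp 1 * (q * E) ≤ 2.72 * (3 * L * E) :=
      mul_le_mul he1 h6 (by positivity) (by norm_num)
    nlinarith
  have h4 : Real.exp 1 * ((K : ℝ) + 1) ≤ 2.72 * (11 * (L * E)) :=
    mul_le_mul he1 h3 (by positivity) (by norm_num)
  have h5 : 2 * L * (Real.exp 1 * ((K : ℝ) + 1)) ≤ 2 * L * (2.72 * (11 * (L * E))) :=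
    mul_le_mul_of_nonneg_left h4 (by positivity)
  have h6 : 1 ≤ L ^ 2 * E := by nlinarith
  nlinarith

end Pool.Agent.MP_ef8d06_pr
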