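import Mathlib
import Pool.Agent.MP_ef8d06_pr.Upper
import Pool.Agent.MP_ef8d06_pr.Link

set_option autoImplicit false
set_option linter.unusedSectionVars false
set_option linter.unusedSimpArgs false
set_option linter.unusedVariables false
set_option linter.style.haveILetI false

namespace Pool.Agent.MP_ef8d06_pr

open Finset Filter Topology

/-- There is a function tending to one which works uniformly in the lower bound. -/
lemma exists_beta : ∃ β : ℝ → ℝ, (∀ c, 1 ≤ c → 0 < β c) ∧ Tendsto β atTop (𝓝 1) ∧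
    ∀ η : ℝ, 0 < η → ∃ N : ℕ, ∀ n ≥ N, ∀ c : ℝ, 1 ≤ c → c ≤ Real.log n →
      PP (c / n) (Ed n) (fun S => ¬ Real.exp (β c * c) ≤ (orderDim (prel n S) : ℝ)) ≤ η := by
  classical
  have hchoose : ∀ j : ℕ, ∀ η : ℝ, ∃ N : ℕ, 8 ≤ j → 0 < η → ∀ n ≥ N, ∀ c : ℝ,
      2048 * (j : ℝ) ^ 3 ≤ c → c ≤ Real.log n →
      PP (c / n) (Ed n) (fun S => ¬ Real.exp ((1 - 7 / j) * c) ≤ (orderDim (prel n S) : ℝ)) ≤ η := by
    intro j η
    by_cases hj : 8 ≤ j ∧ 0 < η
    · obtain ⟨N, hN⟩ := lower_fixed hj.1 hj.2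
      exact ⟨N, fun _ _ => hN⟩
    · exact ⟨0, fun h1 h2 => absurd ⟨h1, h2⟩ hj⟩
  choose N hN using hchoose
  set D : ℕ → ℝ := fun j => max (2048 * (j : ℝ) ^ 3) (Real.log (N j (1 / j))) with hD
  set J : ℝ → ℕ := fun c => Nat.findGreatest (fun j => D j ≤ c) ⌊c⌋₊ with hJ
  set β : ℝ → ℝ := fun c => if 8 ≤ J c then 1 - 7 / (J c : ℝ) else Real.log 2 / c with hβ
  have hJtend : Tendsto J atTop atTop := by
    refine tendsto_atTop.2 fun j => ?_
    filter_upwards [eventually_ge_atTop (j : ℝ), eventually_ge_atTop (D j)] with c h1 h2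
    exact Nat.le_findGreatest (Nat.le_floor h1) h2
  have hJD : ∀ c, 8 ≤ J c → D (J c) ≤ c := by
    intro c h8
    have := Nat.findGreatest_of_ne_zero (P := fun j => D j ≤ c) (n := ⌊c⌋₊) (m := J c) rfl
      (by omega)
    exact this
  refine ⟨β, ?_, ?_, ?_⟩
  · intro c hc
    rw [hβ]
    beta_reduce
    split_ifs with h8
    · have h8' : (8 : ℝ) ≤ J c := by exact_mod_cast h8
      have : (7 : ℝ) / J c ≤ 7 / 8 := div_le_div_of_nonneg_left (by norm_num) (by norm_num) h8'
      linarith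
    · have := Real.log_pos (by norm_num : (1 : ℝ) < 2)
      positivity
  · have h1 : Tendsto (fun c => 1 - 7 / (J c : ℝ)) atTop (𝓝 1) := by
      have h2 : Tendsto (fun c => (J c : ℝ)) atTop atTop :=
        tendsto_natCast_atTop_atTop.comp hJtend
      have h3 := (tendsto_const_nhds (x := (7 : ℝ))).div_atTop h2
      have h4 := (tendsto_const_nhds (x := (1 : ℝ))).sub h3
      rwa [sub_zero] at h4
    refine h1.congr' ?_
    filter_upwards [hJtend.eventually_ge_atTop 8] with c h8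
    rw [hβ]
    beta_reduce
    rw [if_pos h8]
  · intro η hη
    obtain ⟨N₀, hN₀⟩ := lower_trivial hη
    obtain ⟨j₀, hj₀⟩ := exists_nat_gt (1 / η)
    refine ⟨max N₀ (max 1 ((range j₀).sup (fun j => N j η))), fun n hn c hc hcn => ?_⟩
    have hn0 : N₀ ≤ n := (le_max_left _ _).trans hn
    have hn1 : 1 ≤ n := (le_max_left _ _).trans ((le_max_right _ _).trans hn)
    have hn2 : (range j₀).sup (fun j => N j η) ≤ n :=
      (le_max_right _ _).trans ((le_max_right _ _).trans hn)
    have hn1' : (0 : ℝ) < n := by exact_mod_cast hn1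
    obtain ⟨hp0, hp1⟩ := PP_nonneg' (by linarith : 0 ≤ c) hcn
    by_cases h8 : 8 ≤ J c
    · have hβc : β c = 1 - 7 / (J c : ℝ) := by rw [hβ]; beta_reduce; rw [if_pos h8]
      rw [hβc]
      have hJc := hJD c h8
      have hc1 : 2048 * (J c : ℝ) ^ 3 ≤ c := (le_max_left _ _).trans hJc
      by_cases hjj : J c < j₀
      · have h3 : N (J c) η ≤ n := by
          refine le_trans ?_ hn2
          exact Finset.le_sup (f := fun j => N j η) (mem_range.2 hjj)
        exact hN (J c) η h8 hη n h3 c hc1 hcn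
      · push Not at hjj
        have hJ0 : (0 : ℝ) < J c := by
          have : (8 : ℝ) ≤ J c := by exact_mod_cast h8
          linarith
        have h3 : Real.log (N (J c) (1 / (J c : ℕ))) ≤ Real.log n :=
          (le_max_right _ _).trans (hJc.trans hcn)
        have h4 : N (J c) (1 / (J c : ℕ)) ≤ n := by
          rcases Nat.eq_zero_or_pos (N (J c) (1 / (J c : ℕ))) with h0 | h0
          · rw [h0]; exact Nat.zero_le _
          · have h5 : (0 : ℝ) < N (J c) (1 / (J c : ℕ)) := by exact_mod_cast h0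
            have h6 := (Real.log_le_log_iff h5 hn1').1 h3
            exact_mod_cast h6
        have h5 := hN (J c) (1 / (J c : ℕ)) h8 (by positivity) n h4 c hc1 hcn
        refine h5.trans ?_
        have h6 : 1 / η < (J c : ℝ) := lt_of_lt_of_le hj₀ (by exact_mod_cast hjj)
        rw [div_lt_iff₀ hη] at h6
        rw [div_le_iff₀ hJ0]
        linarith
    · have hβc : β c = Real.log 2 / c := by rw [hβ]; beta_reduce; rw [if_neg h8]
      have h9 : Real.exp (β c * c) = 2 := by
        rw [hβc, div_mul_cancel₀ _ (by linarith : c ≠ 0), Real.exp_log (by norm_num)]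
      rw [h9]
      refine le_trans (PP_mono hp0 hp1 fun S hS hbad h2 => ?_) (hN₀ n hn0 c hc hcn)
      apply hbad
      exact_mod_cast h2

/-- Passage from the sums to the measure on graphs. -/
lemma tendsto_of_PP (p : ℕ → unitInterval) (Q : ℕ → Finset (ℕ × ℕ) → Prop)
    (h : ∀ η : ℝ, 0 < η → ∀ᶠ n in atTop, PP (p n : ℝ) (Ed n) (fun S => ¬ Q n S) ≤ η) :
    Tendsto (fun n => (SimpleGraph.binomialRandom (Fin n) (p n)) {G | Q n (pairs n G)})
      atTop (𝓝 1) := by
  have h1 : ∀ n, (SimpleGraph.binomialRandom (Fin n) (p n)) {G | Q n (pairs n G)} =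
      ENNReal.ofReal (PP (p n : ℝ) (Ed n) (Q n)) := fun n => binomialRandom_eq n (p n) (Q n)
  simp only [h1]
  rw [← ENNReal.ofReal_one]
  refine ENNReal.tendsto_ofReal ?_
  rw [Metric.tendsto_atTop]
  intro ε hε
  obtain ⟨N, hN⟩ := eventually_atTop.1 (h (ε / 2) (by positivity))
  refine ⟨N, fun n hn => ?_⟩
  have h2 := hN n hn
  rw [PP_compl] at h2
  have h3 := PP_le_one (p n).2.1 (p n).2.2 (Ed n) (Q n)
  rw [Real.dist_eq, abs_sub_comm, abs_of_nonneg (by linarith)]
  linarith

/-- The value of the exponent in the upper bound. -/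
lemma gamma_bound {c L : ℝ} (hc : 1 ≤ c) (hL : 1 ≤ L) (h : Real.log L ^ 2 ≤ c) :
    100 * L ^ 2 * Real.exp c ≤ Real.exp ((1 + 2 / Real.sqrt c + 5 / c) * c) := by
  have hs : 0 < Real.sqrt c := Real.sqrt_pos.2 (by linarith)
  have h1 : Real.log L ≤ Real.sqrt c := Real.le_sqrt_of_sq_le h
  have h2 : L ≤ Real.exp (Real.sqrt c) := by
    rw [← Real.exp_log (by linarith : 0 < L)]
    exact Real.exp_le_exp.2 h1
  have e : (1 + 2 / Real.sqrt c + 5 / c) * c = 5 + 2 * Real.sqrt c + c := by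
    have hss : Real.sqrt c * Real.sqrt c = c := Real.mul_self_sqrt (by linarith)
    have e1 : 2 / Real.sqrt c * c = 2 * Real.sqrt c := by
      rw [div_mul_eq_mul_div, div_eq_iff hs.ne']
      nlinarith
    have e2 : 5 / c * c = 5 := by field_simp
    calc (1 + 2 / Real.sqrt c + 5 / c) * c = c + 2 / Real.sqrt c * c + 5 / c * c := by ring
      _ = _ := by rw [e1, e2]; ring
  rw [e, Real.exp_add, Real.exp_add]
  apply mul_le_mul_of_nonneg_right _ (Real.exp_pos _).le
  have h5 : (100 : ℝ) ≤ Real.exp 5 := by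
    have h6 : (2.7 : ℝ) ≤ Real.exp 1 := by
      have := Real.exp_one_gt_d9; linarith
    have h7 : (2.7 : ℝ) ^ 5 ≤ Real.exp 1 ^ 5 := pow_le_pow_left₀ (by norm_num) h6 5
    have h8 : Real.exp 1 ^ 5 = Real.exp 5 := by rw [← Real.exp_nat_mul]; norm_num
    rw [h8] at h7
    refine le_trans ?_ h7
    norm_num
  have h3 : L ^ 2 ≤ Real.exp (2 * Real.sqrt c) := by
    calc L ^ 2 ≤ (Real.exp (Real.sqrt c)) ^ 2 := pow_le_pow_left₀ (by linarith) h2 2
      _ = Real.exp (2 * Real.sqrt c) := by rw [← Real.exp_nat_mul]; norm_num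
  exact mul_le_mul h5 h3 (by positivity) (Real.exp_pos _).le

end Pool.Agent.MP_ef8d06_pr
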