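import Mathlib
import Pool.Agent.MP_ef8d06_pr.Defs
import Pool.Agent.MP_ef8d06_pr.Diag

set_option autoImplicit false

open Filter Topology Pool.Agent.MP_ef8d06_pr

namespace Pool.Agent.MP_ef8d06_pr.DimBounds

/-- There are positive functions `β` and `γ` tending to one such that, for every sequence
`1 ≤ c n ≤ log n` and `p n = c n / n`, with probability tending to one the dimension of the random
graph order is at least `exp (β (c n) * c n)`, and, if moreover `(log (log n)) ^ 2 ≤ c n`, it is at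
most `exp (γ (c n) * c n)`. -/
theorem result :
    ∃ β γ : ℝ → ℝ, (∀ c, 1 ≤ c → 0 < β c ∧ 0 < γ c) ∧
      Tendsto β atTop (𝓝 1) ∧ Tendsto γ atTop (𝓝 1) ∧
      ∀ (c : ℕ → ℝ) (p : ℕ → unitInterval),
        (∀ᶠ n : ℕ in atTop, 1 ≤ c n ∧ c n ≤ Real.log n ∧ (p n : ℝ) = c n / n) →
        Tendsto (fun n : ℕ => SimpleGraph.binomialRandom (Fin n) (p n)
          {G | Real.exp (β (c n) * c n) ≤ (orderDim (graphOrder n G) : ℝ)}) atTop (𝓝 1) ∧
        ((∀ᶠ n : ℕ in atTop, Real.log (Real.log n) ^ 2 ≤ c n) →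
          Tendsto (fun n : ℕ => SimpleGraph.binomialRandom (Fin n) (p n)
            {G | (orderDim (graphOrder n G) : ℝ) ≤ Real.exp (γ (c n) * c n)}) atTop (𝓝 1)) := by
  obtain ⟨β, hβ0, hβ1, hβ⟩ := exists_beta
  refine ⟨β, fun c => 1 + 2 / Real.sqrt c + 5 / c, ?_, hβ1, ?_, ?_⟩
  · intro c hc
    refine ⟨hβ0 c hc, ?_⟩
    have hs : 0 < Real.sqrt c := Real.sqrt_pos.2 (by linarith)
    positivity
  · have h1 : Tendsto (fun c : ℝ => 2 / Real.sqrt c) atTop (𝓝 0) :=
      (tendsto_const_nhds (x := (2 : ℝ))).div_atTop Real.tendsto_sqrt_atTop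
    have h2 : Tendsto (fun c : ℝ => 5 / c) atTop (𝓝 0) :=
      (tendsto_const_nhds (x := (5 : ℝ))).div_atTop tendsto_id
    have h3 := ((tendsto_const_nhds (x := (1 : ℝ)) (f := (atTop : Filter ℝ))).add h1).add h2
    simpa using h3
  · intro c p hcp
    have hset : ∀ (n : ℕ) (R : ℕ → Prop), {G : SimpleGraph (Fin n) | R (orderDim (graphOrder n G))} =
        {G | (fun S => R (orderDim (prel n S))) (pairs n G)} := by
      intro n R
      ext G
      simp only [Set.mem_ofPred_eq, prel_pairs]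
    refine ⟨?_, fun hloglog => ?_⟩
    · have h1 := tendsto_of_PP p (fun n S => Real.exp (β (c n) * c n) ≤
        (orderDim (prel n S) : ℝ)) (by
          intro η hη
          obtain ⟨N, hN⟩ := hβ η hη
          filter_upwards [hcp, eventually_ge_atTop N] with n h2 h3
          rw [h2.2.2]
          exact hN n h3 (c n) h2.1 h2.2.1)
      refine h1.congr fun n => ?_
      rw [← hset n (fun d => Real.exp (β (c n) * c n) ≤ (d : ℝ))]
    · have h1 := tendsto_of_PP p (fun n S => (orderDim (prel n S) : ℝ) ≤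
        Real.exp ((1 + 2 / Real.sqrt (c n) + 5 / (c n)) * c n)) (by
          intro η hη
          have h0 : Tendsto (fun n : ℕ => 1 / (n : ℝ)) atTop (𝓝 0) :=
            (tendsto_const_nhds (x := (1 : ℝ))).div_atTop tendsto_natCast_atTop_atTop
          filter_upwards [hcp, hloglog, tendsto_log_nat.eventually_ge_atTop 1,
            h0.eventually (gt_mem_nhds hη)] with n h2 h3 h4 h5
          rw [h2.2.2]
          obtain ⟨hp0, hp1⟩ := PP_nonneg' (by linarith [h2.1] : 0 ≤ c n) h2.2.1
          refine le_trans (PP_mono hp0 hp1 fun S hS hbad hgood => ?_)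
            ((upper_large h4 h2.1 h2.2.1).trans h5.le)
          exact hbad (hgood.trans (gamma_bound h2.1 h4 h3)))
      refine h1.congr fun n => ?_
      rw [← hset n (fun d => (d : ℝ) ≤ Real.exp ((1 + 2 / Real.sqrt (c n) + 5 / (c n)) * c n))]

end Pool.Agent.MP_ef8d06_pr.DimBounds
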